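import Pool.Agent.H53.Tame.Weights

/-!
The potential of a postcritically finite map and the average of the logarithm of its derivative
over the preimages of a point.
-/

open Polynomial

namespace Pool.Agent.H53.Tame

section Aux

variable {Ω : Type*} [NormedField Ω]

lemma sum_log_norm {α : Type*} (m : Multiset α) (g : α → Ω) (h : ∀ w ∈ m, g w ≠ 0) :
    (m.map (fun w => Real.log ‖g w‖)).sum = Real.log ‖(m.map g).prod‖ := by
  induction m using Multiset.induction_on with
  | empty => simp
  | cons a m ih =>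
    rw [Multiset.map_cons, Multiset.sum_cons, Multiset.map_cons, Multiset.prod_cons, norm_mul,
      ih (fun w hw => h w (Multiset.mem_cons_of_mem hw)), Real.log_mul]
    · exact norm_ne_zero_iff.mpr (h a (Multiset.mem_cons_self a m))
    · rw [norm_ne_zero_iff]
      apply Multiset.prod_ne_zero
      intro h0
      rw [Multiset.mem_map] at h0
      obtain ⟨w, hw, hw0⟩ := h0
      exact h w (Multiset.mem_cons_of_mem hw) hw0

lemma norm_prod_sub_comm (m : Multiset Ω) (x : Ω) :
    ‖(m.map (fun w => w - x)).prod‖ = ‖(m.map (fun w => x - w)).prod‖ := by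
  induction m using Multiset.induction_on with
  | empty => simp
  | cons a m ih =>
    rw [Multiset.map_cons, Multiset.prod_cons, Multiset.map_cons, Multiset.prod_cons, norm_mul,
      norm_mul, ih, norm_sub_rev]

end Aux

namespace RM

variable {C : Type*} [Field C] (f : RM C)

open Classical in
/-- the constant in the product formula for the preimages -/
noncomputable def kap (x : OnePoint C) : C :=
  x.elim 1 (fun z => (if f.Q.eval z = 0 then f.P.eval z else f.Q.eval z) / f.P.leadingCoeff)

lemma kap_infty : f.kap OnePoint.infty = 1 := rfl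

lemma kap_of_pole {z : C} (h : f.Q.eval z = 0) :
    f.kap (z : OnePoint C) = f.P.eval z / f.P.leadingCoeff := by
  exact congrArg (· / f.P.leadingCoeff) (if_pos h)

lemma kap_of_ne {z : C} (h : f.Q.eval z ≠ 0) :
    f.kap (z : OnePoint C) = f.Q.eval z / f.P.leadingCoeff := by
  exact congrArg (· / f.P.leadingCoeff) (if_neg h)

lemma kap_ne (x : OnePoint C) : f.kap x ≠ 0 := by
  have h0 : f.P.leadingCoeff ≠ 0 := leadingCoeff_ne_zero.mpr f.P_ne
  induction x using OnePoint.rec with
  | infty => rw [kap_infty]; exact one_ne_zero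
  | coe z =>
    by_cases h : f.Q.eval z = 0
    · rw [f.kap_of_pole h]; exact div_ne_zero (f.P_ne_of_Q h) h0
    · rw [f.kap_of_ne h]; exact div_ne_zero h h0

variable {Ω : Type*} [NormedField Ω] [Algebra C Ω]

/-- `log |y - x|`, with the convention `0` for `x = ∞` -/
noncomputable def u (x : OnePoint C) (y : Ω) : ℝ :=
  x.elim 0 (fun z => Real.log ‖y - algebraMap C Ω z‖)

@[simp] lemma u_infty (y : Ω) : u (OnePoint.infty : OnePoint C) y = 0 := rfl
@[simp] lemma u_coe (z : C) (y : Ω) : u (z : OnePoint C) y = Real.log ‖y - algebraMap C Ω z‖ := rfl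

/-- the preimages of `y` -/
noncomputable def pre (y : Ω) : Multiset Ω := ((f.bc Ω).fib y).roots

lemma mem_pre {y w : Ω} : w ∈ f.pre y ↔
    (f.P.map (algebraMap C Ω)).eval w = y * (f.Q.map (algebraMap C Ω)).eval w :=
  (f.bc Ω).mem_fib_roots

lemma Q_ne_of_mem_pre {y w : Ω} (h : w ∈ f.pre y) : (f.Q.map (algebraMap C Ω)).eval w ≠ 0 :=
  (f.bc Ω).Q_ne_of_P (f.mem_pre.mp h)

variable [IsAlgClosed Ω]

lemma card_pre (y : Ω) : (f.pre y).card = f.d := by
  unfold pre; rw [card_fib_roots, bc_d]

lemma prod_pre (y x : Ω) : (f.P.map (algebraMap C Ω)).eval x - y * (f.Q.map (algebraMap C Ω)).eval x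
    = algebraMap C Ω f.P.leadingCoeff * ((f.pre y).map (fun w => x - w)).prod := by
  have h := (IsAlgClosed.splits ((f.bc Ω).fib y)).eval_eq_prod_roots x
  rw [fib_eval, fib_leadingCoeff, bc_P, bc_Q, leadingCoeff_map] at h
  exact h

/-- the basic product formula -/
lemma sum_u_pre (x : OnePoint C) (y : Ω) (hy : ∀ z : C, f.app x = (z : OnePoint C) →
    y ≠ algebraMap C Ω z) :
    ((f.pre y).map (fun w => u x w)).sum = Real.log ‖algebraMap C Ω (f.kap x)‖ + u (f.app x) y := by
  have h0 : algebraMap C Ω f.P.leadingCoeff ≠ 0 := by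
    rw [Ne, map_eq_zero]; exact leadingCoeff_ne_zero.mpr f.P_ne
  induction x using OnePoint.rec with
  | infty => simp [kap_infty]
  | coe z =>
    have hw : ∀ w ∈ f.pre y, w - algebraMap C Ω z ≠ 0 := by
      intro w hw h1
      have h2 : w = algebraMap C Ω z := sub_eq_zero.mp h1
      have h3 := f.mem_pre.mp hw
      have h4 := f.Q_ne_of_mem_pre hw
      rw [h2, eval_map_algebraMap, aeval_algebraMap_apply] at h3 h4
      rw [eval_map_algebraMap, aeval_algebraMap_apply] at h3
      have h5 : f.Q.eval z ≠ 0 := by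
        intro h6; apply h4; simp [h6]
      apply hy _ (f.app_of_ne h5)
      rw [map_div₀]
      simp only [coe_aeval_eq_eval] at h3 h4
      rw [h3]; field_simp
    have h1 : ((f.pre y).map (fun w => u (z : OnePoint C) w)).sum =
        Real.log ‖((f.pre y).map (fun w => w - algebraMap C Ω z)).prod‖ := by
      rw [← sum_log_norm _ _ hw]; rfl
    have h2 : ‖((f.pre y).map (fun w => w - algebraMap C Ω z)).prod‖ =
        ‖((f.pre y).map (fun w => algebraMap C Ω z - w)).prod‖ := by
      exact norm_prod_sub_comm _ _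
    have h3 := f.prod_pre y (algebraMap C Ω z)
    rw [eval_map_algebraMap, aeval_algebraMap_apply, eval_map_algebraMap,
      aeval_algebraMap_apply] at h3
    simp only [coe_aeval_eq_eval] at h3
    have h4 : ((f.pre y).map (fun w => algebraMap C Ω z - w)).prod =
        (algebraMap C Ω (f.P.eval z) - y * algebraMap C Ω (f.Q.eval z)) /
          algebraMap C Ω f.P.leadingCoeff := by
      rw [h3]; field_simp
    rw [h1, h2, h4]
    by_cases hQ : f.Q.eval z = 0
    · rw [f.app_of_pole hQ, f.kap_of_pole hQ, hQ]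
      simp
    · have hyz := hy _ (f.app_of_ne hQ)
      rw [f.app_of_ne hQ, f.kap_of_ne hQ, u_coe]
      have hQ' : algebraMap C Ω (f.Q.eval z) ≠ 0 := by rw [Ne, map_eq_zero]; exact hQ
      have e : (algebraMap C Ω (f.P.eval z) - y * algebraMap C Ω (f.Q.eval z)) /
          algebraMap C Ω f.P.leadingCoeff =
          algebraMap C Ω (f.Q.eval z / f.P.leadingCoeff) *
            (-(y - algebraMap C Ω (f.P.eval z / f.Q.eval z))) := by
        rw [map_div₀, map_div₀]; field_simp; ring
      rw [e, norm_mul, norm_neg, Real.log_mul]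
      · rw [norm_ne_zero_iff, Ne, map_eq_zero]
        exact div_ne_zero hQ (leadingCoeff_ne_zero.mpr f.P_ne)
      · rw [norm_ne_zero_iff, sub_ne_zero]; exact hyz

variable [IsAlgClosed C]

omit [IsAlgClosed Ω] in
lemma log_eval {F : C[X]} (w : Ω) (h : (F.map (algebraMap C Ω)).eval w ≠ 0) :
    Real.log ‖(F.map (algebraMap C Ω)).eval w‖ = Real.log ‖algebraMap C Ω F.leadingCoeff‖ +
      (F.roots.map (fun c : C => u (c : OnePoint C) w)).sum := by
  have hs := IsAlgClosed.splits F
  have h1 : (F.map (algebraMap C Ω)).eval w =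
      algebraMap C Ω F.leadingCoeff * (F.roots.map (fun c => w - algebraMap C Ω c)).prod := by
    have h2 := (hs.map (algebraMap C Ω)).eval_eq_prod_roots w
    rw [leadingCoeff_map, hs.roots_map, Multiset.map_map] at h2
    exact h2
  rw [h1] at h
  have h3 := left_ne_zero_of_mul h
  have h4 := right_ne_zero_of_mul h
  rw [h1, norm_mul, Real.log_mul (norm_ne_zero_iff.mpr h3) (norm_ne_zero_iff.mpr h4)]
  congr 1
  rw [← sum_log_norm]
  · rfl
  · intro c hc h0
    apply h4
    rw [Multiset.prod_eq_zero_iff, Multiset.mem_map]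
    exact ⟨c, hc, h0⟩

/-- the sum of `log |F|` over the preimages -/
lemma sum_log_eval_pre (F : C[X]) (y : Ω) (hF : ∀ w ∈ f.pre y, (F.map (algebraMap C Ω)).eval w ≠ 0)
    (hy : ∀ c ∈ F.roots, ∀ z : C, f.app (c : OnePoint C) = (z : OnePoint C) →
      y ≠ algebraMap C Ω z) :
    ((f.pre y).map (fun w => Real.log ‖(F.map (algebraMap C Ω)).eval w‖)).sum =
      f.d * Real.log ‖algebraMap C Ω F.leadingCoeff‖ +
      (F.roots.map (fun c : C => Real.log ‖algebraMap C Ω (f.kap (c : OnePoint C))‖)).sum +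
      (F.roots.map (fun c : C => u (f.app (c : OnePoint C)) y)).sum := by
  have h1 : ((f.pre y).map (fun w => Real.log ‖(F.map (algebraMap C Ω)).eval w‖)) =
      ((f.pre y).map (fun w => Real.log ‖algebraMap C Ω F.leadingCoeff‖ +
      (F.roots.map (fun c : C => u (c : OnePoint C) w)).sum)) :=
    Multiset.map_congr rfl (fun w hw => log_eval w (hF w hw))
  rw [h1, Multiset.sum_map_add, Multiset.map_const', Multiset.sum_replicate, card_pre,
    nsmul_eq_mul, add_assoc]
  congr 1
  rw [Multiset.sum_map_sum_map, ← Multiset.sum_map_add]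
  congr 1
  apply Multiset.map_congr rfl
  intro c hc
  exact f.sum_u_pre (c : OnePoint C) y (hy c hc)

/-- the absolute value of the derivative -/
noncomputable def D (w : Ω) : ℝ := ‖(f.W.map (algebraMap C Ω)).eval w‖ /
  ‖(f.Q.map (algebraMap C Ω)).eval w‖ ^ 2

variable [CharZero C]

/-- the data of the potential theory: an invariant set with the weights -/
structure PData (f : RM C) where
  Z : Finset (OnePoint C)
  inf : OnePoint.infty ∈ Z
  inv : ∀ z ∈ Z, f.app z ∈ Z
  cr : ∀ c ∈ f.W.roots, f.app (c : OnePoint C) ∈ Z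
  v : OnePoint C → ℝ
  v0 : ∀ w, 0 ≤ v w
  v1 : ∀ w, v w ≤ 1
  veq : open Classical in
    ∀ w, (f.d : ℝ) * v w = f.crit w + ∑ z ∈ Z.filter (fun z => f.app z = w), v z
  vsum : ∑ z ∈ Z, v z = 2

variable {f} (p : f.PData)

/-- the potential -/
noncomputable def PData.V (y : Ω) : ℝ := ∑ z ∈ p.Z, p.v z * u z y

/-- the Lyapunov exponent -/
noncomputable def PData.L (Ω : Type*) [NormedField Ω] [Algebra C Ω] : ℝ :=
  Real.log ‖algebraMap C Ω f.W.leadingCoeff‖ - 2 * Real.log ‖algebraMap C Ω f.Q.leadingCoeff‖ +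
  ((f.W.roots.map (fun c : C => Real.log ‖algebraMap C Ω (f.kap (c : OnePoint C))‖)).sum -
    2 * (f.Q.roots.map (fun c : C => Real.log ‖algebraMap C Ω (f.kap (c : OnePoint C))‖)).sum +
    ∑ z ∈ p.Z, p.v z * Real.log ‖algebraMap C Ω (f.kap z)‖) / f.d

/-- a point outside the invariant set -/
def PData.Out (y : Ω) : Prop := ∀ z : C, (z : OnePoint C) ∈ p.Z → y ≠ algebraMap C Ω z

omit [IsAlgClosed Ω] in
lemma PData.Out.pre {p : f.PData} {y w : Ω} (hy : p.Out y) (hw : w ∈ f.pre y) : p.Out w := by
  intro z hz h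
  have h3 := f.mem_pre.mp hw
  have h4 := f.Q_ne_of_mem_pre hw
  rw [h, eval_map_algebraMap, aeval_algebraMap_apply] at h3 h4
  rw [eval_map_algebraMap, aeval_algebraMap_apply] at h3
  have h5 : f.Q.eval z ≠ 0 := by
    intro h6; apply h4; simp [h6]
  have h6 := p.inv _ hz
  rw [f.app_of_ne h5] at h6
  apply hy _ h6
  rw [map_div₀]
  simp only [coe_aeval_eq_eval] at h3 h4
  rw [h3]; field_simp

omit [IsAlgClosed Ω] in
lemma PData.Out.W_ne {p : f.PData} {y w : Ω} (hy : p.Out y) (hw : w ∈ f.pre y) :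
    (f.W.map (algebraMap C Ω)).eval w ≠ 0 := by
  intro h
  have h1 : w ∈ (f.W.map (algebraMap C Ω)).roots := by
    rw [mem_roots (Polynomial.map_ne_zero f.W_ne)]; exact h
  rw [(IsAlgClosed.splits f.W).roots_map, Multiset.mem_map] at h1
  obtain ⟨c, hc, hcw⟩ := h1
  have h3 := f.mem_pre.mp hw
  have h4 := f.Q_ne_of_mem_pre hw
  rw [← hcw, eval_map_algebraMap, aeval_algebraMap_apply] at h3 h4
  rw [eval_map_algebraMap, aeval_algebraMap_apply] at h3
  have h5 : f.Q.eval c ≠ 0 := by
    intro h6; apply h4; simp [h6]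
  have h6 := p.cr c hc
  rw [f.app_of_ne h5] at h6
  apply hy _ h6
  rw [map_div₀]
  simp only [coe_aeval_eq_eval] at h3 h4
  rw [h3]; field_simp

omit [IsAlgClosed Ω] in
lemma PData.Out.D_pos {p : f.PData} {y w : Ω} (hy : p.Out y) (hw : w ∈ f.pre y) : 0 < f.D w := by
  unfold D
  have h1 := norm_pos_iff.mpr (hy.W_ne hw)
  have h2 := norm_pos_iff.mpr (f.Q_ne_of_mem_pre hw)
  positivity

/-- **The average of the potential plus the logarithm of the derivative.** -/
theorem PData.average (y : Ω) (hy : p.Out y) :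
    ((f.pre y).map (fun w => Real.log (f.D w) + p.V w)).sum = f.d * (p.L Ω + p.V y) := by
  have hd : (f.d : ℝ) ≠ 0 := by
    have := f.two_le_d
    exact_mod_cast (by omega : f.d ≠ 0)
  have hy1 : ∀ x : OnePoint C, f.app x ∈ p.Z → ∀ z : C, f.app x = (z : OnePoint C) →
      y ≠ algebraMap C Ω z := by
    intro x hx z hz
    apply hy z; rw [← hz]; exact hx
  -- the derivative
  have h1 : ((f.pre y).map (fun w => Real.log (f.D w))).sum =
      ((f.pre y).map (fun w => Real.log ‖(f.W.map (algebraMap C Ω)).eval w‖)).sum -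
      2 * ((f.pre y).map (fun w => Real.log ‖(f.Q.map (algebraMap C Ω)).eval w‖)).sum := by
    rw [← Multiset.sum_map_mul_left, ← Multiset.sum_map_sub]
    congr 1
    apply Multiset.map_congr rfl
    intro w hw
    unfold D
    rw [Real.log_div (norm_ne_zero_iff.mpr (hy.W_ne hw))
      (pow_ne_zero 2 (norm_ne_zero_iff.mpr (f.Q_ne_of_mem_pre hw))), Real.log_pow]
    push_cast; ring
  have h2 := f.sum_log_eval_pre f.W y (fun w hw => hy.W_ne hw) (fun c hc => hy1 _ (p.cr c hc))
  have h3 := f.sum_log_eval_pre f.Q y (fun w hw => f.Q_ne_of_mem_pre hw)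
    (fun c hc => hy1 _ (by rw [f.app_eq_infty_iff.mpr hc]; exact p.inf))
  have h3' : (f.Q.roots.map (fun c : C => u (f.app (c : OnePoint C)) y)).sum = 0 := by
    apply Multiset.sum_eq_zero
    intro x hx
    rw [Multiset.mem_map] at hx
    obtain ⟨c, hc, rfl⟩ := hx
    rw [f.app_eq_infty_iff.mpr hc, u_infty]
  rw [h3', add_zero] at h3
  -- the potential
  have h4 : ((f.pre y).map (fun w => p.V w)).sum =
      ∑ z ∈ p.Z, p.v z * Real.log ‖algebraMap C Ω (f.kap z)‖ +
      ∑ z ∈ p.Z, p.v z * u (f.app z) y := by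
    unfold V
    rw [Multiset.sum_map_sum, ← Finset.sum_add_distrib]
    apply Finset.sum_congr rfl
    intro z hz
    rw [Multiset.sum_map_mul_left, f.sum_u_pre z y (hy1 z (p.inv z hz))]
    ring
  classical
  have h5 : ∑ z ∈ p.Z, p.v z * u (f.app z) y =
      ∑ w ∈ p.Z, ((f.d : ℝ) * p.v w - f.crit w) * u w y := by
    rw [← Finset.sum_fiberwise_of_maps_to p.inv]
    apply Finset.sum_congr rfl
    intro w hw
    rw [p.veq w, add_sub_cancel_left, Finset.sum_mul]
    apply Finset.sum_congr
    · ext; simp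
    · intro z hz
      rw [Finset.mem_filter] at hz
      rw [hz.2]
  have h6 : (f.W.roots.map (fun c : C => u (f.app (c : OnePoint C)) y)).sum =
      ∑ w ∈ p.Z, (f.crit w : ℝ) * u w y := by
    have e1 : f.W.roots.map (fun c : C => u (f.app (c : OnePoint C)) y) =
        (f.W.roots.map (fun c : C => f.app (c : OnePoint C))).map (fun x => u x y) := by
      rw [Multiset.map_map]; rfl
    have e2 : (f.W.roots.map (fun c : C => f.app (c : OnePoint C))).toFinset ⊆ p.Z := by
      intro x hx
      rw [Multiset.mem_toFinset, Multiset.mem_map] at hx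
      obtain ⟨c, hc, rfl⟩ := hx
      exact p.cr c hc
    rw [e1, Finset.sum_multiset_map_count, Finset.sum_subset e2]
    · apply Finset.sum_congr rfl
      intro w hw
      rw [nsmul_eq_mul]
      induction w using OnePoint.rec with
      | infty => simp
      | coe w =>
        congr 2
        unfold crit
        rw [if_neg (OnePoint.coe_ne_infty w), add_zero]
    · intro x _ hx
      rw [Multiset.mem_toFinset, ← Multiset.count_pos, not_lt, Nat.le_zero] at hx
      rw [hx, zero_smul]
  rw [Multiset.sum_map_add, h1, h2, h3, h4, h5, h6]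
  have h7 : ∑ w ∈ p.Z, ((f.d : ℝ) * p.v w - f.crit w) * u w y =
      f.d * p.V y - ∑ w ∈ p.Z, (f.crit w : ℝ) * u w y := by
    unfold V
    rw [Finset.mul_sum, ← Finset.sum_sub_distrib]
    apply Finset.sum_congr rfl
    intro w _; ring
  rw [h7]
  unfold L
  field_simp
  ring

end RM

end Pool.Agent.H53.Tame
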