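import Pool.Agent.H53.Tame.Transfer
import Pool.Agent.H53.Tame.Potential

/-!
The Lyapunov exponent is positive at an archimedean place.
-/

open Polynomial MeasureTheory

namespace Pool.Agent.H53.Tame

open RM

section

variable {C : Type*} [Field C] [IsAlgClosed C] [CharZero C] [Algebra C ℂ]
variable {f : RM C}

lemma sum_exp_ge (m : Multiset ℝ) : (m.card : ℝ) * Real.exp (m.sum / m.card) ≤
    (m.map Real.exp).sum := by
  rcases Nat.eq_zero_or_pos m.card with h | h
  · have : m = 0 := Multiset.card_eq_zero.mp h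
    subst this
    simp
  set c := m.sum / m.card with hc
  have h1 : ∀ m : Multiset ℝ, (m.map (fun x => Real.exp c * (1 + (x - c)))).sum ≤
      (m.map Real.exp).sum := by
    intro m
    apply Multiset.sum_map_le_sum_map
    intro x _
    have h2 := Real.add_one_le_exp (x - c)
    have h3 : Real.exp x = Real.exp c * Real.exp (x - c) := by
      rw [← Real.exp_add]; congr 1; ring
    rw [h3]
    apply mul_le_mul_of_nonneg_left _ (Real.exp_pos _).le
    linarith
  refine le_trans (le_of_eq ?_) (h1 m)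
  rw [Multiset.sum_map_mul_left, Multiset.sum_map_add, Multiset.sum_map_sub, Multiset.map_id',
    Multiset.map_const', Multiset.sum_replicate, Multiset.map_const', Multiset.sum_replicate,
    nsmul_eq_mul, nsmul_eq_mul, mul_one]
  have hcard : (m.card : ℝ) ≠ 0 := by exact_mod_cast h.ne'
  rw [hc]
  field_simp
  ring

omit [IsAlgClosed C] [CharZero C] in
/-- sums of the positive logarithms -/
lemma sum_posLog (f : RM C) : ∃ C1 : ℝ, 0 ≤ C1 ∧ ∀ y : ℂ,
    ((f.pre y).map (fun w => Real.posLog ‖w‖)).sum ≤ Real.posLog ‖y‖ + C1 := by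
  set P' := f.P.map (algebraMap C ℂ) with hP'
  set Q' := f.Q.map (algebraMap C ℂ) with hQ'
  set S := ∑ i ∈ Finset.range (f.d + 1), (‖P'.coeff i‖ + ‖Q'.coeff i‖) with hS
  have hlc : 0 < ‖(f.bc ℂ).P.leadingCoeff‖ :=
    norm_pos_iff.mpr (leadingCoeff_ne_zero.mpr (f.bc ℂ).P_ne)
  refine ⟨|Real.log S - Real.log ‖(f.bc ℂ).P.leadingCoeff‖|, abs_nonneg _, fun y => ?_⟩
  set F := (f.bc ℂ).fib y with hF
  have h1 := logMahlerMeasure_eq_log_leadingCoeff_add_sum_log_roots F
  rw [logMahlerMeasure_eq_log_MahlerMeasure] at h1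
  have h2 := mahlerMeasure_le_sum_norm_coeff F
  have hF0 : F ≠ 0 := (f.bc ℂ).fib_ne y
  have h3 : F.sum (fun _ a => ‖a‖) ≤ max 1 ‖y‖ * S := by
    have hdeg : F.natDegree < f.d + 1 := by
      rw [hF, fib_natDegree, bc_d]; omega
    rw [Polynomial.sum_over_range' F (fun _ => norm_zero) (f.d + 1) hdeg, hS, Finset.mul_sum]
    apply Finset.sum_le_sum
    intro i _
    have h4 : F.coeff i = P'.coeff i - y * Q'.coeff i := by
      rw [hF]; unfold fib; rw [coeff_sub, coeff_C_mul, bc_P, bc_Q]
    rw [h4]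
    refine le_trans (norm_sub_le _ _) ?_
    rw [norm_mul, mul_add]
    apply add_le_add
    · have : 1 * ‖P'.coeff i‖ ≤ max 1 ‖y‖ * ‖P'.coeff i‖ :=
        mul_le_mul_of_nonneg_right (le_max_left _ _) (norm_nonneg _)
      linarith
    · exact mul_le_mul_of_nonneg_right (le_max_right _ _) (norm_nonneg _)
  have hM : 0 < F.mahlerMeasure := mahlerMeasure_pos_of_ne_zero hF0
  have hmax : 0 < max 1 ‖y‖ := lt_max_of_lt_left one_pos
  have hS0 : 0 < S := by
    by_contra h5
    push Not at h5
    have h6 : max 1 ‖y‖ * S ≤ 0 := mul_nonpos_of_nonneg_of_nonpos hmax.le h5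
    linarith
  have h5 : Real.log F.mahlerMeasure ≤ Real.log (max 1 ‖y‖ * S) :=
    Real.log_le_log hM (le_trans h2 h3)
  rw [Real.log_mul hmax.ne' hS0.ne', ← Real.posLog_eq_log_max_one (norm_nonneg _)] at h5
  have h6 : F.leadingCoeff = (f.bc ℂ).P.leadingCoeff := by rw [hF, fib_leadingCoeff]
  rw [h6] at h1
  have h7 := le_abs_self (Real.log S - Real.log ‖(f.bc ℂ).P.leadingCoeff‖)
  have h8 : ((f.pre y).map (fun w => Real.posLog ‖w‖)).sum =
      (F.roots.map (fun a => Real.posLog ‖a‖)).sum := rfl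
  rw [h8]
  linarith

lemma pre_nodup (pd : f.PData) {y : ℂ} (hy : pd.Out y) : (f.pre y).Nodup := by
  classical
  rw [Multiset.nodup_iff_count_le_one]
  intro w
  by_cases hw : w ∈ f.pre y
  · have h1 := (f.bc ℂ).W_mult_fib hw
    have h2 := hy.W_ne hw
    rw [← bc_W] at h2
    have h3 : (f.bc ℂ).W.rootMultiplicity w = 0 := rootMultiplicity_eq_zero h2
    rw [h3] at h1
    have h4 : (f.pre y).count w = ((f.bc ℂ).fib y).rootMultiplicity w := count_roots _
    omega
  · rw [Multiset.count_eq_zero_of_notMem hw]; omega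

/-- the iterated transfer -/
lemma exists_rho (pd : f.PData) {ρ : ℂ → ENNReal} (hρ : Measurable ρ) :
    ∃ σ : ℂ → ENNReal, Measurable σ ∧ ∫⁻ y, σ y ≤ ∫⁻ x, ρ x ∧
      ∀ y : ℂ, pd.Out y → ((f.pre y).map (fun w => ρ w / ENNReal.ofReal (f.D w ^ 2))).sum ≤ σ y := by
  classical
  set P' := f.P.map (algebraMap C ℂ) with hP'
  set Q' := f.Q.map (algebraMap C ℂ) with hQ'
  set W' := f.W.map (algebraMap C ℂ) with hW'
  have hWeq : W' = derivative P' * Q' - P' * derivative Q' := by
    rw [hW', ← bc_W]; rfl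
  have hm : ∀ F : ℂ[X], Measurable (fun w => F.eval w) := fun F => F.continuous.measurable
  have hU : MeasurableSet {w : ℂ | Q'.eval w ≠ 0 ∧ W'.eval w ≠ 0} := by
    apply MeasurableSet.inter
    · exact (hm Q') (measurableSet_singleton 0).compl
    · exact (hm W') (measurableSet_singleton 0).compl
  obtain ⟨σ, h1, h2, h3⟩ := exists_transfer (φ := fun w => P'.eval w / Q'.eval w)
    (φ' := fun w => W'.eval w / (Q'.eval w) ^ 2)
    (U := {w : ℂ | Q'.eval w ≠ 0 ∧ W'.eval w ≠ 0}) hU
    (fun x hx => by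
      have h1 := (P'.hasDerivAt x).div (Q'.hasDerivAt x) hx.1
      rw [hWeq]
      simp only [eval_sub, eval_mul]
      exact h1)
    (fun x hx => div_ne_zero hx.2 (pow_ne_zero 2 hx.1))
    ((hm W').div ((hm Q').pow_const 2)) hρ
  refine ⟨σ, h1, h2, fun y hy => ?_⟩
  have h4 := h3 y (f.pre y).toFinset (by
    intro w hw
    rw [Multiset.mem_toFinset] at hw
    have h5 := f.Q_ne_of_mem_pre hw
    refine ⟨⟨h5, hy.W_ne hw⟩, ?_⟩
    have h6 := f.mem_pre.mp hw
    show P'.eval w / Q'.eval w = y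
    rw [h6, mul_div_cancel_right₀ _ h5])
  have h5 : ((f.pre y).map (fun w => ρ w / ENNReal.ofReal (f.D w ^ 2))).sum =
      ∑ w ∈ (f.pre y).toFinset, ρ w / ENNReal.ofReal (‖W'.eval w / (Q'.eval w) ^ 2‖ ^ 2) := by
    have h6 : (f.pre y).toFinset.val = f.pre y := by
      rw [Multiset.toFinset_val, (pre_nodup pd hy).dedup]
    rw [Finset.sum, h6]
    congr 1
    apply Multiset.map_congr rfl
    intro w _
    unfold D
    rw [norm_div, norm_pow]
  rw [h5]; exact h4

lemma sum_six {α : Type*} (m : Multiset α) (A1 A2 B : ℝ) (v s h l : α → ℝ) :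
    (m.map (fun w => A1 - 2 * v w + s w - B * h w - A2 - 2 * l w)).sum =
      m.card * (A1 - A2) - 2 * (m.map (fun w => v w + l w)).sum + (m.map s).sum -
      B * (m.map h).sum := by
  induction m using Multiset.induction_on with
  | empty => simp
  | cons a m ih =>
    rw [Multiset.map_cons, Multiset.sum_cons, ih, Multiset.map_cons, Multiset.sum_cons,
      Multiset.map_cons, Multiset.sum_cons, Multiset.map_cons, Multiset.sum_cons,
      Multiset.card_cons]
    push_cast
    ring

/-- the lower bound for the iterated transfer -/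
lemma growth (pd : f.PData) {C1 κ : ℝ} (hC1 : 0 ≤ C1) (hκ0 : 0 ≤ κ)
    (hC : ∀ y : ℂ, ((f.pre y).map (fun w => Real.posLog ‖w‖)).sum ≤ Real.posLog ‖y‖ + C1)
    (hκ : ∀ z ∈ pd.Z, -κ ≤ Real.log ‖algebraMap C ℂ (f.kap z)‖)
    (ρ : ℕ → ℂ → ENNReal)
    (h0 : ∀ y, ENNReal.ofReal (Real.exp (-(4 * Real.posLog ‖y‖) - 4 * Real.log 2)) ≤ ρ 0 y)
    (hs : ∀ n y, pd.Out y →
      ((f.pre y).map (fun w => ρ n w / ENNReal.ofReal (f.D w ^ 2))).sum ≤ ρ (n + 1) y) (n : ℕ) :
    ∃ a : OnePoint C → ℝ, (∀ z, 0 ≤ a z) ∧ ∑ z ∈ pd.Z, a z = 4 / (f.d : ℝ) ^ n ∧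
      ∀ y : ℂ, pd.Out y → ENNReal.ofReal (Real.exp (n * (Real.log f.d - 2 * pd.L ℂ) -
        2 * pd.V y + ∑ z ∈ pd.Z, a z * u z y - 4 / (f.d : ℝ) ^ n * Real.posLog ‖y‖ -
        (4 * Real.log 2 + 4 * (κ + C1) * (1 - 1 / (f.d : ℝ) ^ n)))) ≤ ρ n y := by
  classical
  have hd2 : (2 : ℝ) ≤ f.d := by
    have := f.two_le_d
    exact_mod_cast this
  have hd0 : (0 : ℝ) < f.d := by linarith
  induction n with
  | zero =>
    refine ⟨fun z => 2 * pd.v z, fun z => by have := pd.v0 z; positivity, ?_, fun y hy => ?_⟩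
    · rw [← Finset.mul_sum, pd.vsum]; norm_num
    · refine le_trans (le_of_eq ?_) (h0 y)
      congr 2
      have : ∑ z ∈ pd.Z, 2 * pd.v z * u z y = 2 * pd.V y := by
        unfold PData.V
        rw [Finset.mul_sum]
        apply Finset.sum_congr rfl
        intro z _; ring
      rw [this]
      simp
  | succ n ih =>
    obtain ⟨a, ha0, ha1, ha2⟩ := ih
    refine ⟨fun w => (∑ z ∈ pd.Z.filter (fun z => f.app z = w), a z) / f.d, ?_, ?_, ?_⟩
    · intro w
      apply div_nonneg _ hd0.le
      exact Finset.sum_nonneg (fun z _ => ha0 z)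
    · rw [← Finset.sum_div, Finset.sum_fiberwise_of_maps_to pd.inv, ha1, pow_succ, div_div]
    · intro y hy
      refine le_trans ?_ (hs n y hy)
      -- the exponents
      set x : ℂ → ℝ := fun w => n * (Real.log f.d - 2 * pd.L ℂ) -
        2 * pd.V w + ∑ z ∈ pd.Z, a z * u z w - 4 / (f.d : ℝ) ^ n * Real.posLog ‖w‖ -
        (4 * Real.log 2 + 4 * (κ + C1) * (1 - 1 / (f.d : ℝ) ^ n)) - 2 * Real.log (f.D w) with hx
      have hlow : ∀ w ∈ f.pre y, ENNReal.ofReal (Real.exp (x w)) ≤
          ρ n w / ENNReal.ofReal (f.D w ^ 2) := by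
        intro w hw
        have hD : 0 < f.D w := hy.D_pos hw
        have hD2 : 0 < f.D w ^ 2 := by positivity
        rw [ENNReal.le_div_iff_mul_le (Or.inl (ENNReal.ofReal_pos.mpr hD2).ne')
          (Or.inl ENNReal.ofReal_ne_top), ← ENNReal.ofReal_mul (Real.exp_pos _).le]
        refine le_trans (le_of_eq ?_) (ha2 w (hy.pre hw))
        congr 1
        have : f.D w ^ 2 = Real.exp (2 * Real.log (f.D w)) := by
          rw [mul_comm, Real.exp_mul, Real.exp_log hD]; norm_cast
        rw [this, ← Real.exp_add]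
        congr 1
        rw [hx]; ring
      have hsum1 : ENNReal.ofReal (((f.pre y).map (fun w => Real.exp (x w))).sum) ≤
          ((f.pre y).map (fun w => ρ n w / ENNReal.ofReal (f.D w ^ 2))).sum := by
        revert hlow
        generalize f.pre y = m
        intro hlow
        induction m using Multiset.induction_on with
        | empty => simp
        | cons b m ihm =>
          rw [Multiset.map_cons, Multiset.sum_cons, Multiset.map_cons, Multiset.sum_cons,
            ENNReal.ofReal_add (Real.exp_pos _).le]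
          · exact add_le_add (hlow b (Multiset.mem_cons_self b m))
              (ihm (fun w hw => hlow w (Multiset.mem_cons_of_mem hw)))
          · apply Multiset.sum_nonneg
            intro z hz
            rw [Multiset.mem_map] at hz
            obtain ⟨q, _, rfl⟩ := hz
            exact (Real.exp_pos _).le
      refine le_trans ?_ hsum1
      apply ENNReal.ofReal_le_ofReal
      -- the arithmetic mean
      have hamgm := sum_exp_ge ((f.pre y).map x)
      rw [Multiset.map_map, Multiset.card_map, f.card_pre] at hamgm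
      refine le_trans ?_ hamgm
      -- the sum of the exponents
      have hav := pd.average y hy
      have hav' : ((f.pre y).map (fun w => pd.V w + Real.log (f.D w))).sum =
          f.d * (pd.L ℂ + pd.V y) := by
        rw [← hav]
        congr 1
        apply Multiset.map_congr rfl
        intro w _; ring
      have hsu : ((f.pre y).map (fun w => ∑ z ∈ pd.Z, a z * u z w)).sum ≥
          ∑ z ∈ pd.Z, a z * (-κ + u (f.app z) y) := by
        rw [Multiset.sum_map_sum]
        apply Finset.sum_le_sum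
        intro z hz
        rw [Multiset.sum_map_mul_left]
        apply mul_le_mul_of_nonneg_left _ (ha0 z)
        rw [f.sum_u_pre z y]
        · have := hκ z hz
          linarith
        · intro z' hz'
          apply hy
          rw [← hz']
          exact pd.inv z hz
      have hH := hC y
      have hxs : ((f.pre y).map x).sum =
          f.d * (n * (Real.log f.d - 2 * pd.L ℂ) -
            (4 * Real.log 2 + 4 * (κ + C1) * (1 - 1 / (f.d : ℝ) ^ n))) -
          2 * ((f.pre y).map (fun w => pd.V w + Real.log (f.D w))).sum +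
          ((f.pre y).map (fun w => ∑ z ∈ pd.Z, a z * u z w)).sum -
          4 / (f.d : ℝ) ^ n * ((f.pre y).map (fun w => Real.posLog ‖w‖)).sum := by
        have h6 := sum_six (f.pre y) (n * (Real.log f.d - 2 * pd.L ℂ))
          (4 * Real.log 2 + 4 * (κ + C1) * (1 - 1 / (f.d : ℝ) ^ n)) (4 / (f.d : ℝ) ^ n)
          (fun w => pd.V w) (fun w => ∑ z ∈ pd.Z, a z * u z w) (fun w => Real.posLog ‖w‖)
          (fun w => Real.log (f.D w))
        rw [f.card_pre] at h6
        exact h6
      have hau : ∑ w ∈ pd.Z, (∑ z ∈ pd.Z.filter (fun z => f.app z = w), a z) / f.d * u w y =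
          (∑ z ∈ pd.Z, a z * u (f.app z) y) / f.d := by
        have h7 := Finset.sum_fiberwise_of_maps_to pd.inv (fun z => a z * u (f.app z) y / f.d)
        rw [Finset.sum_div, ← h7]
        apply Finset.sum_congr rfl
        intro w _
        rw [Finset.sum_div, Finset.sum_mul]
        apply Finset.sum_congr rfl
        intro z hz
        rw [(Finset.mem_filter.mp hz).2]; ring
      have hsu2 : ∑ z ∈ pd.Z, a z * (-κ + u (f.app z) y) =
          -(κ * (4 / (f.d : ℝ) ^ n)) + ∑ z ∈ pd.Z, a z * u (f.app z) y := by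
        rw [← ha1, Finset.mul_sum, ← Finset.sum_neg_distrib, ← Finset.sum_add_distrib]
        apply Finset.sum_congr rfl
        intro z _; ring
      have hb : 0 < 4 / (f.d : ℝ) ^ n := by positivity
      have hlogd : Real.exp (Real.log f.d) = f.d := Real.exp_log hd0
      have hfin : ((n + 1 : ℕ) : ℝ) * (Real.log f.d - 2 * pd.L ℂ) - 2 * pd.V y +
          ∑ w ∈ pd.Z, (∑ z ∈ pd.Z.filter (fun z => f.app z = w), a z) / f.d * u w y -
          4 / (f.d : ℝ) ^ (n + 1) * Real.posLog ‖y‖ -
          (4 * Real.log 2 + 4 * (κ + C1) * (1 - 1 / (f.d : ℝ) ^ (n + 1))) ≤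
          Real.log f.d + ((f.pre y).map x).sum / f.d := by
        rw [hau, hxs, hav']
        set A := ∑ z ∈ pd.Z, a z * u (f.app z) y with hA
        set B := ((f.pre y).map (fun w => ∑ z ∈ pd.Z, a z * u z w)).sum with hB
        set H := ((f.pre y).map (fun w => Real.posLog ‖w‖)).sum with hH'
        rw [hsu2] at hsu
        have k1 : 4 / (f.d : ℝ) ^ n * H ≤ 4 / (f.d : ℝ) ^ n * (Real.posLog ‖y‖ + C1) :=
          mul_le_mul_of_nonneg_left hH hb.le
        have k2 : (-(κ * (4 / (f.d : ℝ) ^ n)) + A - 4 / (f.d : ℝ) ^ n * (Real.posLog ‖y‖ + C1)) / f.d ≤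
            (B - 4 / (f.d : ℝ) ^ n * H) / f.d := by
          apply div_le_div_of_nonneg_right _ hd0.le
          linarith
        have k3 : (f.d * (n * (Real.log f.d - 2 * pd.L ℂ) -
            (4 * Real.log 2 + 4 * (κ + C1) * (1 - 1 / (f.d : ℝ) ^ n))) -
            2 * (f.d * (pd.L ℂ + pd.V y)) + B - 4 / (f.d : ℝ) ^ n * H) / f.d =
            n * (Real.log f.d - 2 * pd.L ℂ) -
            (4 * Real.log 2 + 4 * (κ + C1) * (1 - 1 / (f.d : ℝ) ^ n)) -
            2 * (pd.L ℂ + pd.V y) + (B - 4 / (f.d : ℝ) ^ n * H) / f.d := by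
          field_simp
          ring
        rw [k3]
        have k4 : (-(κ * (4 / (f.d : ℝ) ^ n)) + A - 4 / (f.d : ℝ) ^ n * (Real.posLog ‖y‖ + C1)) / f.d =
            A / f.d - 4 / (f.d : ℝ) ^ (n + 1) * Real.posLog ‖y‖ -
            4 * (κ + C1) * (1 / (f.d : ℝ) ^ (n + 1)) := by
          rw [pow_succ]; field_simp; ring
        rw [k4] at k2
        have k5 : 1 / (f.d : ℝ) ^ n = f.d * (1 / (f.d : ℝ) ^ (n + 1)) := by
          rw [pow_succ]; field_simp
        have k6 : 0 ≤ 1 / (f.d : ℝ) ^ (n + 1) := by positivity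
        have k7 : 0 ≤ 4 * (κ + C1) := by positivity
        have k8 : 4 * (κ + C1) * (2 * (1 / (f.d : ℝ) ^ (n + 1))) ≤
            4 * (κ + C1) * (1 / (f.d : ℝ) ^ n) := by
          apply mul_le_mul_of_nonneg_left _ k7
          rw [k5]
          exact mul_le_mul_of_nonneg_right hd2 k6
        push_cast
        nlinarith
      calc Real.exp _ ≤ Real.exp (Real.log f.d + ((f.pre y).map x).sum / f.d) :=
            Real.exp_le_exp.mpr hfin
        _ = f.d * Real.exp (((f.pre y).map x).sum / f.d) := by rw [Real.exp_add, hlogd]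

end

end Pool.Agent.H53.Tame
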