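import Pool.Agent.H53.Tame.Arch

/-!
The Lyapunov exponent is positive at an archimedean place.
-/

open Polynomial MeasureTheory

namespace Pool.Agent.H53.Tame

open RM

section

variable {C : Type*} [Field C] [IsAlgClosed C] [CharZero C] [Algebra C ℂ]
variable {f : RM C}

omit [IsAlgClosed C] [CharZero C] [Algebra C ℂ] in
lemma rho0_le (y : ℂ) : ENNReal.ofReal (Real.exp (-(4 * Real.posLog ‖y‖) - 4 * Real.log 2)) ≤
    ENNReal.ofReal ((1 + ‖y‖) ^ (-(4 : ℝ))) := by
  apply ENNReal.ofReal_le_ofReal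
  have h0 : 0 < 1 + ‖y‖ := by have := norm_nonneg y; linarith
  have h1 : Real.log (1 + ‖y‖) ≤ Real.log 2 + Real.posLog ‖y‖ := by
    rw [Real.posLog_eq_log_max_one (norm_nonneg _), ← Real.log_mul two_ne_zero
      (lt_max_of_lt_left one_pos).ne']
    apply Real.log_le_log h0
    have h2 := le_max_left 1 ‖y‖
    have h3 := le_max_right 1 ‖y‖
    linarith
  rw [Real.rpow_def_of_pos h0]
  apply Real.exp_le_exp.mpr
  linarith

/-- **Positivity of the Lyapunov exponent.** -/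
theorem arch_pos (pd : f.PData) : Real.log f.d ≤ 2 * pd.L ℂ := by
  classical
  obtain ⟨C1, hC1, hC⟩ := sum_posLog f
  obtain ⟨κ, hκ0, hκ⟩ : ∃ κ : ℝ, 0 ≤ κ ∧ ∀ z ∈ pd.Z,
      -κ ≤ Real.log ‖algebraMap C ℂ (f.kap z)‖ := by
    refine ⟨∑ z ∈ pd.Z, |Real.log ‖algebraMap C ℂ (f.kap z)‖|,
      Finset.sum_nonneg (fun z _ => abs_nonneg _), fun z hz => ?_⟩
    have h1 : |Real.log ‖algebraMap C ℂ (f.kap z)‖| ≤
        ∑ z ∈ pd.Z, |Real.log ‖algebraMap C ℂ (f.kap z)‖| :=
      Finset.single_le_sum (f := fun z => |Real.log ‖algebraMap C ℂ (f.kap z)‖|)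
        (fun z _ => abs_nonneg _) hz
    have h2 := neg_abs_le (Real.log ‖algebraMap C ℂ (f.kap z)‖)
    linarith
  -- the sequence
  set ρ0 : ℂ → ENNReal := fun y => ENNReal.ofReal ((1 + ‖y‖) ^ (-(4 : ℝ))) with hρ0
  have hρ0m : Measurable ρ0 := by
    apply Measurable.ennreal_ofReal
    exact (measurable_const.add measurable_norm).pow_const _
  have hρ0i : ∫⁻ y, ρ0 y < ⊤ := by
    have h1 : Integrable (fun y : ℂ => (1 + ‖y‖) ^ (-(4 : ℝ))) := by
      apply integrable_one_add_norm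
      rw [Complex.finrank_real_complex]
      norm_num
    have h2 := h1.lintegral_lt_top
    exact h2
  choose! T hT1 hT2 hT3 using fun (ρ : {ρ : ℂ → ENNReal // Measurable ρ}) => exists_rho pd ρ.2
  let S : ℕ → {ρ : ℂ → ENNReal // Measurable ρ} := fun n =>
    Nat.rec ⟨ρ0, hρ0m⟩ (fun _ ρ => ⟨T ρ, hT1 ρ⟩) n
  set ρ : ℕ → ℂ → ENNReal := fun n => (S n).1 with hρ
  have hint : ∀ n, ∫⁻ y, ρ n y ≤ ∫⁻ y, ρ0 y := by
    intro n
    induction n with
    | zero => exact le_rfl
    | succ n ih => exact le_trans (hT2 (S n)) ih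
  have hgrow := fun n => growth pd hC1 hκ0 hC hκ ρ rho0_le (fun n y hy => hT3 (S n) y hy) n
  -- a disc which avoids the invariant set
  obtain ⟨y0, ε, hε, hε1⟩ : ∃ (y0 : ℂ) (ε : ℝ), 0 < ε ∧ ∀ y ∈ Metric.ball y0 ε, ∀ z : C,
      (z : OnePoint C) ∈ pd.Z → ε ≤ ‖y - algebraMap C ℂ z‖ := by
    have hfin : (((fun z : OnePoint C => z.elim (0 : ℂ) (fun z => algebraMap C ℂ z)) ''
        (pd.Z : Set (OnePoint C)))).Finite := pd.Z.finite_toSet.image _
    obtain ⟨y0, hy0⟩ := hfin.exists_notMem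
    have hopen := hfin.isClosed.isOpen_compl
    obtain ⟨δ, hδ, hδ1⟩ := Metric.isOpen_iff.mp hopen y0 hy0
    refine ⟨y0, δ / 2, by linarith, fun y hy z hz => ?_⟩
    by_contra h1
    push Not at h1
    rw [Metric.mem_ball] at hy
    have h2 : algebraMap C ℂ z ∈ Metric.ball y0 δ := by
      rw [Metric.mem_ball]
      have h3 := dist_triangle (algebraMap C ℂ z) y y0
      have h4 : dist (algebraMap C ℂ z) y < δ / 2 := by
        rw [dist_comm, dist_eq_norm]; exact h1
      linarith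
    exact hδ1 h2 ⟨(z : OnePoint C), hz, rfl⟩
  have hout : ∀ y ∈ Metric.ball y0 ε, pd.Out y := by
    intro y hy z hz h1
    have := hε1 y hy z hz
    rw [h1, sub_self, norm_zero] at this
    linarith
  obtain ⟨R, hR1, hR⟩ : ∃ R : ℝ, 1 ≤ R ∧ ∀ y ∈ Metric.ball y0 ε, ‖y‖ ≤ R ∧ ∀ z : C,
      (z : OnePoint C) ∈ pd.Z → ‖y - algebraMap C ℂ z‖ ≤ R := by
    refine ⟨1 + ‖y0‖ + ε + ∑ z ∈ pd.Z, ‖(z.elim (0 : ℂ) (fun z => algebraMap C ℂ z) : ℂ)‖, ?_,
      fun y hy => ?_⟩
    · have h1 := norm_nonneg y0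
      have h2 : 0 ≤ ∑ z ∈ pd.Z, ‖(z.elim (0 : ℂ) (fun z => algebraMap C ℂ z) : ℂ)‖ :=
        Finset.sum_nonneg (fun z _ => norm_nonneg _)
      linarith
    · rw [Metric.mem_ball, dist_eq_norm] at hy
      have h1 : ‖y‖ ≤ ‖y - y0‖ + ‖y0‖ := by
        have := norm_add_le (y - y0) y0
        rwa [sub_add_cancel] at this
      have h2 : 0 ≤ ∑ z ∈ pd.Z, ‖(z.elim (0 : ℂ) (fun z => algebraMap C ℂ z) : ℂ)‖ :=
        Finset.sum_nonneg (fun z _ => norm_nonneg _)
      refine ⟨by linarith, fun z hz => ?_⟩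
      have h3 : ‖algebraMap C ℂ z‖ ≤
          ∑ z ∈ pd.Z, ‖(z.elim (0 : ℂ) (fun z => algebraMap C ℂ z) : ℂ)‖ :=
        Finset.single_le_sum
          (f := fun z : OnePoint C => ‖(z.elim (0 : ℂ) (fun z => algebraMap C ℂ z) : ℂ)‖)
          (fun z _ => norm_nonneg _) hz
      have h4 := norm_sub_le y (algebraMap C ℂ z)
      linarith
  have hd2 : (2 : ℝ) ≤ f.d := by
    have := f.two_le_d
    exact_mod_cast this
  have hd0 : (0 : ℝ) < f.d := by linarith
  have hlogR : 0 ≤ Real.log R := Real.log_nonneg hR1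
  -- the constant
  obtain ⟨K, hK⟩ : ∃ K : ℝ, ∀ n : ℕ, ∀ y ∈ Metric.ball y0 ε,
      ENNReal.ofReal (Real.exp (n * (Real.log f.d - 2 * pd.L ℂ) - K)) ≤ ρ n y := by
    refine ⟨2 * (2 * Real.log R) + 4 * |Real.log ε| + 4 * Real.log R + (4 * Real.log 2 + 4 * (κ + C1)),
      fun n y hy => ?_⟩
    obtain ⟨a, ha0, ha1, ha2⟩ := hgrow n
    refine le_trans ?_ (ha2 y (hout y hy))
    apply ENNReal.ofReal_le_ofReal
    apply Real.exp_le_exp.mpr
    obtain ⟨hy1, hy2⟩ := hR y hy
    have hpow : (1 : ℝ) ≤ (f.d : ℝ) ^ n := one_le_pow₀ (by linarith)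
    have h4n : 4 / (f.d : ℝ) ^ n ≤ 4 := div_le_self (by norm_num) hpow
    have h4n0 : 0 ≤ 4 / (f.d : ℝ) ^ n := by positivity
    have hu1 : ∀ z ∈ pd.Z, u z y ≤ Real.log R := by
      intro z hz
      induction z using OnePoint.rec with
      | infty => rw [u_infty]; exact hlogR
      | coe z =>
        rw [u_coe]
        exact Real.log_le_log (lt_of_lt_of_le hε (hε1 y hy z hz)) (hy2 z hz)
    have hu2 : ∀ z ∈ pd.Z, -|Real.log ε| ≤ u z y := by
      intro z hz
      induction z using OnePoint.rec with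
      | infty => rw [u_infty]; have := abs_nonneg (Real.log ε); linarith
      | coe z =>
        rw [u_coe]
        have h1 := Real.log_le_log hε (hε1 y hy z hz)
        have h2 := neg_abs_le (Real.log ε)
        linarith
    have hV : pd.V y ≤ 2 * Real.log R := by
      unfold PData.V
      rw [← pd.vsum, Finset.sum_mul]
      apply Finset.sum_le_sum
      intro z hz
      exact mul_le_mul_of_nonneg_left (hu1 z hz) (pd.v0 z)
    have hau : -(4 * |Real.log ε|) ≤ ∑ z ∈ pd.Z, a z * u z y := by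
      have h1 : ∑ z ∈ pd.Z, a z * (-|Real.log ε|) ≤ ∑ z ∈ pd.Z, a z * u z y := by
        apply Finset.sum_le_sum
        intro z hz
        exact mul_le_mul_of_nonneg_left (hu2 z hz) (ha0 z)
      rw [← Finset.sum_mul, ha1] at h1
      have h2 := abs_nonneg (Real.log ε)
      nlinarith
    have hH : 4 / (f.d : ℝ) ^ n * Real.posLog ‖y‖ ≤ 4 * Real.log R := by
      have h1 : Real.posLog ‖y‖ ≤ Real.log R := by
        rw [Real.posLog_eq_log_max_one (norm_nonneg _)]
        exact Real.log_le_log (lt_max_of_lt_left one_pos) (max_le hR1 hy1)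
      exact mul_le_mul h4n h1 Real.posLog_nonneg (by norm_num)
    have hc : 4 * (κ + C1) * (1 - 1 / (f.d : ℝ) ^ n) ≤ 4 * (κ + C1) := by
      have h1 : 0 ≤ 1 / (f.d : ℝ) ^ n := by positivity
      have h2 : 0 ≤ 4 * (κ + C1) := by positivity
      nlinarith
    linarith
  -- the contradiction
  by_contra hcon
  push Not at hcon
  set x := Real.log f.d - 2 * pd.L ℂ with hx
  have hx0 : 0 < x := by rw [hx]; linarith
  set I := ∫⁻ y, ρ0 y with hI
  set v := volume (Metric.ball y0 ε) with hv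
  have hv0 : 0 < v := Metric.measure_ball_pos _ _ hε
  have hvt : v < ⊤ := measure_ball_lt_top
  have hmain : ∀ n : ℕ, ENNReal.ofReal (Real.exp (n * x - K)) * v ≤ I := by
    intro n
    refine le_trans ?_ (hint n)
    calc ENNReal.ofReal (Real.exp (n * x - K)) * v
        = ∫⁻ y in Metric.ball y0 ε, ENNReal.ofReal (Real.exp (n * x - K)) := by
          rw [setLIntegral_const]
      _ ≤ ∫⁻ y in Metric.ball y0 ε, ρ n y := by
          apply setLIntegral_mono' Metric.isOpen_ball.measurableSet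
          intro y hy
          exact hK n y hy
      _ ≤ _ := setLIntegral_le_lintegral _ _
  have hreal : ∀ n : ℕ, Real.exp (n * x - K) * v.toReal ≤ I.toReal := by
    intro n
    have h1 := ENNReal.toReal_mono hρ0i.ne (hmain n)
    rwa [ENNReal.toReal_mul, ENNReal.toReal_ofReal (Real.exp_pos _).le] at h1
  have hvr : 0 < v.toReal := ENNReal.toReal_pos hv0.ne' hvt.ne
  obtain ⟨n, hn⟩ := exists_nat_gt ((I.toReal / v.toReal + K) / x)
  rw [div_lt_iff₀ hx0] at hn
  have h1 := hreal n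
  have h2 := Real.add_one_le_exp (n * x - K)
  have h3 : I.toReal / v.toReal < Real.exp (n * x - K) := by linarith
  rw [div_lt_iff₀ hvr] at h3
  linarith

end

end Pool.Agent.H53.Tame
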