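import Pool.Agent.H53.Tame.Local

/-!
The first state, and the local contradiction.
-/

open Polynomial MeasureTheory

namespace Pool.Agent.H53.Tame

section

variable {C : Type*} [Field C] {Ω : Type*} [NormedField Ω] [IsUltrametricDist Ω] [Algebra C Ω]
variable [IsAlgClosed C]

/-- the first generic point -/
lemma exists_base {β σ ω : C} (h1 : β ≠ σ) (h2 : β ≠ ω) (h3 : σ ≠ ω) {t : Ω} (ht : RT C t) :
    ∃ (y : Ω) (r : ℝ), HR C y r ∧ E y r β σ = 1 ∧ E y r β ω = 1 ∧ E y r σ ω = 1 := by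
  have k1 : algebraMap C Ω β - algebraMap C Ω σ ≠ 0 := by
    rw [← map_sub, Ne, map_eq_zero, sub_eq_zero]; exact h1
  have k1' : algebraMap C Ω σ - algebraMap C Ω β ≠ 0 := by
    rw [← map_sub, Ne, map_eq_zero, sub_eq_zero]; exact h1.symm
  have k2 : algebraMap C Ω β - algebraMap C Ω ω ≠ 0 := by
    rw [← map_sub, Ne, map_eq_zero, sub_eq_zero]; exact h2
  have k3 : algebraMap C Ω σ - algebraMap C Ω ω ≠ 0 := by
    rw [← map_sub, Ne, map_eq_zero, sub_eq_zero]; exact h3
  have c1 : σ - β ≠ 0 := sub_ne_zero.mpr h1.symm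
  have c2 : β - ω ≠ 0 := sub_ne_zero.mpr h2
  have c3 : σ - ω ≠ 0 := sub_ne_zero.mpr h3
  have hden : (algebraMap C Ω σ - algebraMap C Ω ω) - t * (algebraMap C Ω σ - algebraMap C Ω β) ≠ 0 := by
    intro h0
    apply ht.ne ((σ - ω) / (σ - β))
    rw [map_div₀, map_sub, map_sub, eq_div_iff k1']
    exact (sub_eq_zero.mp h0).symm
  have ht0 : t ≠ 0 := by
    have := ht.ne 0
    rwa [map_zero] at this
  have ht1 : t - 1 ≠ 0 := by
    have := ht.ne 1
    rw [map_one] at this
    exact sub_ne_zero.mpr this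
  set y : Ω := ((algebraMap C Ω σ - algebraMap C Ω ω) * algebraMap C Ω β -
    t * algebraMap C Ω ω * (algebraMap C Ω σ - algebraMap C Ω β)) /
    ((algebraMap C Ω σ - algebraMap C Ω ω) - t * (algebraMap C Ω σ - algebraMap C Ω β)) with hy
  have y1 : y - algebraMap C Ω β = t * (algebraMap C Ω β - algebraMap C Ω ω) *
      (algebraMap C Ω σ - algebraMap C Ω β) /
      ((algebraMap C Ω σ - algebraMap C Ω ω) - t * (algebraMap C Ω σ - algebraMap C Ω β)) := by
    rw [hy]; field_simp; ring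
  have y2 : y - algebraMap C Ω ω = (algebraMap C Ω σ - algebraMap C Ω ω) *
      (algebraMap C Ω β - algebraMap C Ω ω) /
      ((algebraMap C Ω σ - algebraMap C Ω ω) - t * (algebraMap C Ω σ - algebraMap C Ω β)) := by
    rw [hy]; field_simp; ring
  have yb : y - algebraMap C Ω β ≠ 0 := by
    rw [y1]; exact div_ne_zero (mul_ne_zero (mul_ne_zero ht0 k2) k1') hden
  have yw : y - algebraMap C Ω ω ≠ 0 := by
    rw [y2]; exact div_ne_zero (mul_ne_zero k3 k2) hden
  have htm : algebraMap C Ω ((σ - ω) / (σ - β)) * (y - algebraMap C Ω β) /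
      (y - algebraMap C Ω ω) = t := by
    rw [y1, y2, map_div₀, map_sub, map_sub]
    clear y1 y2 hy
    generalize (algebraMap C Ω σ - algebraMap C Ω ω) - t * (algebraMap C Ω σ - algebraMap C Ω β) = Dn
      at hden ⊢
    field_simp
  have htm1 : algebraMap C Ω ((β - ω) / (σ - β)) * (y - algebraMap C Ω σ) /
      (y - algebraMap C Ω ω) = t - 1 := by
    rw [← htm, map_div₀, map_div₀, map_sub, map_sub, map_sub]; field_simp; ring
  have ys : y - algebraMap C Ω σ ≠ 0 := by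
    intro h0
    rw [h0] at htm1
    apply ht1
    rw [← htm1]; simp
  have hA : (((X - Polynomial.C β : C[X])).map (algebraMap C Ω)).eval y = y - algebraMap C Ω β := by
    simp
  have hD : (((X - Polynomial.C ω : C[X])).map (algebraMap C Ω)).eval y = y - algebraMap C Ω ω := by
    simp
  obtain ⟨r, hr⟩ := exists_HR (A := X - Polynomial.C β) (D := X - Polynomial.C ω)
    (μ := (σ - ω) / (σ - β)) (y := y) (by rw [hA]; exact yb) (by rw [hD]; exact yw)
    (by rw [hA, hD, htm]; exact ht)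
  -- separation
  have s2 : E y r β ω = 1 := by
    apply le_antisymm (E_le_one hr _ _)
    by_contra h0
    push Not at h0
    obtain ⟨l, hl, hn⟩ := ratio_near hr h0
    apply ht.not_near 0 ((σ - ω) / (σ - β) * l) (by simp)
    rw [map_zero, sub_zero, ← htm, map_mul, mul_div_assoc]
    apply near.mul _ hn
    apply near_refl
    rw [Ne, map_eq_zero]; exact div_ne_zero c3 c1
  have s3 : E y r σ ω = 1 := by
    apply le_antisymm (E_le_one hr _ _)
    by_contra h0
    push Not at h0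
    obtain ⟨l, hl, hn⟩ := ratio_near hr h0
    apply ht.not_near 1 ((β - ω) / (σ - β) * l) (by simp)
    rw [map_one, ← htm1, map_mul, mul_div_assoc]
    apply near.mul _ hn
    apply near_refl
    rw [Ne, map_eq_zero]; exact div_ne_zero c2 c1
  have s1 : E y r β σ = 1 := by
    apply le_antisymm (E_le_one hr _ _)
    by_contra h0
    push Not at h0
    obtain ⟨l, hl, hn⟩ := ratio_near hr h0
    have hn2 : near t (algebraMap C Ω ((σ - ω) / (β - ω) * l) * (t - 1)) := by
      have e : t = (algebraMap C Ω ((σ - ω) / (β - ω)) *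
          ((y - algebraMap C Ω β) / (y - algebraMap C Ω σ))) * (t - 1) := by
        conv_lhs => rw [← htm]
        rw [← htm1, map_div₀, map_div₀, map_div₀, map_sub, map_sub, map_sub]
        field_simp
      conv_lhs => rw [e]
      rw [map_mul]
      apply near.mul _ (near_refl ht1)
      apply near.mul _ hn
      apply near_refl
      rw [Ne, map_eq_zero]; exact div_ne_zero c3 c2
    set l' := (σ - ω) / (β - ω) * l with hl'
    have n1 : ‖t - 1‖ = 1 := by
      have := ht 1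
      rw [map_one] at this
      rw [this]; simp
    have n2 : ‖algebraMap C Ω l'‖ = 1 := by
      have := hn2.norm_eq
      rw [ht.norm, norm_mul, n1, mul_one] at this
      exact this.symm
    unfold near at hn2
    rw [norm_mul, n1, mul_one, n2] at hn2
    by_cases h5 : l' = 1
    · rw [h5, map_one] at hn2
      have : t - 1 * (t - 1) = 1 := by ring
      rw [this, norm_one] at hn2
      exact lt_irrefl _ hn2
    · have h6 : 1 - l' ≠ 0 := sub_ne_zero.mpr (Ne.symm h5)
      have h6' : 0 < ‖algebraMap C Ω (1 - l')‖ := by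
        rw [norm_pos_iff, Ne, map_eq_zero]; exact h6
      have h6'' : (1 : Ω) - algebraMap C Ω l' ≠ 0 := by
        rw [← map_one (algebraMap C Ω), ← map_sub, Ne, map_eq_zero]; exact h6
      have e : t - algebraMap C Ω l' * (t - 1) = algebraMap C Ω (1 - l') *
          (t - algebraMap C Ω (-(l' / (1 - l')))) := by
        rw [map_neg, map_div₀, map_sub, map_one]; field_simp; ring
      rw [e, norm_mul, ht, map_neg, norm_neg, map_div₀, norm_div, n2] at hn2
      have h7 := le_max_right 1 (1 / ‖algebraMap C Ω (1 - l')‖)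
      have h8 : ‖algebraMap C Ω (1 - l')‖ * (1 / ‖algebraMap C Ω (1 - l')‖) ≤
          ‖algebraMap C Ω (1 - l')‖ * max 1 (1 / ‖algebraMap C Ω (1 - l')‖) :=
        mul_le_mul_of_nonneg_left h7 h6'.le
      rw [mul_one_div_cancel h6'.ne'] at h8
      linarith
  exact ⟨y, r, hr, s1, s2, s3⟩

omit [IsAlgClosed C] in
/-- the distance to a marked point is a cross ratio -/
lemma E_cross {y : Ω} {r : ℝ} (h : HR C y r) {β σ ω τ : C} (h1 : E y r β σ = 1)
    (h2 : E y r β ω = 1) (h3 : E y r σ ω = 1) (hτ : E y r β τ < 1) :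
    ‖algebraMap C Ω ((σ - ω) * (τ - β) / ((σ - β) * (τ - ω)))‖ = E y r β τ := by
  have hr := h.pos
  have hβ := h.norm_pos β
  have hσ := h.norm_pos σ
  have hω := h.norm_pos ω
  have hτ' := h.norm_pos τ
  have h4 : E y r τ ω = 1 := E_eq_one_of_lt h hτ h2
  have e1 := (E_one_iff h β σ).mp h1
  have e3 := (E_one_iff h σ ω).mp h3
  have e4 := (E_one_iff h τ ω).mp h4
  have hs : ∀ a b : C, ‖algebraMap C Ω (a - b)‖ = ‖algebraMap C Ω (b - a)‖ := by
    intro a b; rw [map_sub, map_sub, norm_sub_rev]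
  have f1 : ‖algebraMap C Ω (σ - β)‖ = ‖y - algebraMap C Ω β‖ * ‖y - algebraMap C Ω σ‖ / r := by
    rw [hs, ← e1]; field_simp
  have f3 : ‖algebraMap C Ω (σ - ω)‖ = ‖y - algebraMap C Ω σ‖ * ‖y - algebraMap C Ω ω‖ / r := by
    rw [← e3]; field_simp
  have f4 : ‖algebraMap C Ω (τ - ω)‖ = ‖y - algebraMap C Ω τ‖ * ‖y - algebraMap C Ω ω‖ / r := by
    rw [← e4]; field_simp
  rw [map_div₀, norm_div, map_mul, map_mul, norm_mul, norm_mul, f1, f3, f4, hs τ β]
  unfold E
  field_simp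

end

section

variable {C : Type*} [Field C] {Ω : Type*} [NormedField Ω] [IsUltrametricDist Ω] [Algebra C Ω]
variable [IsAlgClosed C] [CharZero C] [IsAlgClosed Ω]

/-- **The local contradiction.** -/
theorem local_contradiction {f : RM C} (pd : f.PData) (hdn : DN C Ω) (hL : pd.L Ω < 0)
    {S : Set C} (hback : ∀ z ∈ S, ∀ w ∈ (f.fib z).roots, w ∈ S)
    (hnd : ∀ z ∈ S, (f.fib z).roots.Nodup)
    {β σ ω : C} (hβ : β ∈ S) (hσ : σ ∈ S) (hω : ω ∈ S) (h1 : β ≠ σ) (h2 : β ≠ ω) (h3 : σ ≠ ω)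
    {t : Ω} (ht : RT C t)
    {p : ℕ} (hp2 : 2 ≤ p) (hp : ∀ m : ℕ, ¬ p ∣ m → ‖(m : Ω)‖ = 1) (Γ : AddSubgroup ℝ)
    (hΓ : ∀ x : ℝ, (∀ k : ℕ, ∃ g ∈ Γ, x = (p : ℝ) ^ k * g) → x = 0)
    (hCR : ∀ β ∈ S, ∀ σ ∈ S, ∀ ω ∈ S, ∀ τ ∈ S, β ≠ σ → β ≠ ω → σ ≠ ω → τ ≠ β → τ ≠ σ → τ ≠ ω →
      Real.log ‖algebraMap C Ω ((σ - ω) * (τ - β) / ((σ - β) * (τ - ω)))‖ ∈ Γ) : False := by
  classical
  have hΓ0 : ∀ (a : St S Ω) (τ : C), Mk a τ → ell a τ ∈ Γ := by
    intro a τ hτ
    unfold ell
    rw [← E_cross a.h a.e1 a.e2 a.e3 hτ.2.2]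
    apply Γ.neg_mem
    obtain ⟨n1, n2, n3⟩ := a.ne
    refine hCR _ a.hβ _ a.hσ _ a.hω _ hτ.1 n1 n2 n3 hτ.2.1.symm ?_ ?_
    · rintro rfl
      have := hτ.2.2
      rw [a.e1] at this; exact lt_irrefl _ this
    · rintro rfl
      have := hτ.2.2
      rw [a.e2] at this; exact lt_irrefl _ this
  obtain ⟨y, r, hr, s1, s2, s3⟩ := exists_base (Ω := Ω) h1 h2 h3 ht
  let a0 : St S Ω := ⟨y, r, β, σ, ω, hr, hβ, hσ, hω, s1, s2, s3⟩
  choose g hg using fun a : St S Ω => exists_next pd hdn hback a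
  let s : ℕ → St S Ω := fun n => Nat.rec a0 (fun _ x => g x) n
  have hs : ∀ n, Nx pd (s n) (s (n + 1)) := fun n => hg (s n)
  -- a good index
  obtain ⟨i, hi⟩ : ∃ i, 0 < wt f (s i) (s (i + 1)) := by
    by_contra hno
    push Not at hno
    obtain ⟨B, hB⟩ := V_lower (Ω := Ω) pd
    obtain ⟨n, hn⟩ := exists_nat_gt (((pd.V (s 0).y - Real.log (s 0).r) - B) / (-pd.L Ω))
    rw [div_lt_iff₀ (by linarith)] at hn
    have h4 := sum_wt pd s hs n
    have h5 := hB _ _ (s n).h
    have h6 : ∑ i ∈ Finset.range n, wt f (s i) (s (i + 1)) ≤ 0 :=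
      Finset.sum_nonpos (fun i _ => hno i)
    have h7 : (2 * (f.d : ℝ)) * ∑ i ∈ Finset.range n, wt f (s i) (s (i + 1)) ≤ 0 :=
      mul_nonpos_of_nonneg_of_nonpos (by positivity) h6
    linarith
  have h4 := two_le_of_wt pd hdn hp2 hp (hs i) (x := 1) (u := 0) (by simp) le_rfl hi
  -- a marked point
  set b := s (i + 1) with hb
  obtain ⟨τ, hτ⟩ : ∃ τ, Mk b τ := by
    have h5 : 2 ≤ ((f.fib (s i).β).roots.filter (fun c => E b.y b.r b.β c < 1)).card := by
      have : cnt b.y b.r (f.fib (s i).β) b.β 1 =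
        ((f.fib (s i).β).roots.filter (fun c => E b.y b.r b.β c < 1)).card := rfl
      omega
    have h6 : ((f.fib (s i).β).roots.filter (fun c => E b.y b.r b.β c < 1)).Nodup :=
      (hnd _ (s i).hβ).filter _
    have h7 : b.β ∈ ((f.fib (s i).β).roots.filter (fun c => E b.y b.r b.β c < 1)) := by
      rw [Multiset.mem_filter]
      exact ⟨(hs i).2.1, by simp⟩
    have h8 : 0 < (((f.fib (s i).β).roots.filter (fun c => E b.y b.r b.β c < 1)).erase b.β).card := by
      rw [Multiset.card_erase_of_mem h7, Nat.pred_eq_sub_one]; omega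
    obtain ⟨τ, hτ⟩ := Multiset.card_pos_iff_exists_mem.mp h8
    have h9 := (Multiset.Nodup.mem_erase_iff h6).mp hτ
    rw [Multiset.mem_filter] at h9
    exact ⟨τ, hback _ (s i).hβ _ h9.2.1, h9.1.symm, h9.2.2⟩
  exact chain_contradiction pd hdn hL hback hp2 hp Γ hΓ hΓ0 (fun n => s (i + 1 + n))
    (fun n => hs (i + 1 + n)) τ hτ

end

end Pool.Agent.H53.Tame
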