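import Mathlib

/-!
Rational maps `P / Q` fixing `∞` over a field.
-/

open Polynomial

namespace Pool.Agent.H53.Tame

/-- A rational map `P / Q` of degree at least two which fixes `∞`. -/
structure RM (C : Type*) [Field C] where
  P : C[X]
  Q : C[X]
  cop : IsCoprime P Q
  lt : Q.natDegree < P.natDegree
  two : 2 ≤ P.natDegree

namespace RM

variable {C : Type*} [Field C] (f : RM C)

/-- the degree -/
def d : ℕ := f.P.natDegree

lemma two_le_d : 2 ≤ f.d := f.two

lemma Q_ne : f.Q ≠ 0 := by
  intro h
  have h1 := f.cop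
  rw [h, isCoprime_zero_right] at h1
  have h2 := natDegree_eq_zero_of_isUnit h1
  have h3 := f.two
  omega

lemma P_ne : f.P ≠ 0 := by
  intro h
  have := f.two
  rw [h] at this
  simp at this

open Classical in
/-- the map on the projective line -/
noncomputable def app (x : OnePoint C) : OnePoint C :=
  x.elim OnePoint.infty
    (fun z => if f.Q.eval z = 0 then OnePoint.infty else ((f.P.eval z / f.Q.eval z : C) : OnePoint C))

@[simp] lemma app_infty : f.app OnePoint.infty = OnePoint.infty := rfl

lemma app_of_pole {z : C} (h : f.Q.eval z = 0) : f.app (z : OnePoint C) = OnePoint.infty :=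
  if_pos h

lemma app_of_ne {z : C} (h : f.Q.eval z ≠ 0) :
    f.app (z : OnePoint C) = ((f.P.eval z / f.Q.eval z : C) : OnePoint C) :=
  if_neg h

/-- the polynomial whose roots are the preimages of `z` -/
noncomputable def fib (z : C) : C[X] := f.P - Polynomial.C z * f.Q

lemma fib_eval (z w : C) : (f.fib z).eval w = f.P.eval w - z * f.Q.eval w := by
  simp [fib]

lemma CQ_lt (z : C) : (Polynomial.C z * f.Q).natDegree < f.P.natDegree :=
  lt_of_le_of_lt (natDegree_C_mul_le z f.Q) f.lt

lemma fib_natDegree (z : C) : (f.fib z).natDegree = f.d := by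
  unfold fib d
  exact natDegree_sub_eq_left_of_natDegree_lt (f.CQ_lt z)

lemma fib_leadingCoeff (z : C) : (f.fib z).leadingCoeff = f.P.leadingCoeff := by
  unfold fib
  have h := degree_lt_degree (f.CQ_lt z)
  exact leadingCoeff_sub_of_degree_lt h

lemma fib_ne (z : C) : f.fib z ≠ 0 := by
  intro h
  have h1 := f.fib_natDegree z
  have h2 := f.two_le_d
  rw [h] at h1
  simp at h1
  omega

lemma Q_ne_of_P {w z : C} (h : f.P.eval w = z * f.Q.eval w) : f.Q.eval w ≠ 0 := by
  intro h0
  obtain ⟨a, b, hab⟩ := f.cop
  have := congrArg (Polynomial.eval w) hab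
  rw [eval_add, eval_mul, eval_mul, h, h0] at this
  simp at this

lemma P_ne_of_Q {w : C} (h : f.Q.eval w = 0) : f.P.eval w ≠ 0 := by
  intro h0
  obtain ⟨a, b, hab⟩ := f.cop
  have := congrArg (Polynomial.eval w) hab
  rw [eval_add, eval_mul, eval_mul, h, h0] at this
  simp at this

lemma mem_fib_roots {z w : C} : w ∈ (f.fib z).roots ↔ f.P.eval w = z * f.Q.eval w := by
  rw [mem_roots (f.fib_ne z), IsRoot.def, fib_eval, sub_eq_zero]

lemma app_eq_coe_iff {z w : C} : f.app (w : OnePoint C) = (z : OnePoint C) ↔
    w ∈ (f.fib z).roots := by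
  rw [mem_fib_roots]
  by_cases h : f.Q.eval w = 0
  · rw [f.app_of_pole h]
    constructor
    · intro h1; exact absurd h1.symm (OnePoint.coe_ne_infty z)
    · intro h1; exact absurd h (f.Q_ne_of_P h1)
  · rw [f.app_of_ne h, OnePoint.coe_eq_coe, div_eq_iff h]

lemma app_eq_infty_iff {w : C} : f.app (w : OnePoint C) = OnePoint.infty ↔ w ∈ f.Q.roots := by
  rw [mem_roots f.Q_ne, IsRoot.def]
  by_cases h : f.Q.eval w = 0
  · simp [f.app_of_pole h, h]
  · rw [f.app_of_ne h]
    simp [h, OnePoint.coe_ne_infty]

lemma card_fib_roots [IsAlgClosed C] (z : C) : (f.fib z).roots.card = f.d := by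
  rw [IsAlgClosed.card_roots_eq_natDegree, fib_natDegree]

/-- the Wronskian, whose roots are the finite critical points -/
noncomputable def W : C[X] := derivative f.P * f.Q - f.P * derivative f.Q

lemma W_coeff [CharZero C] : f.W.coeff (f.d + f.Q.natDegree - 1) =
    ((f.d : C) - f.Q.natDegree) * f.P.leadingCoeff * f.Q.leadingCoeff := by
  unfold W d
  have hd : 2 ≤ f.P.natDegree := f.two
  have hlt := f.lt
  have hp : (derivative f.P).coeff (f.P.natDegree - 1) = f.P.natDegree * f.P.leadingCoeff := by
    rw [coeff_derivative]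
    have : f.P.natDegree - 1 + 1 = f.P.natDegree := by omega
    rw [this, coeff_natDegree]
    have : ((f.P.natDegree - 1 : ℕ) : C) + 1 = f.P.natDegree := by
      rw [← Nat.cast_succ]
      congr 1
    rw [this]; ring
  have h1 : (derivative f.P * f.Q).coeff (f.P.natDegree + f.Q.natDegree - 1) =
      f.P.natDegree * f.P.leadingCoeff * f.Q.leadingCoeff := by
    have e : f.P.natDegree + f.Q.natDegree - 1 = (f.P.natDegree - 1) + f.Q.natDegree := by omega
    rw [e, coeff_mul_add_eq_of_natDegree_le (natDegree_derivative_le f.P) le_rfl, hp, coeff_natDegree]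
  have h2 : (f.P * derivative f.Q).coeff (f.P.natDegree + f.Q.natDegree - 1) =
      f.Q.natDegree * f.P.leadingCoeff * f.Q.leadingCoeff := by
    rcases Nat.eq_zero_or_pos f.Q.natDegree with h0 | h0
    · have : derivative f.Q = 0 := by
        rw [eq_C_of_natDegree_eq_zero h0]; simp
      rw [this, h0]; simp
    · have e : f.P.natDegree + f.Q.natDegree - 1 = f.P.natDegree + (f.Q.natDegree - 1) := by omega
      have hq : (derivative f.Q).coeff (f.Q.natDegree - 1) = f.Q.natDegree * f.Q.leadingCoeff := by
        rw [coeff_derivative]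
        have : f.Q.natDegree - 1 + 1 = f.Q.natDegree := by omega
        rw [this, coeff_natDegree]
        have : ((f.Q.natDegree - 1 : ℕ) : C) + 1 = f.Q.natDegree := by
          rw [← Nat.cast_succ]
          congr 1
        rw [this]; ring
      rw [e, coeff_mul_add_eq_of_natDegree_le le_rfl (natDegree_derivative_le f.Q), hq, coeff_natDegree]
      ring
  rw [coeff_sub, h1, h2]; ring

lemma W_ne [CharZero C] : f.W ≠ 0 := by
  intro h
  have h1 := f.W_coeff
  rw [h, coeff_zero] at h1
  have h2 : (f.d : C) - f.Q.natDegree ≠ 0 := by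
    rw [sub_ne_zero]
    intro h3
    have h4 : f.d = f.Q.natDegree := by exact_mod_cast h3
    have h5 := f.lt
    unfold d at h4
    omega
  have h3 : f.P.leadingCoeff ≠ 0 := leadingCoeff_ne_zero.mpr f.P_ne
  have h4 : f.Q.leadingCoeff ≠ 0 := leadingCoeff_ne_zero.mpr f.Q_ne
  exact (mul_ne_zero (mul_ne_zero h2 h3) h4) h1.symm

lemma W_natDegree [CharZero C] : f.W.natDegree = f.d + f.Q.natDegree - 1 := by
  apply le_antisymm
  · unfold W d
    have h1 : (derivative f.P * f.Q).natDegree ≤ f.P.natDegree + f.Q.natDegree - 1 := by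
      refine le_trans natDegree_mul_le ?_
      have := natDegree_derivative_le f.P
      have := f.two
      omega
    have h2 : (f.P * derivative f.Q).natDegree ≤ f.P.natDegree + f.Q.natDegree - 1 := by
      rcases Nat.eq_zero_or_pos f.Q.natDegree with h0 | h0
      · have : derivative f.Q = 0 := by
          rw [eq_C_of_natDegree_eq_zero h0]; simp
        rw [this]; simp
      · refine le_trans natDegree_mul_le ?_
        have := natDegree_derivative_le f.Q
        omega
    exact le_trans (natDegree_sub_le _ _) (max_le h1 h2)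
  · apply le_natDegree_of_ne_zero
    rw [W_coeff]
    have h2 : (f.d : C) - f.Q.natDegree ≠ 0 := by
      rw [sub_ne_zero]
      intro h3
      have h4 : f.d = f.Q.natDegree := by exact_mod_cast h3
      have h5 := f.lt
      unfold d at h4
      omega
    exact mul_ne_zero (mul_ne_zero h2 (leadingCoeff_ne_zero.mpr f.P_ne))
      (leadingCoeff_ne_zero.mpr f.Q_ne)

/-- multiplicities of the Wronskian of coprime polynomials -/
lemma wronskian_rootMultiplicity [CharZero C] {A B : C[X]} (hA : A ≠ 0) (hW : derivative A * B - A * derivative B ≠ 0)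
    {c : C} (hAc : A.eval c = 0) (hBc : B.eval c ≠ 0) :
    (derivative A * B - A * derivative B).rootMultiplicity c + 1 = A.rootMultiplicity c := by
  have hroot : A.IsRoot c := hAc
  have hpos : 0 < A.rootMultiplicity c := (rootMultiplicity_pos hA).mpr hroot
  obtain ⟨R, hR, hRc⟩ := exists_eq_pow_rootMultiplicity_mul_and_not_dvd A hA c
  set m := A.rootMultiplicity c with hm
  have hRc' : R.eval c ≠ 0 := by
    intro h; exact hRc (dvd_iff_isRoot.mpr h)
  obtain ⟨k, hk⟩ : ∃ k, m = k + 1 := ⟨m - 1, by omega⟩
  have hfac : derivative A * B - A * derivative B =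
      (X - Polynomial.C c) ^ k * (Polynomial.C ((k : C) + 1) * R * B + (X - Polynomial.C c) *
        (derivative R * B - R * derivative B)) := by
    rw [hR, hk]
    rw [derivative_mul, derivative_pow]
    simp only [derivative_sub, derivative_X, derivative_C, sub_zero, mul_one]
    simp only [Nat.add_sub_cancel, Nat.cast_add, Nat.cast_one, map_add, map_natCast, map_one]
    ring
  have hne : (Polynomial.C ((k : C) + 1) * R * B + (X - Polynomial.C c) *
        (derivative R * B - R * derivative B)).eval c ≠ 0 := by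
    have h1 : ((k : C) + 1) ≠ 0 := by exact_mod_cast Nat.succ_ne_zero k
    simp [h1, hRc', hBc]
  have h2 : (derivative A * B - A * derivative B).rootMultiplicity c = k := by
    rw [hfac]
    rw [rootMultiplicity_mul, rootMultiplicity_X_sub_C_pow, rootMultiplicity_eq_zero hne, add_zero]
    rw [← hfac]; exact hW
  rw [h2, ← hk]

lemma W_mult_fib [CharZero C] {z c : C} (h : c ∈ (f.fib z).roots) :
    f.W.rootMultiplicity c + 1 = (f.fib z).rootMultiplicity c := by
  have h1 : derivative (f.fib z) * f.Q - (f.fib z) * derivative f.Q = f.W := by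
    unfold fib W
    simp only [derivative_sub, derivative_mul, derivative_C, zero_mul, zero_add]
    ring
  have h2 := f.mem_fib_roots.mp h
  rw [← h1]
  apply wronskian_rootMultiplicity (f.fib_ne z)
  · rw [h1]; exact f.W_ne
  · rw [fib_eval, h2, sub_self]
  · exact f.Q_ne_of_P h2

lemma W_mult_pole [CharZero C] {c : C} (h : c ∈ f.Q.roots) :
    f.W.rootMultiplicity c + 1 = f.Q.rootMultiplicity c := by
  have h0 : f.Q.eval c = 0 := by
    rw [mem_roots f.Q_ne] at h; exact h
  have h1 : derivative f.Q * f.P - f.Q * derivative f.P = - f.W := by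
    unfold W; ring
  have h2 : (derivative f.Q * f.P - f.Q * derivative f.P).rootMultiplicity c + 1 =
      f.Q.rootMultiplicity c := by
    apply wronskian_rootMultiplicity f.Q_ne
    · rw [h1]; exact neg_ne_zero.mpr f.W_ne
    · exact h0
    · exact f.P_ne_of_Q h0
  rw [h1] at h2
  have h3 : (-f.W).rootMultiplicity c = f.W.rootMultiplicity c := by
    classical
    rw [← count_roots, ← count_roots, roots_neg]
  rw [← h3]; exact h2

section BaseChange

variable {Ω : Type*} [Field Ω] [Algebra C Ω]

/-- base change -/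
noncomputable def bc (Ω : Type*) [Field Ω] [Algebra C Ω] : RM Ω where
  P := f.P.map (algebraMap C Ω)
  Q := f.Q.map (algebraMap C Ω)
  cop := by
    obtain ⟨a, b, hab⟩ := f.cop
    refine ⟨a.map (algebraMap C Ω), b.map (algebraMap C Ω), ?_⟩
    rw [← Polynomial.map_mul, ← Polynomial.map_mul, ← Polynomial.map_add, hab, Polynomial.map_one]
  lt := by rw [natDegree_map, natDegree_map]; exact f.lt
  two := by rw [natDegree_map]; exact f.two

@[simp] lemma bc_P : (f.bc Ω).P = f.P.map (algebraMap C Ω) := rfl
@[simp] lemma bc_Q : (f.bc Ω).Q = f.Q.map (algebraMap C Ω) := rfl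
@[simp] lemma bc_d : (f.bc Ω).d = f.d := by unfold d; rw [bc_P, natDegree_map]

lemma bc_fib (z : C) : (f.bc Ω).fib (algebraMap C Ω z) = (f.fib z).map (algebraMap C Ω) := by
  unfold fib
  simp

lemma bc_W : (f.bc Ω).W = f.W.map (algebraMap C Ω) := by
  unfold W
  simp [derivative_map]

end BaseChange

end RM

end Pool.Agent.H53.Tame
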