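import Pool.Agent.H53.Tame.Shrink

/-!
Chains of states, and one step of a chain.
-/

open Polynomial MeasureTheory

namespace Pool.Agent.H53.Tame

section

variable {C : Type*} [Field C] {Ω : Type*} [NormedField Ω] [IsUltrametricDist Ω] [Algebra C Ω]
variable [IsAlgClosed C] [CharZero C] [IsAlgClosed Ω]

lemma exists_le_avg {α : Type*} (m : Multiset α) (g : α → ℝ) (c : ℝ) (hm : m ≠ 0)
    (h : (m.map g).sum ≤ m.card * c) : ∃ w ∈ m, g w ≤ c := by
  by_contra h0
  push Not at h0
  have h1 : ∀ m : Multiset α, m ≠ 0 → (∀ w ∈ m, c < g w) → m.card * c < (m.map g).sum := by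
    intro m
    induction m using Multiset.induction_on with
    | empty => intro h; exact absurd rfl h
    | cons a m ih =>
      intro _ h2
      rw [Multiset.map_cons, Multiset.sum_cons, Multiset.card_cons]
      push_cast
      have h3 := h2 a (Multiset.mem_cons_self a m)
      by_cases h4 : m = 0
      · subst h4; simp; linarith
      · have := ih h4 (fun w hw => h2 w (Multiset.mem_cons_of_mem hw))
        nlinarith
  have := h1 m hm h0
  linarith

omit [IsUltrametricDist Ω] [IsAlgClosed Ω] in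
/-- The potential is bounded below by the logarithm of the radius. -/
lemma V_lower [IsUltrametricDist Ω] {f : RM C} (pd : f.PData) :
    ∃ B : ℝ, ∀ (y : Ω) (r : ℝ), HR C y r → B ≤ pd.V y - Real.log r := by
  classical
  -- the minimal distance
  obtain ⟨m, hm0, hm1, hm⟩ : ∃ m : ℝ, 0 < m ∧ m ≤ 1 ∧ ∀ z z' : C, (z : OnePoint C) ∈ pd.Z →
      (z' : OnePoint C) ∈ pd.Z → z ≠ z' → m ≤ ‖algebraMap C Ω (z - z')‖ := by
    have : ∀ T : Finset (OnePoint C × OnePoint C), ∃ m : ℝ, 0 < m ∧ m ≤ 1 ∧ ∀ z z' : C,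
        ((z : OnePoint C), (z' : OnePoint C)) ∈ T → z ≠ z' → m ≤ ‖algebraMap C Ω (z - z')‖ := by
      intro T
      induction T using Finset.induction_on with
      | empty => exact ⟨1, one_pos, le_rfl, by simp⟩
      | insert x T _ ih =>
        obtain ⟨m, hm0, hm1, hm⟩ := ih
        obtain ⟨x1, x2⟩ := x
        by_cases hx : ∃ z z' : C, x1 = (z : OnePoint C) ∧ x2 = (z' : OnePoint C) ∧ z ≠ z'
        · obtain ⟨z, z', h1, h2, h3⟩ := hx
          have h4 : 0 < ‖algebraMap C Ω (z - z')‖ := by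
            rw [norm_pos_iff, Ne, map_eq_zero, sub_eq_zero]; exact h3
          refine ⟨min m ‖algebraMap C Ω (z - z')‖, lt_min hm0 h4, min_le_of_left_le hm1, ?_⟩
          intro w w' hw hne
          rw [Finset.mem_insert, Prod.mk.injEq] at hw
          rcases hw with ⟨h5, h6⟩ | hw
          · rw [h1, OnePoint.coe_eq_coe] at h5
            rw [h2, OnePoint.coe_eq_coe] at h6
            rw [h5, h6]; exact min_le_right _ _
          · exact le_trans (min_le_left _ _) (hm w w' hw hne)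
        · refine ⟨m, hm0, hm1, ?_⟩
          intro w w' hw hne
          rw [Finset.mem_insert, Prod.mk.injEq] at hw
          rcases hw with ⟨h5, h6⟩ | hw
          · exact absurd ⟨w, w', h5.symm, h6.symm, hne⟩ hx
          · exact hm w w' hw hne
    obtain ⟨m, hm0, hm1, hm⟩ := this (pd.Z ×ˢ pd.Z)
    refine ⟨m, hm0, hm1, fun z z' hz hz' hne => hm z z' ?_ hne⟩
    rw [Finset.mem_product]; exact ⟨hz, hz'⟩
  refine ⟨Real.log m, fun y r h => ?_⟩
  have hr := h.pos
  set c := Real.log (max r m) with hc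
  have hmax : 0 < max r m := lt_max_of_lt_left hr
  have hcr : Real.log r ≤ c := Real.log_le_log hr (le_max_left _ _)
  have hcm : Real.log m ≤ c := Real.log_le_log hm0 (le_max_right _ _)
  have hlogm : Real.log m ≤ 0 := Real.log_nonpos hm0.le hm1
  -- the exceptional point
  obtain ⟨zs, hzs⟩ : ∃ zs : OnePoint C, ∀ z : C, (z : OnePoint C) ∈ pd.Z →
      (z : OnePoint C) ≠ zs → max r m ≤ ‖y - algebraMap C Ω z‖ := by
    by_cases hex : ∃ z : C, (z : OnePoint C) ∈ pd.Z ∧ ‖y - algebraMap C Ω z‖ < m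
    · obtain ⟨z0, hz0, hz0'⟩ := hex
      refine ⟨z0, fun z hz hne => ?_⟩
      apply max_le (h.le z)
      by_contra h1
      push Not at h1
      have hne' : z ≠ z0 := by
        intro h2; apply hne; rw [h2]
      have h2 := hm z z0 hz hz0 hne'
      have e : algebraMap C Ω (z - z0) = (y - algebraMap C Ω z0) - (y - algebraMap C Ω z) := by
        rw [map_sub]; ring
      rw [e, sub_eq_add_neg] at h2
      have h3 := IsUltrametricDist.norm_add_le_max (y - algebraMap C Ω z0) (-(y - algebraMap C Ω z))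
      rw [norm_neg] at h3
      have h4 := max_lt hz0' h1
      linarith
    · push Not at hex
      exact ⟨OnePoint.infty, fun z hz _ => max_le (h.le z) (hex z hz)⟩
  set Zf := pd.Z.erase OnePoint.infty with hZf
  have hM1 : pd.v OnePoint.infty + ∑ z ∈ Zf, pd.v z = 2 := by
    rw [hZf, Finset.add_sum_erase _ _ pd.inf]; exact pd.vsum
  have hv1 := pd.v1 OnePoint.infty
  have hv0 := pd.v0 OnePoint.infty
  have hV : pd.V y = ∑ z ∈ Zf, pd.v z * RM.u z y := by
    unfold RM.PData.V
    rw [hZf, ← Finset.add_sum_erase _ _ pd.inf, RM.u_infty, mul_zero, zero_add]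
  have hbound : ∑ z ∈ Zf, pd.v z * RM.u z y ≥ ∑ z ∈ Zf, (pd.v z * c -
      (if z = zs then (c - Real.log r) else 0)) := by
    apply Finset.sum_le_sum
    intro z hz
    rw [hZf, Finset.mem_erase] at hz
    obtain ⟨hz1, hz2⟩ := hz
    obtain ⟨z', rfl⟩ := OnePoint.ne_infty_iff_exists.mp hz1
    rw [RM.u_coe]
    have h0 := pd.v0 (z' : OnePoint C)
    have h1 := pd.v1 (z' : OnePoint C)
    by_cases h2 : (z' : OnePoint C) = zs
    · rw [if_pos h2]
      have h3 : Real.log r ≤ Real.log ‖y - algebraMap C Ω z'‖ := Real.log_le_log hr (h.le z')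
      have h4 : pd.v (z' : OnePoint C) * (c - Real.log r) ≤ 1 * (c - Real.log r) :=
        mul_le_mul_of_nonneg_right h1 (by linarith)
      have h5 : pd.v (z' : OnePoint C) * Real.log r ≤
        pd.v (z' : OnePoint C) * Real.log ‖y - algebraMap C Ω z'‖ :=
        mul_le_mul_of_nonneg_left h3 h0
      linarith
    · rw [if_neg h2, sub_zero]
      apply mul_le_mul_of_nonneg_left _ h0
      exact Real.log_le_log hmax (hzs z' hz2 h2)
  have hsum : ∑ z ∈ Zf, (pd.v z * c - (if z = zs then (c - Real.log r) else 0)) ≥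
      (∑ z ∈ Zf, pd.v z) * c - (c - Real.log r) := by
    rw [Finset.sum_sub_distrib, ← Finset.sum_mul, Finset.sum_ite_eq']
    by_cases h2 : zs ∈ Zf
    · rw [if_pos h2]
    · rw [if_neg h2]; linarith
  have hM : 1 ≤ ∑ z ∈ Zf, pd.v z := by linarith
  have hM2 : ∑ z ∈ Zf, pd.v z ≤ 2 := by linarith
  rw [hV]
  have h6 : (∑ z ∈ Zf, pd.v z - 1) * Real.log m ≤ (∑ z ∈ Zf, pd.v z - 1) * c :=
    mul_le_mul_of_nonneg_left hcm (by linarith)
  have h7 : 1 * Real.log m ≤ (∑ z ∈ Zf, pd.v z - 1) * Real.log m := by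
    apply mul_le_mul_of_nonpos_right _ hlogm
    linarith
  linarith

/-- A state: a generic point with three separated points. -/
structure St (S : Set C) (Ω : Type*) [NormedField Ω] [Algebra C Ω] where
  y : Ω
  r : ℝ
  β : C
  σ : C
  ω : C
  h : HR C y r
  hβ : β ∈ S
  hσ : σ ∈ S
  hω : ω ∈ S
  e1 : E y r β σ = 1
  e2 : E y r β ω = 1
  e3 : E y r σ ω = 1

/-- The next state. -/
def Nx {f : RM C} (pd : f.PData) {S : Set C} (a b : St S Ω) : Prop :=
  b.y ∈ f.pre a.y ∧ b.β ∈ (f.fib a.β).roots ∧ b.ω ∈ (f.fib a.ω).roots ∧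
  (∀ s : ℝ, 0 < s → s ≤ 1 → cnt b.y b.r (f.fib a.ω) b.β s < cnt b.y b.r (f.fib a.β) b.β s) ∧
  Real.log (f.D b.y) + pd.V b.y ≤ pd.L Ω + pd.V a.y

omit [IsUltrametricDist Ω] [IsAlgClosed C] [CharZero C] [IsAlgClosed Ω] in
lemma St.ne {S : Set C} (a : St S Ω) : a.β ≠ a.σ ∧ a.β ≠ a.ω ∧ a.σ ≠ a.ω := by
  refine ⟨?_, ?_, ?_⟩
  · intro h
    have := a.e1
    rw [h, E_self] at this; exact zero_ne_one this
  · intro h
    have := a.e2
    rw [h, E_self] at this; exact zero_ne_one this
  · intro h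
    have := a.e3
    rw [h, E_self] at this; exact zero_ne_one this

omit [IsUltrametricDist Ω] [IsAlgClosed Ω] in
lemma HR.out {f : RM C} (pd : f.PData) {y : Ω} {r : ℝ} (h : HR C y r) : pd.Out y := by
  intro z _ h0
  exact h.sub_ne z (sub_eq_zero.mpr h0)

lemma exists_next {f : RM C} (pd : f.PData) (hdn : DN C Ω) {S : Set C}
    (hback : ∀ z ∈ S, ∀ w ∈ (f.fib z).roots, w ∈ S) (a : St S Ω) : ∃ b : St S Ω, Nx pd a b := by
  have hout := HR.out pd a.h
  have hav := pd.average a.y hout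
  have hne : f.pre a.y ≠ 0 := by
    intro h0
    have := f.card_pre a.y
    rw [h0, Multiset.card_zero] at this
    have := f.two_le_d
    omega
  obtain ⟨y', hy', hy'2⟩ := exists_le_avg (f.pre a.y) _ (pd.L Ω + pd.V a.y) hne
    (by rw [hav, f.card_pre])
  obtain ⟨r', hr', β', σ', ω', h1, h2, h3, h4, h5, h6, h7⟩ :=
    step f hdn a.h a.e1 a.e2 a.e3 hy'
  exact ⟨⟨y', r', β', σ', ω', hr', hback _ a.hβ _ h1, hback _ a.hσ _ h2, hback _ a.hω _ h3,
    h4, h5, h6⟩, hy', h1, h3, h7, hy'2⟩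

end

end Pool.Agent.H53.Tame
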