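import Pool.Agent.H53.Tame.Basic

/-!
Moving a fixed point to infinity.
-/

open Polynomial

namespace Pool.Agent.H53.Tame

section Reflect

variable {F : Type*} [Field F]

lemma reflect_eval {g : F[X]} {N : ℕ} (h : g.natDegree ≤ N) {w : F} (hw : w ≠ 0) :
    (reflect N g).eval w = w ^ N * g.eval w⁻¹ := by
  haveI : Invertible w⁻¹ := invertibleOfNonzero (inv_ne_zero hw)
  have h1 := eval₂_reflect_mul_pow (RingHom.id F) w⁻¹ N g h
  rw [invOf_eq_inv, inv_inv] at h1
  have h2 : (reflect N g).eval w * w⁻¹ ^ N = g.eval w⁻¹ := h1
  rw [← h2, inv_pow]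
  have : w ^ N ≠ 0 := pow_ne_zero _ hw
  field_simp

lemma coeff_X_mul_derivative (g : F[X]) (m : ℕ) :
    (X * derivative g).coeff m = m * g.coeff m := by
  cases m with
  | zero => simp
  | succ m => rw [coeff_X_mul, coeff_derivative]; push_cast; ring

lemma X_mul_derivative_reflect {g : F[X]} {N : ℕ} (h : g.natDegree ≤ N) :
    X * derivative (reflect N g) =
      Polynomial.C (N : F) * reflect N g - reflect N (X * derivative g) := by
  ext n
  rw [coeff_X_mul_derivative, coeff_sub, coeff_C_mul, coeff_reflect, coeff_reflect,
    coeff_X_mul_derivative]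
  rcases le_or_gt n N with h1 | h1
  · rw [revAt_le h1]
    rw [Nat.cast_sub h1]; ring
  · rw [revAt_eq_self_of_lt h1, coeff_eq_zero_of_natDegree_lt (lt_of_le_of_lt h h1)]
    ring

lemma taylor_coeff_top {f : F[X]} {N : ℕ} (h : f.natDegree ≤ N) (r : F) :
    (taylor r f).coeff N = f.coeff N := by
  rcases h.eq_or_lt with h1 | h1
  · rw [← h1, coeff_taylor_natDegree]; rfl
  · rw [coeff_eq_zero_of_natDegree_lt h1, coeff_eq_zero_of_natDegree_lt]
    rw [natDegree_taylor]; exact h1

/-- the Wronskian -/
noncomputable def wr (g h : F[X]) : F[X] := derivative g * h - g * derivative h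

lemma taylor_derivative (g : F[X]) (r : F) : derivative (taylor r g) = taylor r (derivative g) := by
  rw [taylor_apply, taylor_apply, derivative_comp]
  simp

lemma taylor_wr (g h : F[X]) (r : F) : wr (taylor r g) (taylor r h) = taylor r (wr g h) := by
  unfold wr
  rw [taylor_derivative, taylor_derivative, map_sub, taylor_mul, taylor_mul]

lemma wr_natDegree {g h : F[X]} {d : ℕ} (hd : 1 ≤ d) (hg : g.natDegree ≤ d)
    (hh : h.natDegree ≤ d) : (wr g h).natDegree ≤ 2 * d - 2 := by
  have h0 : ∀ g : F[X], g.natDegree ≤ d → (derivative g).natDegree ≤ d - 1 := by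
    intro g hg
    exact le_trans (natDegree_derivative_le g) (by omega)
  rw [natDegree_le_iff_coeff_eq_zero]
  intro N hN
  unfold wr
  rw [coeff_sub]
  have hcg : (derivative g).coeff (d - 1) = d * g.coeff d := by
    rw [coeff_derivative]
    have e : d - 1 + 1 = d := by omega
    rw [e]
    have : ((d - 1 : ℕ) : F) + 1 = d := by
      rw [← Nat.cast_succ]; congr 1
    rw [this]; ring
  have hch : (derivative h).coeff (d - 1) = d * h.coeff d := by
    rw [coeff_derivative]
    have e : d - 1 + 1 = d := by omega
    rw [e]
    have : ((d - 1 : ℕ) : F) + 1 = d := by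
      rw [← Nat.cast_succ]; congr 1
    rw [this]; ring
  rcases Nat.lt_or_ge (d - 1 + d) N with h1 | h1
  · have e1 : (derivative g * h).coeff N = 0 := by
      apply coeff_eq_zero_of_natDegree_lt
      have := natDegree_mul_le (p := derivative g) (q := h)
      have := h0 g hg
      omega
    have e2 : (g * derivative h).coeff N = 0 := by
      apply coeff_eq_zero_of_natDegree_lt
      have := natDegree_mul_le (p := g) (q := derivative h)
      have := h0 h hh
      omega
    rw [e1, e2, sub_zero]
  · have e : N = d - 1 + d := by omega
    have e' : N = d + (d - 1) := by omega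
    have e1 : (derivative g * h).coeff N = (derivative g).coeff (d - 1) * h.coeff d := by
      rw [e]; exact coeff_mul_add_eq_of_natDegree_le (h0 g hg) hh
    have e2 : (g * derivative h).coeff N = g.coeff d * (derivative h).coeff (d - 1) := by
      rw [e']; exact coeff_mul_add_eq_of_natDegree_le hg (h0 h hh)
    rw [e1, e2, hcg, hch]; ring

lemma wr_reflect [Infinite F] {g h : F[X]} {d : ℕ} (hd : 1 ≤ d) (hg : g.natDegree ≤ d)
    (hh : h.natDegree ≤ d) : wr (reflect d h) (reflect d g) = reflect (2 * d - 2) (wr g h) := by
  apply eq_of_infinite_eval_eq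
  have hinf : Set.Infinite {w : F | w ≠ 0} := by
    have : {w : F | w ≠ 0} = ({0} : Set F)ᶜ := by ext; simp
    rw [this]
    exact (Set.finite_singleton (0 : F)).infinite_compl
  refine hinf.mono ?_
  intro w hw
  have hw0 : w ≠ 0 := hw
  show (wr (reflect d h) (reflect d g)).eval w = (reflect (2 * d - 2) (wr g h)).eval w
  rw [reflect_eval (wr_natDegree hd hg hh) hw0]
  have hX : ∀ g : F[X], g.natDegree ≤ d → (X * derivative g).natDegree ≤ d := by
    intro g hg
    refine le_trans natDegree_mul_le ?_
    have := natDegree_derivative_le g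
    have := natDegree_X_le (R := F)
    rcases Nat.eq_zero_or_pos g.natDegree with h1 | h1
    · have h2 : derivative g = 0 := by rw [eq_C_of_natDegree_eq_zero h1]; simp
      rw [h2]; simp; omega
    · omega
  have k1 : w * (derivative (reflect d h)).eval w = d * (reflect d h).eval w -
      w ^ d * (w⁻¹ * (derivative h).eval w⁻¹) := by
    have := congrArg (Polynomial.eval w) (X_mul_derivative_reflect hh)
    rw [eval_mul, eval_X, eval_sub, eval_mul, eval_C, reflect_eval (hX h hh) hw0, eval_mul,
      eval_X] at this
    exact this
  have k2 : w * (derivative (reflect d g)).eval w = d * (reflect d g).eval w -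
      w ^ d * (w⁻¹ * (derivative g).eval w⁻¹) := by
    have := congrArg (Polynomial.eval w) (X_mul_derivative_reflect hg)
    rw [eval_mul, eval_X, eval_sub, eval_mul, eval_C, reflect_eval (hX g hg) hw0, eval_mul,
      eval_X] at this
    exact this
  apply mul_left_cancel₀ hw0
  unfold wr
  rw [eval_sub, eval_mul, eval_mul, eval_sub, eval_mul, eval_mul]
  have e1 : w * ((derivative (reflect d h)).eval w * (reflect d g).eval w -
      (reflect d h).eval w * (derivative (reflect d g)).eval w) =
      (w * (derivative (reflect d h)).eval w) * (reflect d g).eval w -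
      (reflect d h).eval w * (w * (derivative (reflect d g)).eval w) := by ring
  rw [e1, k1, k2, reflect_eval hg hw0, reflect_eval hh hw0]
  obtain ⟨k, hk⟩ : ∃ k, d = k + 1 := ⟨d - 1, by omega⟩
  have e2 : 2 * d - 2 = 2 * k := by omega
  rw [e2, hk]
  push_cast
  field_simp
  ring

end Reflect

section Defs

variable {K : Type*} [Field K]

/-- the degree of the rational map `P / Q` -/
noncomputable def rdeg (P Q : K[X]) : ℕ := max P.natDegree Q.natDegree

open Classical in
/-- the map of the projective line given by `P / Q` -/
noncomputable def rmap (P Q : K[X]) (L : Type*) [Field L] [Algebra K L] (x : OnePoint L) :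
    OnePoint L :=
  x.elim (if Q.coeff (rdeg P Q) = 0 then OnePoint.infty
      else ((algebraMap K L (P.coeff (rdeg P Q) / Q.coeff (rdeg P Q)) : L) : OnePoint L))
    (fun z => if aeval z Q = 0 then OnePoint.infty
      else ((aeval z P / aeval z Q : L) : OnePoint L))

/-- the critical points of the rational map `P / Q` -/
def IsCrit (P Q : K[X]) (L : Type*) [Field L] [Algebra K L] (x : OnePoint L) : Prop :=
  x.elim ((derivative P * Q - P * derivative Q).coeff (2 * rdeg P Q - 2) = 0)
    (fun z => aeval z (derivative P * Q - P * derivative Q) = 0)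

variable (P Q : K[X]) {L : Type*} [Field L] [Algebra K L]

lemma rmap_infty_of (h : Q.coeff (rdeg P Q) = 0) :
    rmap P Q L OnePoint.infty = OnePoint.infty := if_pos h

lemma rmap_infty_ne (h : Q.coeff (rdeg P Q) ≠ 0) :
    rmap P Q L OnePoint.infty =
      ((algebraMap K L (P.coeff (rdeg P Q) / Q.coeff (rdeg P Q)) : L) : OnePoint L) := if_neg h

lemma rmap_coe_of {z : L} (h : aeval z Q = 0) : rmap P Q L z = OnePoint.infty := if_pos h

lemma rmap_coe_ne {z : L} (h : aeval z Q ≠ 0) :
    rmap P Q L z = ((aeval z P / aeval z Q : L) : OnePoint L) := if_neg h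

/-- coordinates in a subfield -/
def InE (E : IntermediateField K L) (x : OnePoint L) : Prop := ∀ z : L, x = (z : OnePoint L) → z ∈ E

end Defs

section Conj

variable {K : Type*} [Field K] [CharZero K] {C : Type*} [Field C] [IsAlgClosed C] [Algebra K C]

/-- the change of coordinates at a finite fixed point -/
noncomputable def mob (z0 : C) : OnePoint C → OnePoint C := fun x =>
  open Classical in
  x.elim ((z0 : C) : OnePoint C)
    (fun w => if w = 0 then OnePoint.infty else ((z0 + w⁻¹ : C) : OnePoint C))

noncomputable def mobInv (z0 : C) : OnePoint C → OnePoint C := fun x =>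
  open Classical in
  x.elim ((0 : C) : OnePoint C)
    (fun z => if z = z0 then OnePoint.infty else (((z - z0)⁻¹ : C) : OnePoint C))

omit [IsAlgClosed C] in
lemma mob_infty (z0 : C) : mob z0 OnePoint.infty = (z0 : OnePoint C) := rfl
omit [IsAlgClosed C] in
lemma mob_zero (z0 : C) : mob z0 ((0 : C) : OnePoint C) = OnePoint.infty := if_pos rfl
omit [IsAlgClosed C] in
lemma mob_ne (z0 : C) {w : C} (h : w ≠ 0) :
    mob z0 (w : OnePoint C) = ((z0 + w⁻¹ : C) : OnePoint C) := if_neg h
omit [IsAlgClosed C] in
lemma mobInv_infty (z0 : C) : mobInv z0 OnePoint.infty = ((0 : C) : OnePoint C) := rfl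
omit [IsAlgClosed C] in
lemma mobInv_self (z0 : C) : mobInv z0 (z0 : OnePoint C) = OnePoint.infty := if_pos rfl
omit [IsAlgClosed C] in
lemma mobInv_ne (z0 : C) {z : C} (h : z ≠ z0) :
    mobInv z0 (z : OnePoint C) = (((z - z0)⁻¹ : C) : OnePoint C) := if_neg h

/-- the change of coordinates as an equivalence -/
noncomputable def mobEquiv (z0 : C) : OnePoint C ≃ OnePoint C where
  toFun := mob z0
  invFun := mobInv z0
  left_inv := by
    intro x
    induction x using OnePoint.rec with
    | infty => rw [mob_infty, mobInv_self]
    | coe w =>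
      by_cases hw : w = 0
      · rw [hw, mob_zero, mobInv_infty]
      · rw [mob_ne z0 hw, mobInv_ne]
        · congr 1
          rw [add_sub_cancel_left, inv_inv]
        · intro h
          apply inv_ne_zero hw
          exact (add_eq_left.mp h)
  right_inv := by
    intro x
    induction x using OnePoint.rec with
    | infty => rw [mobInv_infty, mob_zero]
    | coe z =>
      by_cases hz : z = z0
      · rw [hz, mobInv_self, mob_infty]
      · rw [mobInv_ne z0 hz, mob_ne]
        · congr 1
          rw [inv_inv]; ring
        · exact inv_ne_zero (sub_ne_zero.mpr hz)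

/-- **Conjugation to a map which fixes infinity.** -/
theorem exists_conj (P Q : K[X]) (hcop : IsCoprime P Q) (hd : 2 ≤ rdeg P Q) :
    ∃ (f : RM C) (ψ : OnePoint C ≃ OnePoint C), (∀ w, rmap P Q C (ψ w) = ψ (f.app w)) ∧
      (∀ c ∈ f.W.roots, IsCrit P Q C (ψ (c : OnePoint C))) ∧
      (∀ (E : IntermediateField K C) (β σ ω τ : C), β ≠ σ → β ≠ ω → σ ≠ ω → τ ≠ β → τ ≠ σ →
        τ ≠ ω → InE E (ψ β) → InE E (ψ σ) → InE E (ψ ω) → InE E (ψ τ) →
        (σ - ω) * (τ - β) / ((σ - β) * (τ - ω)) ∈ E) := by
  classical
  haveI : CharZero C := charZero_of_injective_algebraMap (algebraMap K C).injective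
  set d := rdeg P Q with hdd
  set p := P.map (algebraMap K C) with hp
  set q := Q.map (algebraMap K C) with hq
  have hpe : ∀ z : C, aeval z P = p.eval z := fun z => by rw [hp, eval_map_algebraMap]
  have hqe : ∀ z : C, aeval z Q = q.eval z := fun z => by rw [hq, eval_map_algebraMap]
  have hpd : p.natDegree ≤ d := by rw [hp, natDegree_map]; exact le_max_left _ _
  have hqd : q.natDegree ≤ d := by rw [hq, natDegree_map]; exact le_max_right _ _
  have hpc : p.coeff d = algebraMap K C (P.coeff d) := coeff_map _ _
  have hqc : q.coeff d = algebraMap K C (Q.coeff d) := coeff_map _ _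
  have hcop' : IsCoprime p q := by
    obtain ⟨a, b, hab⟩ := hcop
    refine ⟨a.map (algebraMap K C), b.map (algebraMap K C), ?_⟩
    rw [hp, hq, ← Polynomial.map_mul, ← Polynomial.map_mul, ← Polynomial.map_add, hab,
      Polynomial.map_one]
  have hne : ∀ z : C, p.eval z = 0 → q.eval z ≠ 0 := by
    intro z h1 h2
    obtain ⟨a, b, hab⟩ := hcop'
    have := congrArg (Polynomial.eval z) hab
    rw [eval_add, eval_mul, eval_mul, h1, h2] at this
    simp at this
  by_cases hQ : Q.coeff d = 0
  · -- infinity is fixed
    have hlt : q.natDegree < p.natDegree := by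
      rw [hp, hq, natDegree_map, natDegree_map]
      by_contra h1
      push Not at h1
      have h2 : d = Q.natDegree := by rw [hdd]; exact max_eq_right h1
      rw [h2, coeff_natDegree, leadingCoeff_eq_zero] at hQ
      rw [hQ] at h2
      simp at h2
      omega
    have htwo : 2 ≤ p.natDegree := by
      have h1 : d = P.natDegree := by
        rw [hdd]
        apply max_eq_left
        rw [hp, hq, natDegree_map, natDegree_map] at hlt
        exact hlt.le
      rw [hp, natDegree_map, ← h1]; exact hd
    let f : RM C := ⟨p, q, hcop', hlt, htwo⟩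
    refine ⟨f, Equiv.refl _, ?_, ?_, ?_⟩
    · intro w
      show rmap P Q C w = f.app w
      induction w using OnePoint.rec with
      | infty => rw [rmap_infty_of P Q hQ, RM.app_infty]
      | coe z =>
        by_cases h : q.eval z = 0
        · rw [rmap_coe_of P Q (by rw [hqe]; exact h), f.app_of_pole h]
        · rw [rmap_coe_ne P Q (by rw [hqe]; exact h), f.app_of_ne h, hpe, hqe]
    · intro c hc
      rw [mem_roots f.W_ne] at hc
      show aeval c (derivative P * Q - P * derivative Q) = 0
      have h1 : (f.W).eval c = 0 := hc
      have h2 : f.W = (derivative P * Q - P * derivative Q).map (algebraMap K C) := by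
        show derivative p * q - p * derivative q = _
        simp [hp, hq]
      rw [h2, eval_map_algebraMap] at h1
      exact h1
    · intro E β σ ω τ _ _ _ _ _ _ hβ hσ hω hτ
      have h1 := hβ β rfl
      have h2 := hσ σ rfl
      have h3 := hω ω rfl
      have h4 := hτ τ rfl
      exact E.div_mem (E.mul_mem (E.sub_mem h2 h3) (E.sub_mem h4 h1))
        (E.mul_mem (E.sub_mem h2 h1) (E.sub_mem h4 h3))
  · -- a finite fixed point
    have hqd0 : q.coeff d ≠ 0 := by
      rw [hqc, Ne, map_eq_zero]; exact hQ
    have hqn : q.natDegree = d := le_antisymm hqd (le_natDegree_of_ne_zero hqd0)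
    obtain ⟨z0, hz0⟩ : ∃ z0 : C, p.eval z0 = z0 * q.eval z0 := by
      have hdeg : (p - X * q).degree ≠ 0 := by
        have h1 : (X * q).natDegree = d + 1 := by
          rw [natDegree_X_mul, hqn]
          intro h0
          rw [h0] at hqd0
          simp at hqd0
        have h2 : (p - X * q).natDegree = d + 1 := by
          rw [natDegree_sub_eq_right_of_natDegree_lt, h1]
          rw [h1]; omega
        intro h3
        have h4 : (p - X * q).natDegree = 0 := natDegree_eq_zero_iff_degree_le_zero.mpr h3.le
        omega
      obtain ⟨z0, hz0⟩ := IsAlgClosed.exists_root _ hdeg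
      refine ⟨z0, ?_⟩
      rw [IsRoot.def, eval_sub, eval_mul, eval_X, sub_eq_zero] at hz0
      exact hz0
    have hqz0 : q.eval z0 ≠ 0 := by
      intro h0
      rw [h0, mul_zero] at hz0
      exact hne z0 hz0 h0
    set g := taylor z0 p with hg
    set h := taylor z0 q with hh
    have hgd : g.natDegree ≤ d := by rw [hg, natDegree_taylor]; exact hpd
    have hhd : h.natDegree ≤ d := by rw [hh, natDegree_taylor]; exact hqd
    set A := reflect d g with hA
    set B := reflect d h with hB
    have hAe : ∀ w : C, w ≠ 0 → A.eval w = w ^ d * p.eval (z0 + w⁻¹) := by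
      intro w hw
      rw [hA, reflect_eval hgd hw, hg, taylor_eval, add_comm]
    have hBe : ∀ w : C, w ≠ 0 → B.eval w = w ^ d * q.eval (z0 + w⁻¹) := by
      intro w hw
      rw [hB, reflect_eval hhd hw, hh, taylor_eval, add_comm]
    have hA0 : A.eval 0 = p.coeff d := by
      rw [← coeff_zero_eq_eval_zero, hA, coeff_reflect, revAt_le (Nat.zero_le d), Nat.sub_zero, hg,
        taylor_coeff_top hpd]
    have hB0 : B.eval 0 = q.coeff d := by
      rw [← coeff_zero_eq_eval_zero, hB, coeff_reflect, revAt_le (Nat.zero_le d), Nat.sub_zero, hh,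
        taylor_coeff_top hqd]
    have hAd : A.natDegree ≤ d := by
      rw [hA]; refine le_trans natDegree_reflect_le ?_
      exact max_le le_rfl hgd
    have hBd : B.natDegree ≤ d := by
      rw [hB]; refine le_trans natDegree_reflect_le ?_
      exact max_le le_rfl hhd
    have hAc : A.coeff d = z0 * q.eval z0 := by
      rw [hA, coeff_reflect, revAt_le le_rfl, Nat.sub_self, hg, taylor_coeff_zero, hz0]
    have hBc : B.coeff d = q.eval z0 := by
      rw [hB, coeff_reflect, revAt_le le_rfl, Nat.sub_self, hh, taylor_coeff_zero]
    have hBn : B.natDegree = d := le_antisymm hBd (le_natDegree_of_ne_zero (by rw [hBc]; exact hqz0))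
    set R := A - Polynomial.C z0 * B with hR
    have hRlt : R.natDegree < B.natDegree := by
      rw [hBn]
      have h1 : R.natDegree ≤ d := by
        rw [hR]
        refine le_trans (natDegree_sub_le _ _) (max_le hAd ?_)
        exact le_trans (natDegree_C_mul_le _ _) hBd
      rcases h1.eq_or_lt with h2 | h2
      · exfalso
        have h3 : R.coeff d = 0 := by
          rw [hR, coeff_sub, coeff_C_mul, hAc, hBc, sub_self]
        rw [← h2, coeff_natDegree, leadingCoeff_eq_zero] at h3
        rw [h3] at h2
        simp at h2
        omega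
      · exact h2
    have hcopBR : IsCoprime B R := by
      rw [Polynomial.isCoprime_iff_aeval_ne_zero_of_isAlgClosed (k := C) (K := C)]
      intro w
      simp only [coe_aeval_eq_eval]
      by_contra hcon
      push Not at hcon
      obtain ⟨h1, h2⟩ := hcon
      have h3 : A.eval w = 0 := by
        rw [hR, eval_sub, eval_mul, h1, mul_zero, sub_zero] at h2
        exact h2
      by_cases hw : w = 0
      · rw [hw, hB0] at h1
        exact hqd0 h1
      · rw [hAe w hw] at h3
        rw [hBe w hw] at h1
        have hwd : w ^ d ≠ 0 := pow_ne_zero _ hw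
        exact hne _ ((mul_eq_zero.mp h3).resolve_left hwd) ((mul_eq_zero.mp h1).resolve_left hwd)
    let f : RM C := ⟨B, R, hcopBR, hRlt, by rw [hBn]; exact hd⟩
    have hψ : ∀ w, mobEquiv z0 w = mob z0 w := fun _ => rfl
    refine ⟨f, mobEquiv z0, ?_, ?_, ?_⟩
    · intro w
      rw [hψ, hψ]
      induction w using OnePoint.rec with
      | infty =>
        rw [RM.app_infty, mob_infty, rmap_coe_ne P Q (by rw [hqe]; exact hqz0), hpe, hqe, hz0,
          mul_div_cancel_right₀ _ hqz0]
      | coe w =>
        by_cases hw : w = 0
        · subst hw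
          rw [mob_zero, rmap_infty_ne P Q hQ]
          have hR0 : R.eval 0 = p.coeff d - z0 * q.coeff d := by
            rw [hR, eval_sub, eval_mul, eval_C, hA0, hB0]
          have e0 : algebraMap K C (P.coeff d / Q.coeff d) = p.coeff d / q.coeff d := by
            rw [map_div₀, hpc, hqc]
          rw [← hdd, e0]
          by_cases h1 : R.eval 0 = 0
          · rw [f.app_of_pole h1, mob_infty]
            rw [hR0, sub_eq_zero] at h1
            rw [h1, mul_div_cancel_right₀ _ hqd0]
          · rw [f.app_of_ne h1]
            have h2 : (f.P.eval 0 / f.Q.eval 0 : C) = q.coeff d / R.eval 0 := by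
              show B.eval 0 / R.eval 0 = _
              rw [hB0]
            rw [h2, mob_ne z0 (div_ne_zero hqd0 h1)]
            congr 1
            rw [inv_div, hR0]
            field_simp
            ring
        · rw [mob_ne z0 hw]
          set z := z0 + w⁻¹ with hz
          have hwd : w ^ d ≠ 0 := pow_ne_zero _ hw
          have hRe : R.eval w = w ^ d * (p.eval z - z0 * q.eval z) := by
            rw [hR, eval_sub, eval_mul, eval_C, hAe w hw, hBe w hw]; ring
          by_cases h1 : q.eval z = 0
          · rw [rmap_coe_of P Q (by rw [hqe]; exact h1)]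
            have h2 : f.Q.eval w ≠ 0 := by
              show R.eval w ≠ 0
              rw [hRe, h1, mul_zero, sub_zero]
              apply mul_ne_zero hwd
              intro h3; exact hne z h3 h1
            rw [f.app_of_ne h2]
            have h3 : (f.P.eval w / f.Q.eval w : C) = 0 := by
              show B.eval w / _ = 0
              rw [hBe w hw, h1, mul_zero, zero_div]
            rw [h3, mob_zero]
          · rw [rmap_coe_ne P Q (by rw [hqe]; exact h1), hpe, hqe]
            by_cases h2 : R.eval w = 0
            · rw [f.app_of_pole h2, mob_infty]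
              rw [hRe] at h2
              have h3 := sub_eq_zero.mp ((mul_eq_zero.mp h2).resolve_left hwd)
              rw [h3, mul_div_cancel_right₀ _ h1]
            · rw [f.app_of_ne h2]
              have h3 : (f.P.eval w / f.Q.eval w : C) = q.eval z / (p.eval z - z0 * q.eval z) := by
                show B.eval w / R.eval w = _
                rw [hBe w hw, hRe]
                rw [mul_div_mul_left _ _ hwd]
              have h4 : p.eval z - z0 * q.eval z ≠ 0 := by
                rw [hRe] at h2
                exact right_ne_zero_of_mul h2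
              rw [h3, mob_ne z0 (div_ne_zero h1 h4)]
              congr 1
              rw [inv_div]
              field_simp
              ring
    · intro c hc
      rw [mem_roots f.W_ne] at hc
      have hW : f.W = reflect (2 * d - 2) (taylor z0 (wr p q)) := by
        rw [← taylor_wr, ← hg, ← hh, ← wr_reflect (by omega) hgd hhd, ← hA, ← hB]
        show derivative B * R - B * derivative R = wr B A
        unfold wr
        rw [hR]
        simp only [derivative_sub, derivative_mul, derivative_C, zero_mul, zero_add]
        ring
      have hwmap : wr p q = (derivative P * Q - P * derivative Q).map (algebraMap K C) := by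
        show derivative p * q - p * derivative q = _
        simp [hp, hq]
      have hwd : (wr p q).natDegree ≤ 2 * d - 2 := wr_natDegree (by omega) hpd hqd
      have h1 : (f.W).eval c = 0 := hc
      rw [hψ]
      by_cases hc0 : c = 0
      · subst hc0
        rw [mob_zero]
        show (derivative P * Q - P * derivative Q).coeff (2 * rdeg P Q - 2) = 0
        rw [hW, ← coeff_zero_eq_eval_zero, coeff_reflect, revAt_le (Nat.zero_le _), Nat.sub_zero,
          taylor_coeff_top hwd, hwmap, coeff_map, map_eq_zero] at h1
        exact h1
      · rw [mob_ne z0 hc0]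
        show aeval (z0 + c⁻¹) (derivative P * Q - P * derivative Q) = 0
        rw [hW, reflect_eval (by rw [natDegree_taylor]; exact hwd) hc0, taylor_eval] at h1
        have h2 := (mul_eq_zero.mp h1).resolve_left (pow_ne_zero _ hc0)
        rw [hwmap, eval_map_algebraMap, add_comm] at h2
        exact h2
    · intro E β σ ω τ n1 n2 n3 n4 n5 n6 hβ hσ hω hτ
      rw [hψ] at hβ hσ hω hτ
      let cw : C → C := fun w => if w = 0 then 1 else w
      have hcw : ∀ w, cw w ≠ 0 := by
        intro w
        show (if w = 0 then 1 else w) ≠ 0
        by_cases h1 : w = 0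
        · rw [if_pos h1]; exact one_ne_zero
        · rw [if_neg h1]; exact h1
      have hE : ∀ w : C, InE E (mob z0 (w : OnePoint C)) → w ≠ 0 → z0 + w⁻¹ ∈ E := by
        intro w h1 h2
        rw [mob_ne z0 h2] at h1
        exact h1 _ rfl
      have hpair : ∀ w w' : C, InE E (mob z0 (w : OnePoint C)) →
          InE E (mob z0 (w' : OnePoint C)) → (w - w') / (cw w * cw w') ∈ E := by
        intro w w' h1 h2
        by_cases hw : w = 0
        · by_cases hw' : w' = 0
          · rw [hw, hw', sub_self, zero_div]; exact E.zero_mem
          · have e : (w - w') / (cw w * cw w') = -1 := by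
              show (w - w') / ((if w = 0 then 1 else w) * (if w' = 0 then 1 else w')) = -1
              rw [if_pos hw, if_neg hw', hw]
              field_simp
              ring
            rw [e]; exact E.neg_mem E.one_mem
        · by_cases hw' : w' = 0
          · have e : (w - w') / (cw w * cw w') = 1 := by
              show (w - w') / ((if w = 0 then 1 else w) * (if w' = 0 then 1 else w')) = 1
              rw [if_neg hw, if_pos hw', hw']
              field_simp
              ring
            rw [e]; exact E.one_mem
          · have e : (w - w') / (cw w * cw w') = (z0 + w'⁻¹) - (z0 + w⁻¹) := by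
              show (w - w') / ((if w = 0 then 1 else w) * (if w' = 0 then 1 else w')) = _
              rw [if_neg hw, if_neg hw']
              field_simp
              ring
            rw [e]
            exact E.sub_mem (hE w' h2 hw') (hE w h1 hw)
      have k1 := hcw β
      have k2 := hcw σ
      have k3 := hcw ω
      have k4 := hcw τ
      have m1 : σ - β ≠ 0 := sub_ne_zero.mpr n1.symm
      have m2 : τ - ω ≠ 0 := sub_ne_zero.mpr n6
      have e : (σ - ω) * (τ - β) / ((σ - β) * (τ - ω)) =
          ((σ - ω) / (cw σ * cw ω)) * ((τ - β) / (cw τ * cw β)) /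
          (((σ - β) / (cw σ * cw β)) * ((τ - ω) / (cw τ * cw ω))) := by
        field_simp
      rw [e]
      exact E.div_mem (E.mul_mem (hpair _ _ hσ hω) (hpair _ _ hτ hβ))
        (E.mul_mem (hpair _ _ hσ hβ) (hpair _ _ hτ hω))

end Conj

end Pool.Agent.H53.Tame
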