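import Pool.Agent.H53.Tame.Place
import Pool.Agent.H53.Tame.Arch2

/-!
The core theorem.
-/

open Polynomial

namespace Pool.Agent.H53.Tame

universe u

open RM

section

variable {C : Type u} [Field C] [IsAlgClosed C] [CharZero C]

/-- the exponent as a linear functional -/
noncomputable def Lfun {f : RM C} (pd : f.PData) (ν : C → ℝ) : ℝ :=
  ν f.W.leadingCoeff - 2 * ν f.Q.leadingCoeff +
  ((f.W.roots.map (fun c : C => ν (f.kap (c : OnePoint C)))).sum -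
    2 * (f.Q.roots.map (fun c : C => ν (f.kap (c : OnePoint C)))).sum +
    ∑ z ∈ pd.Z, pd.v z * ν (f.kap z)) / f.d

lemma Lfun_lin {f : RM C} (pd : f.PData) : LinComb (Lfun pd) := by
  have hW : f.W.leadingCoeff ≠ 0 := leadingCoeff_ne_zero.mpr f.W_ne
  have hQ : f.Q.leadingCoeff ≠ 0 := leadingCoeff_ne_zero.mpr f.Q_ne
  have h1 := (LinComb.single hW).sub ((LinComb.single hQ).smul 2)
  have h2 := LinComb.msum f.W.roots (fun c : C => f.kap (c : OnePoint C)) (fun c _ => f.kap_ne _)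
  have h3 := LinComb.msum f.Q.roots (fun c : C => f.kap (c : OnePoint C)) (fun c _ => f.kap_ne _)
  have h4 := LinComb.fsum pd.Z pd.v f.kap (fun z _ => f.kap_ne z)
  have h5 := h1.add (((h2.sub (h3.smul 2)).add h4).smul (1 / f.d))
  obtain ⟨r, hr, hr'⟩ := h5
  refine ⟨r, hr, fun ν => ?_⟩
  rw [← hr' ν]
  unfold Lfun
  ring

theorem core [Algebra.IsAlgebraic ℚ C] (f : RM C) (Z : Finset (OnePoint C))
    (hinf : OnePoint.infty ∈ Z) (hZ : ∀ z ∈ Z, f.app z ∈ Z)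
    (hcr : ∀ c ∈ f.W.roots, f.app (c : OnePoint C) ∈ Z)
    {S : Set C} (hback : ∀ z ∈ S, ∀ w ∈ (f.fib z).roots, w ∈ S)
    (hnd : ∀ z ∈ S, (f.fib z).roots.Nodup)
    {β σ ω : C} (hβ : β ∈ S) (hσ : σ ∈ S) (hω : ω ∈ S) (h1 : β ≠ σ) (h2 : β ≠ ω) (h3 : σ ≠ ω)
    (hCR : ∀ v : AbsoluteValue C ℝ, IsNonarchimedean v → ∀ p : ℕ, p.Prime → v p < 1 →
      ∃ Γ : AddSubgroup ℝ, (∀ x : ℝ, (∀ k : ℕ, ∃ g ∈ Γ, x = (p : ℝ) ^ k * g) → x = 0) ∧
        ∀ β ∈ S, ∀ σ ∈ S, ∀ ω ∈ S, ∀ τ ∈ S, β ≠ σ → β ≠ ω → σ ≠ ω → τ ≠ β → τ ≠ σ → τ ≠ ω →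
          Real.log (v ((σ - ω) * (τ - β) / ((σ - β) * (τ - ω)))) ∈ Γ) : False := by
  classical
  obtain ⟨w, w0, w1, weq, wsum⟩ := f.exists_weights Z hinf hZ hcr
  let pd : f.PData := ⟨Z, hinf, hZ, hcr, w, w0, w1, weq, wsum⟩
  have hpos : ∀ σ : C →+* ℂ, 0 < Lfun pd (fun x => Real.log ‖σ x‖) := by
    intro σ
    letI : Algebra C ℂ := σ.toAlgebra
    have h4 := arch_pos pd
    have h5 : Lfun pd (fun x => Real.log ‖σ x‖) = pd.L ℂ := rfl
    rw [h5]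
    have h6 : 0 < Real.log f.d := by
      apply Real.log_pos
      have := f.two_le_d
      exact_mod_cast (by omega : 1 < f.d)
    linarith
  obtain ⟨v, hv, hnt, hneg⟩ := exists_neg_place (Lfun_lin pd) hpos
  obtain ⟨p, hp, hpv, hpm⟩ := res_char v hv hnt
  obtain ⟨Γ, hΓ, hΓ2⟩ := hCR v hv p hp hpv
  obtain ⟨Ω, i1, i2, i3, i4, hn, t, ht⟩ := exists_Omega v hv hnt
  have hL : pd.L Ω < 0 := by
    have h5 : pd.L Ω = Lfun pd (fun x => Real.log (v x)) := by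
      unfold Lfun PData.L
      simp only [hn]
    rw [h5]; exact hneg
  have hdn : DN C Ω := dense_values (by
    obtain ⟨x, hx⟩ := hnt
    exact ⟨x, by rw [hn]; exact hx⟩)
  refine local_contradiction pd hdn hL hback hnd hβ hσ hω h1 h2 h3 ht hp.two_le ?_ Γ hΓ ?_
  · intro m hm
    have h5 : (m : Ω) = algebraMap C Ω (m : C) := by simp
    rw [h5, hn]
    exact hpm m hm
  · intro β hβ σ hσ ω hω τ hτ a1 a2 a3 a4 a5 a6
    rw [hn]
    exact hΓ2 β hβ σ hσ ω hω τ hτ a1 a2 a3 a4 a5 a6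

end

end Pool.Agent.H53.Tame
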