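import Pool.Agent.H53.Tame.Newton

/-!
The derivative controls the number of zeros modulo the residue characteristic.
-/

open Polynomial

namespace Pool.Agent.H53.Tame

section

variable {C : Type*} [Field C] {Ω : Type*} [NormedField Ω] [IsUltrametricDist Ω] [Algebra C Ω]

lemma norm_sub_of_lt {x p : Ω} (h : ‖x‖ < ‖p‖) : ‖x - p‖ = ‖p‖ := by
  rw [norm_sub_rev]
  have h1 : near (p - x) p := by
    unfold near
    have : p - x - p = -x := by ring
    rw [this, norm_neg]; exact h
  exact h1.norm_eq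

/-- the generic factor is at least one -/
lemma generic_k_ge (hdn : DN C Ω) {y ξ : Ω} {r k s : ℝ} {α : C} (h : HR C y r) (hk : 0 < k)
    (hs1 : s ≤ 1)
    (hξ : ∀ p : C, ‖ξ - algebraMap C Ω p‖ = k * ‖y - algebraMap C Ω p‖ * max s (E y r α p)) :
    1 ≤ k := by
  obtain ⟨p, hp0, hp1, _⟩ := hdn (max ‖ξ‖ ‖y‖) (max ‖ξ‖ ‖y‖ + 1)
    (le_max_of_le_left (norm_nonneg _)) (by linarith)
  have h1 := norm_sub_of_lt (lt_of_le_of_lt (le_max_left _ _) hp1)
  have h2 := norm_sub_of_lt (lt_of_le_of_lt (le_max_right _ _) hp1)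
  have h3 := hξ p
  rw [h1, h2] at h3
  have hp : 0 < ‖algebraMap C Ω p‖ :=
    lt_of_le_of_lt (le_max_of_le_left (norm_nonneg _)) hp1
  have h4 : max s (E y r α p) ≤ 1 := max_le hs1 (E_le_one h α p)
  by_contra h5
  push Not at h5
  have h6 : k * ‖algebraMap C Ω p‖ * max s (E y r α p) < ‖algebraMap C Ω p‖ := by
    calc _ ≤ k * ‖algebraMap C Ω p‖ * 1 := mul_le_mul_of_nonneg_left h4 (by positivity)
      _ < _ := by rw [mul_one]; exact mul_lt_of_lt_one_left hp h5
  rw [← h3] at h6
  exact lt_irrefl _ h6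

open Classical in
lemma sum_near_count {α : Type*} (m : Multiset α) (g : α → Ω) (P : α → Prop)
    (h1 : ∀ a ∈ m, P a → ‖g a - 1‖ < 1) (h2 : ∀ a ∈ m, ¬ P a → ‖g a‖ < 1) :
    ‖(m.map g).sum - ((m.filter P).card : Ω)‖ < 1 := by
  induction m using Multiset.induction_on with
  | empty => simp
  | cons a m ih =>
    have ih' := ih (fun p hp => h1 p (Multiset.mem_cons_of_mem hp))
      (fun p hp => h2 p (Multiset.mem_cons_of_mem hp))
    rw [Multiset.map_cons, Multiset.sum_cons, Multiset.filter_cons]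
    by_cases ha : P a
    · rw [if_pos ha, Multiset.card_add, Multiset.card_singleton, Nat.cast_add, Nat.cast_one]
      have e : g a + (m.map g).sum - (1 + ((m.filter P).card : Ω)) =
          (g a - 1) + ((m.map g).sum - ((m.filter P).card : Ω)) := by ring
      rw [e]
      exact lt_of_le_of_lt (IsUltrametricDist.norm_add_le_max _ _)
        (max_lt (h1 a (Multiset.mem_cons_self a m) ha) ih')
    · rw [if_neg ha, zero_add, add_sub_assoc]
      exact lt_of_le_of_lt (IsUltrametricDist.norm_add_le_max _ _)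
        (max_lt (h2 a (Multiset.mem_cons_self a m) ha) ih')

omit [IsUltrametricDist Ω] in
lemma int_dvd_of_norm_lt {p : ℕ} (hp : ∀ m : ℕ, ¬ p ∣ m → ‖(m : Ω)‖ = 1) {N : ℤ}
    (hN : ‖(N : Ω)‖ < 1) : (p : ℤ) ∣ N := by
  by_contra h
  have h1 : ¬ p ∣ N.natAbs := by
    intro h2; exact h (Int.natCast_dvd.mpr h2)
  have h2 := hp _ h1
  have h3 : ‖((N.natAbs : ℕ) : Ω)‖ = ‖(N : Ω)‖ := by
    rcases Int.natAbs_eq N with h4 | h4
    · conv_rhs => rw [h4]
      simp
    · conv_rhs => rw [h4]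
      simp
  rw [h3] at h2
  linarith

omit [IsUltrametricDist Ω] in
lemma pm_le_one {y : Ω} {r : ℝ} [IsUltrametricDist Ω] (h : HR C y r) (F : C[X]) (α : C) {s : ℝ}
    (hs0 : 0 < s) (hs : s ≤ 1) : pm y r F α s ≤ 1 := by
  unfold pm
  generalize F.roots = m
  induction m using Multiset.induction_on with
  | empty => simp
  | cons a m ih =>
    rw [Multiset.map_cons, Multiset.prod_cons]
    have h0 : 0 ≤ (m.map (fun p => max s (E y r α p))).prod := by
      apply Multiset.prod_nonneg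
      intro x hx
      rw [Multiset.mem_map] at hx
      obtain ⟨q, _, rfl⟩ := hx
      exact le_max_of_le_left hs0.le
    exact mul_le_one₀ (max_le hs (E_le_one h α a)) h0 ih

omit [IsUltrametricDist Ω] in
lemma pow_le_pm (y : Ω) (r : ℝ) (F : C[X]) (α : C) {s : ℝ} (hs0 : 0 < s) :
    s ^ F.roots.card ≤ pm y r F α s := by
  unfold pm
  generalize F.roots = m
  induction m using Multiset.induction_on with
  | empty => simp
  | cons a m ih =>
    rw [Multiset.map_cons, Multiset.prod_cons, Multiset.card_cons, pow_succ, mul_comm]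
    exact mul_le_mul (le_max_left _ _) ih (by positivity) (le_max_of_le_left hs0.le)

variable [IsAlgClosed C] [CharZero C]

/-- **Divisibility of the number of zeros minus the number of poles.** -/
theorem dvd_strict (f : RM C) (hdn : DN C Ω) {p : ℕ} (hp : ∀ m : ℕ, ¬ p ∣ m → ‖(m : Ω)‖ = 1)
    {y : Ω} {r : ℝ} (h : HR C y r) {β ω : C}
    (h2 : E y r β ω = 1) {y' : Ω} {r' : ℝ} (hy' : y' ∈ f.pre y) (hr' : HR C y' r') {β' ω' : C}
    (hq : E y' r' β' ω' = 1) {s : ℝ} (hs0 : 0 < s) (hs1 : s ≤ 1)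
    (hδ : f.D y' * r' / r < s ^ (2 * f.d)) :
    (p : ℤ) ∣ (cnt y' r' (f.fib β) β' s : ℤ) - (cnt y' r' (f.fib ω) β' s : ℤ) := by
  classical
  have hr := h.pos
  have hr'0 := hr'.pos
  have hd : 2 ≤ f.d := f.two_le_d
  set δ := f.D y' * r' / r with hδdef
  have hδ0 : 0 ≤ δ := by
    rw [hδdef]; unfold RM.D; positivity
  -- the choice of the value
  set M := (f.fib β).roots + (f.fib ω).roots with hM
  obtain ⟨s1, hs1a, hs1b, hs1c⟩ := exists_gap_lt M (fun p => E y' r' β' p) hs0
  obtain ⟨c, hc0, hcs, hcδ⟩ : ∃ c : ℝ, 0 ≤ c ∧ c < s ∧ c ^ (2 * f.d) = δ := by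
    refine ⟨δ ^ ((2 * f.d : ℕ) : ℝ)⁻¹, Real.rpow_nonneg hδ0 _, ?_, ?_⟩
    · have h5 : (δ ^ ((2 * f.d : ℕ) : ℝ)⁻¹) ^ (2 * f.d) < s ^ (2 * f.d) := by
        rw [Real.rpow_inv_natCast_pow hδ0 (by omega)]; exact hδ
      exact lt_of_pow_lt_pow_left₀ _ hs0.le h5
    · exact Real.rpow_inv_natCast_pow hδ0 (by omega)
  obtain ⟨ϖ, hϖ0, hϖ1, hϖ2⟩ := hdn (max s1 c) s (le_max_of_le_right hc0) (max_lt hs1b hcs)
  obtain ⟨ξ, k, hk, hξ⟩ := exists_generic hr' hq hϖ0 (le_trans hϖ2.le hs1)
  set t := ‖algebraMap C Ω ϖ‖ with ht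
  have hts1 : s1 < t := lt_of_le_of_lt (le_max_left _ _) hϖ1
  have htc : c < t := lt_of_le_of_lt (le_max_right _ _) hϖ1
  have ht0 : 0 < t := lt_trans hs1a hts1
  have ht1 : t ≤ 1 := le_trans hϖ2.le hs1
  have hδt : δ < t ^ (2 * f.d) := by
    rw [← hcδ]; exact pow_lt_pow_left₀ htc hc0 (by omega)
  have hk1 : 1 ≤ k := generic_k_ge hdn hr' hk ht1 hξ
  -- the norms
  have hβ := h.norm_pos β
  have hω := h.norm_pos ω
  have hβ'0 := hr'.norm_pos β'
  have hω'0 := hr'.norm_pos ω'
  have e2 := (E_one_iff h β ω).mp h2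
  have e2' := (E_one_iff hr' β' ω').mp hq
  have hQ := f.Q_ne_of_mem_pre hy'
  have hP := f.mem_pre.mp hy'
  set Qy := (f.Q.map (algebraMap C Ω)).eval y' with hQy
  have hfib : ∀ z : C, ((f.fib z).map (algebraMap C Ω)).eval y' =
      Qy * (y - algebraMap C Ω z) := by
    intro z
    have : ((f.fib z).map (algebraMap C Ω)).eval y' =
        (f.P.map (algebraMap C Ω)).eval y' - algebraMap C Ω z * Qy := by
      unfold RM.fib; simp [hQy]
    rw [this, hP]; ring
  have hQpos : 0 < ‖Qy‖ := norm_pos_iff.mpr hQ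
  have hval : ∀ z : C, ‖((f.fib z).map (algebraMap C Ω)).eval ξ‖ =
      k ^ f.d * (‖Qy‖ * ‖y - algebraMap C Ω z‖) * pm y' r' (f.fib z) β' t := by
    intro z
    rw [norm_eval_generic hξ, f.fib_natDegree, hfib, norm_mul]
  have hξN : ∀ z : C, 0 < ‖ξ - algebraMap C Ω z‖ := by
    intro z
    rw [hξ z]
    have := hr'.norm_pos z
    have : 0 < max t (E y' r' β' z) := lt_max_of_lt_left ht0
    positivity
  have hξne : ∀ z : C, ξ - algebraMap C Ω z ≠ 0 := fun z => norm_pos_iff.mp (hξN z)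
  have hval0 : ∀ z : C, ((f.fib z).map (algebraMap C Ω)).eval ξ ≠ 0 := by
    intro z
    rw [← norm_pos_iff, hval z]
    have h5 := h.norm_pos z
    have h6 := pm_pos y' r' (f.fib z) β' ht0
    positivity
  have hβω' : 0 < ‖algebraMap C Ω (β' - ω')‖ := by
    have : 0 < r' * ‖algebraMap C Ω (β' - ω')‖ := by rw [e2']; positivity
    exact pos_of_mul_pos_right this hr'0.le
  have hβω'ne : algebraMap C Ω (β' - ω') ≠ 0 := norm_pos_iff.mp hβω'
  -- the function g
  let g : C → Ω := fun a => (ξ - algebraMap C Ω β') * algebraMap C Ω (a - ω') /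
    ((ξ - algebraMap C Ω a) * algebraMap C Ω (β' - ω'))
  have hga : ∀ a : C, ‖g a‖ = t * E y' r' ω' a / max t (E y' r' β' a) := by
    intro a
    have h5 := hr'.norm_pos a
    have hmax : 0 < max t (E y' r' β' a) := lt_max_of_lt_left ht0
    have h6 : r' * ‖algebraMap C Ω (a - ω')‖ = E y' r' ω' a *
        (‖y' - algebraMap C Ω ω'‖ * ‖y' - algebraMap C Ω a‖) := by
      unfold E
      have : ‖algebraMap C Ω (a - ω')‖ = ‖algebraMap C Ω (ω' - a)‖ := by
        rw [map_sub, map_sub, norm_sub_rev]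
      rw [this]; field_simp
    have h7 : ‖ξ - algebraMap C Ω β'‖ = k * ‖y' - algebraMap C Ω β'‖ * t := by
      rw [hξ β', E_self, max_eq_left ht0.le]
    show ‖(ξ - algebraMap C Ω β') * algebraMap C Ω (a - ω') /
      ((ξ - algebraMap C Ω a) * algebraMap C Ω (β' - ω'))‖ = _
    rw [norm_div, norm_mul, norm_mul, h7, hξ a]
    rw [div_eq_div_iff (by positivity) (by positivity)]
    apply mul_left_cancel₀ hr'0.ne'
    calc r' * (k * ‖y' - algebraMap C Ω β'‖ * t * ‖algebraMap C Ω (a - ω')‖ *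
          max t (E y' r' β' a)) =
        k * ‖y' - algebraMap C Ω β'‖ * t * (r' * ‖algebraMap C Ω (a - ω')‖) *
          max t (E y' r' β' a) := by ring
      _ = t * E y' r' ω' a * (k * ‖y' - algebraMap C Ω a‖ * max t (E y' r' β' a)) *
          (‖y' - algebraMap C Ω β'‖ * ‖y' - algebraMap C Ω ω'‖) := by rw [h6]; ring
      _ = _ := by rw [← e2']; ring
  have hga1 : ∀ a : C, ‖g a - 1‖ = E y' r' β' a / max t (E y' r' β' a) := by
    intro a
    have h5 := hr'.norm_pos a
    have hmax : 0 < max t (E y' r' β' a) := lt_max_of_lt_left ht0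
    have h6 : r' * ‖algebraMap C Ω (a - β')‖ = E y' r' β' a *
        (‖y' - algebraMap C Ω β'‖ * ‖y' - algebraMap C Ω a‖) := by
      unfold E
      have : ‖algebraMap C Ω (a - β')‖ = ‖algebraMap C Ω (β' - a)‖ := by
        rw [map_sub, map_sub, norm_sub_rev]
      rw [this]; field_simp
    have h7 : ‖ξ - algebraMap C Ω ω'‖ = k * ‖y' - algebraMap C Ω ω'‖ := by
      rw [hξ ω', hq, max_eq_right ht1, mul_one]
    have e : g a - 1 = algebraMap C Ω (a - β') * (ξ - algebraMap C Ω ω') /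
        ((ξ - algebraMap C Ω a) * algebraMap C Ω (β' - ω')) := by
      have h8 := hξne a
      show (ξ - algebraMap C Ω β') * algebraMap C Ω (a - ω') /
        ((ξ - algebraMap C Ω a) * algebraMap C Ω (β' - ω')) - 1 = _
      rw [div_sub_one (mul_ne_zero h8 hβω'ne)]
      congr 1
      simp only [map_sub]
      ring
    rw [e, norm_div, norm_mul, norm_mul, h7, hξ a]
    rw [div_eq_div_iff (by positivity) (by positivity)]
    apply mul_left_cancel₀ hr'0.ne'
    calc r' * (‖algebraMap C Ω (a - β')‖ * (k * ‖y' - algebraMap C Ω ω'‖) *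
          max t (E y' r' β' a)) =
        (r' * ‖algebraMap C Ω (a - β')‖) * (k * ‖y' - algebraMap C Ω ω'‖) *
          max t (E y' r' β' a) := by ring
      _ = E y' r' β' a * (k * ‖y' - algebraMap C Ω a‖ * max t (E y' r' β' a)) *
          (‖y' - algebraMap C Ω β'‖ * ‖y' - algebraMap C Ω ω'‖) := by rw [h6]; ring
      _ = _ := by rw [← e2']; ring
  have hnc : ∀ m : Multiset C, (∀ a ∈ m, E y' r' β' a < s → E y' r' β' a < s1) →
      ‖(m.map g).sum - ((m.filter (fun a => E y' r' β' a < s)).card : Ω)‖ < 1 := by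
    intro m hm
    apply sum_near_count
    · intro a ha h5
      have h6 : E y' r' β' a < t := lt_trans (hm a ha h5) hts1
      rw [hga1 a, max_eq_left h6.le, div_lt_one ht0]; exact h6
    · intro a ha h5
      have h6 : t < E y' r' β' a := lt_of_lt_of_le hϖ2 (not_lt.mp h5)
      rw [hga a, max_eq_right h6.le, div_lt_one (lt_trans ht0 h6)]
      have h7 := E_le_one hr' ω' a
      calc t * E y' r' ω' a ≤ t * 1 := mul_le_mul_of_nonneg_left h7 ht0.le
        _ < _ := by rw [mul_one]; exact h6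
  have hn1 := hnc (f.fib β).roots (fun a ha h5 => hs1c a (by simp [hM, Multiset.mem_add, ha]) h5)
  have hn2 := hnc (f.fib ω).roots (fun a ha h5 => hs1c a (by simp [hM, Multiset.mem_add, ha]) h5)
  -- the logarithmic derivative
  have hsum : ∀ m : Multiset C, (m.map g).sum = (ξ - algebraMap C Ω β') * (ξ - algebraMap C Ω ω') /
      algebraMap C Ω (β' - ω') * (m.map (fun a => 1 / (ξ - algebraMap C Ω a))).sum -
      (m.card : Ω) * ((ξ - algebraMap C Ω β') / algebraMap C Ω (β' - ω')) := by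
    intro m
    induction m using Multiset.induction_on with
    | empty => simp
    | cons a m ih =>
      rw [Multiset.map_cons, Multiset.sum_cons, ih, Multiset.map_cons, Multiset.sum_cons,
        Multiset.card_cons]
      have h8 := hξne a
      have : g a = (ξ - algebraMap C Ω β') * (ξ - algebraMap C Ω ω') /
        algebraMap C Ω (β' - ω') * (1 / (ξ - algebraMap C Ω a)) -
        (ξ - algebraMap C Ω β') / algebraMap C Ω (β' - ω') := by
        show (ξ - algebraMap C Ω β') * algebraMap C Ω (a - ω') /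
          ((ξ - algebraMap C Ω a) * algebraMap C Ω (β' - ω')) = _
        have h9 : algebraMap C Ω (a - ω') = algebraMap C Ω a - algebraMap C Ω ω' := map_sub _ _ _
        rw [h9]
        field_simp
        ring
      rw [this]
      push_cast
      ring
  have hlogd : ∀ z : C, (((f.fib z).roots).map (fun a => 1 / (ξ - algebraMap C Ω a))).sum =
      ((derivative (f.fib z)).map (algebraMap C Ω)).eval ξ /
        ((f.fib z).map (algebraMap C Ω)).eval ξ := by
    intro z
    have hs := (IsAlgClosed.splits (f.fib z)).map (algebraMap C Ω)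
    have h5 := hs.eval_derivative_div_eval_of_ne_zero (hval0 z)
    rw [(IsAlgClosed.splits (f.fib z)).roots_map, Multiset.map_map, derivative_map] at h5
    rw [h5]; rfl
  have hH : (((f.fib β).roots).map g).sum - (((f.fib ω).roots).map g).sum =
      (ξ - algebraMap C Ω β') * (ξ - algebraMap C Ω ω') / algebraMap C Ω (β' - ω') *
      (algebraMap C Ω (β - ω) * (f.W.map (algebraMap C Ω)).eval ξ /
        (((f.fib β).map (algebraMap C Ω)).eval ξ * ((f.fib ω).map (algebraMap C Ω)).eval ξ)) := by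
    rw [hsum, hsum, f.card_fib_roots, f.card_fib_roots, hlogd, hlogd]
    have h5 := hval0 β
    have h6 := hval0 ω
    have h7 : ((derivative (f.fib β)).map (algebraMap C Ω)).eval ξ *
        ((f.fib ω).map (algebraMap C Ω)).eval ξ -
        ((f.fib β).map (algebraMap C Ω)).eval ξ *
        ((derivative (f.fib ω)).map (algebraMap C Ω)).eval ξ =
        algebraMap C Ω (β - ω) * (f.W.map (algebraMap C Ω)).eval ξ := by
      unfold RM.fib RM.W
      simp only [derivative_sub, derivative_mul, derivative_C, zero_mul, zero_add,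
        Polynomial.map_sub, Polynomial.map_mul, Polynomial.map_C, eval_sub, eval_mul, eval_C,
        map_sub]
      ring
    rw [← h7]
    field_simp
    ring
  have hHn : ‖(((f.fib β).roots).map g).sum - (((f.fib ω).roots).map g).sum‖ < 1 := by
    rw [hH]
    have h7 : ‖ξ - algebraMap C Ω β'‖ = k * ‖y' - algebraMap C Ω β'‖ * t := by
      rw [hξ β', E_self, max_eq_left ht0.le]
    have h8 : ‖ξ - algebraMap C Ω ω'‖ = k * ‖y' - algebraMap C Ω ω'‖ := by
      rw [hξ ω', hq, max_eq_right ht1, mul_one]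
    rw [norm_mul, norm_div, norm_mul, norm_div, norm_mul, norm_mul, h7, h8, hval, hval,
      norm_eval_generic hξ]
    have hWd : f.W.natDegree + 2 ≤ 2 * f.d := by
      rw [f.W_natDegree]
      have := f.lt
      unfold RM.d
      unfold RM.d at hd
      omega
    have p1 := pm_pos y' r' (f.fib β) β' ht0
    have p2 := pm_pos y' r' (f.fib ω) β' ht0
    have p3 := pm_pos y' r' f.W β' ht0
    have q1 := pow_le_pm y' r' (f.fib β) β' ht0
    have q2 := pow_le_pm y' r' (f.fib ω) β' ht0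
    have q3 := pm_le_one hr' f.W β' ht0 ht1
    rw [f.card_fib_roots] at q1 q2
    have hD : f.D y' = ‖(f.W.map (algebraMap C Ω)).eval y'‖ / ‖Qy‖ ^ 2 := rfl
    have e : k * ‖y' - algebraMap C Ω β'‖ * t * (k * ‖y' - algebraMap C Ω ω'‖) /
        ‖algebraMap C Ω (β' - ω')‖ *
        (‖algebraMap C Ω (β - ω)‖ * (k ^ f.W.natDegree *
          ‖(f.W.map (algebraMap C Ω)).eval y'‖ * pm y' r' f.W β' t) /
          (k ^ f.d * (‖Qy‖ * ‖y - algebraMap C Ω β‖) * pm y' r' (f.fib β) β' t *
          (k ^ f.d * (‖Qy‖ * ‖y - algebraMap C Ω ω‖) * pm y' r' (f.fib ω) β' t))) =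
        δ * (k ^ (f.W.natDegree + 2) / k ^ (2 * f.d)) * (t * pm y' r' f.W β' t) /
          (pm y' r' (f.fib β) β' t * pm y' r' (f.fib ω) β' t) := by
      have f1 : ‖algebraMap C Ω (β - ω)‖ = ‖y - algebraMap C Ω β‖ * ‖y - algebraMap C Ω ω‖ / r := by
        rw [← e2]; field_simp
      have f2 : ‖algebraMap C Ω (β' - ω')‖ =
          ‖y' - algebraMap C Ω β'‖ * ‖y' - algebraMap C Ω ω'‖ / r' := by
        rw [← e2']; field_simp
      rw [f1, f2, hδdef, hD]
      field_simp
      ring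
    rw [e]
    have g1 : k ^ (f.W.natDegree + 2) / k ^ (2 * f.d) ≤ 1 := by
      rw [div_le_one (by positivity)]
      exact pow_le_pow_right₀ hk1 hWd
    have g1' : 0 ≤ k ^ (f.W.natDegree + 2) / k ^ (2 * f.d) := by positivity
    have g2 : t * pm y' r' f.W β' t ≤ 1 := mul_le_one₀ ht1 p3.le q3
    rw [div_lt_one (by positivity)]
    calc δ * (k ^ (f.W.natDegree + 2) / k ^ (2 * f.d)) * (t * pm y' r' f.W β' t)
        ≤ δ * 1 * 1 := by
          apply mul_le_mul _ g2 (by positivity) (by positivity)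
          exact mul_le_mul_of_nonneg_left g1 hδ0
      _ < t ^ (2 * f.d) := by rw [mul_one, mul_one]; exact hδt
      _ = t ^ f.d * t ^ f.d := by rw [two_mul, pow_add]
      _ ≤ _ := mul_le_mul q1 q2 (by positivity) p1.le
  apply int_dvd_of_norm_lt hp
  push_cast
  have e : ((cnt y' r' (f.fib β) β' s : ℕ) : Ω) - ((cnt y' r' (f.fib ω) β' s : ℕ) : Ω) =
      ((((f.fib β).roots).map g).sum - (((f.fib ω).roots).map g).sum) +
      (-((((f.fib β).roots).map g).sum - ((cnt y' r' (f.fib β) β' s : ℕ) : Ω)) +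
      ((((f.fib ω).roots).map g).sum - ((cnt y' r' (f.fib ω) β' s : ℕ) : Ω))) := by ring
  rw [e]
  refine lt_of_le_of_lt (IsUltrametricDist.norm_add_le_max _ _) (max_lt hHn ?_)
  refine lt_of_le_of_lt (IsUltrametricDist.norm_add_le_max _ _) (max_lt ?_ hn2)
  rw [norm_neg]; exact hn1

end

end Pool.Agent.H53.Tame
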