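import Pool.Agent.H53.Tame.Core

/-!
Values of a nonarchimedean absolute value on a number field.
-/

open Polynomial NumberField IsDedekindDomain

namespace Pool.Agent.H53.Tame

section

variable {E : Type*} [Field E]

lemma int_le_one (v : AbsoluteValue E ℝ) (hv : IsNonarchimedean v) (a : ℤ) : v (a : E) ≤ 1 := by
  have hnat : ∀ m : ℕ, v (m : E) ≤ 1 := by
    intro m
    induction m with
    | zero => simp
    | succ m ih =>
      push_cast
      refine le_trans (hv _ _) (max_le ih (by rw [map_one]))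
  rcases Int.natAbs_eq a with h4 | h4
  · rw [h4, Int.cast_natCast]; exact hnat _
  · rw [h4, Int.cast_neg, Int.cast_natCast, AbsoluteValue.map_neg]; exact hnat _

lemma isIntegral_le_one (v : AbsoluteValue E ℝ) (hv : IsNonarchimedean v) {x : E}
    (hx : IsIntegral ℤ x) : v x ≤ 1 := by
  by_contra hx1
  push Not at hx1
  obtain ⟨P, hmon, h3⟩ := hx
  have hxp : 0 < v x := by linarith
  have h3' : (aeval x) P = 0 := h3
  rw [aeval_eq_sum_range, Finset.sum_range_succ, hmon.coeff_natDegree, one_smul] at h3'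
  have hsum : ∀ s : Finset ℕ, (∀ i ∈ s, i < P.natDegree) →
      v (∑ i ∈ s, P.coeff i • x ^ i) < v x ^ P.natDegree := by
    intro s
    induction s using Finset.induction_on with
    | empty => intro _; simp; positivity
    | insert a s ha ih =>
      intro hs
      rw [Finset.sum_insert ha]
      refine lt_of_le_of_lt (hv _ _) (max_lt ?_ (ih (fun i hi => hs i (Finset.mem_insert_of_mem hi))))
      rw [zsmul_eq_mul, map_mul, map_pow]
      have h4 := hs a (Finset.mem_insert_self a s)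
      have h5 : v x ^ a < v x ^ P.natDegree := pow_lt_pow_right₀ hx1 h4
      have h6 := int_le_one v hv (P.coeff a)
      have h7 : 0 < v x ^ a := by positivity
      nlinarith
  have h4 := hsum (Finset.range P.natDegree) (fun i hi => Finset.mem_range.mp hi)
  have h5 : x ^ P.natDegree = -(∑ i ∈ Finset.range P.natDegree, P.coeff i • x ^ i) := by
    rw [eq_neg_iff_add_eq_zero, add_comm]; exact h3'
  have h6 : v x ^ P.natDegree = v (∑ i ∈ Finset.range P.natDegree, P.coeff i • x ^ i) := by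
    rw [← map_pow, h5, AbsoluteValue.map_neg]
  linarith

/-- the ideal of an absolute value -/
def idealOf (v : AbsoluteValue E ℝ) (hv : IsNonarchimedean v) : Ideal (𝓞 E) where
  carrier := {x | v (x : E) < 1}
  add_mem' := by
    intro a b ha hb
    show v ((a + b : 𝓞 E) : E) < 1
    rw [show ((a + b : 𝓞 E) : E) = (a : E) + (b : E) from rfl]
    exact lt_of_le_of_lt (hv _ _) (max_lt ha hb)
  zero_mem' := by
    show v ((0 : 𝓞 E) : E) < 1
    rw [show ((0 : 𝓞 E) : E) = 0 from rfl, map_zero]; exact one_pos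
  smul_mem' := by
    intro c x hx
    show v ((c * x : 𝓞 E) : E) < 1
    rw [show ((c * x : 𝓞 E) : E) = (c : E) * (x : E) from rfl, map_mul]
    have h1 : v (c : E) ≤ 1 := isIntegral_le_one v hv c.2
    have h2 : v (x : E) < 1 := hx
    have h3 := v.nonneg (x : E)
    nlinarith

lemma mem_idealOf {v : AbsoluteValue E ℝ} {hv : IsNonarchimedean v} {x : 𝓞 E} :
    x ∈ idealOf v hv ↔ v (x : E) < 1 := Iff.rfl

lemma idealOf_isPrime (v : AbsoluteValue E ℝ) (hv : IsNonarchimedean v) :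
    (idealOf v hv).IsPrime := by
  refine ⟨?_, ?_⟩
  · intro h
    have h1 : (1 : 𝓞 E) ∈ idealOf v hv := by rw [h]; trivial
    rw [mem_idealOf] at h1
    have h2 : v ((1 : 𝓞 E) : E) = 1 := by
      rw [show ((1 : 𝓞 E) : E) = 1 from rfl, map_one]
    linarith
  · intro x y hxy
    rw [mem_idealOf] at hxy
    rw [mem_idealOf, mem_idealOf]
    by_contra h
    push Not at h
    have h1 : v (x : E) ≤ 1 := isIntegral_le_one v hv x.2
    have h2 : v (y : E) ≤ 1 := isIntegral_le_one v hv y.2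
    rw [show ((x * y : 𝓞 E) : E) = (x : E) * (y : E) from rfl, map_mul,
      le_antisymm h1 h.1, le_antisymm h2 h.2] at hxy
    norm_num at hxy

variable [NumberField E]

/-- the prime of an absolute value -/
noncomputable def primeOf (v : AbsoluteValue E ℝ) (hv : IsNonarchimedean v) {p : ℕ}
    (hp : p ≠ 0) (hpv : v (p : E) < 1) : HeightOneSpectrum (𝓞 E) where
  asIdeal := idealOf v hv
  isPrime := idealOf_isPrime v hv
  ne_bot := by
    intro h
    have h1 : ((p : ℕ) : 𝓞 E) ∈ idealOf v hv := by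
      rw [mem_idealOf]
      rw [show (((p : ℕ) : 𝓞 E) : E) = (p : E) from by simp]
      exact hpv
    rw [h, Ideal.mem_bot] at h1
    exact hp (by exact_mod_cast h1)

lemma val_one {v : AbsoluteValue E ℝ} {hv : IsNonarchimedean v} {p : ℕ}
    (hp : p ≠ 0) (hpv : v (p : E) < 1) {x : E}
    (hx : (primeOf v hv hp hpv).valuation E x ≤ 1) : v x ≤ 1 := by
  obtain ⟨n, d, h⟩ := HeightOneSpectrum.exists_primeCompl_mul_eq_of_integer
    (primeOf v hv hp hpv) x hx
  have h1 : v ((d : 𝓞 E) : E) = 1 := by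
    apply le_antisymm (isIntegral_le_one v hv (d : 𝓞 E).2)
    have h2 : (d : 𝓞 E) ∉ idealOf v hv := d.2
    rw [mem_idealOf] at h2
    exact not_lt.mp h2
  have h2 : v (n : E) ≤ 1 := isIntegral_le_one v hv n.2
  have h3 := congrArg v h
  rw [map_mul] at h3
  have h4 : v (algebraMap (𝓞 E) E d) = 1 := h1
  have h5 : v (algebraMap (𝓞 E) E n) ≤ 1 := h2
  rw [h4, mul_one] at h3
  rw [h3]; exact h5

open WithZero in
lemma val_pow {v : AbsoluteValue E ℝ} {hv : IsNonarchimedean v} {p : ℕ}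
    (hp : p ≠ 0) (hpv : v (p : E) < 1) {π x : E} {k : ℤ}
    (hπ : (primeOf v hv hp hpv).valuation E π = exp (-1 : ℤ))
    (hx : (primeOf v hv hp hpv).valuation E x = exp (-k)) : v x = v π ^ k := by
  have hπ0 : π ≠ 0 := by
    rintro rfl
    rw [map_zero] at hπ
    exact exp_ne_zero hπ.symm
  have h1 : (primeOf v hv hp hpv).valuation E (x / π ^ k) = 1 := by
    rw [map_div₀, map_zpow₀, hπ, hx, ← exp_zsmul]
    rw [div_eq_one_iff_eq exp_ne_zero]
    congr 1
    simp
  have h2 := val_one hp hpv h1.le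
  have h3 := val_one hp hpv (x := (x / π ^ k)⁻¹) (by rw [map_inv₀, h1, inv_one])
  rw [map_inv₀] at h3
  have hx0 : x ≠ 0 := by
    rintro rfl
    rw [map_zero] at hx
    exact exp_ne_zero hx.symm
  have h4 : 0 < v (x / π ^ k) := v.pos (div_ne_zero hx0 (zpow_ne_zero _ hπ0))
  have h5 : v (x / π ^ k) = 1 := le_antisymm h2 ((inv_le_one₀ h4).mp h3)
  rw [map_div₀, map_zpow₀, div_eq_one_iff_eq] at h5
  · exact h5
  · exact (zpow_pos (v.pos hπ0) _).ne'

end

section

variable {K E : Type*} [Field K] [NumberField K] [Field E] [NumberField E] [Algebra K E]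

lemma under_idealOf (v : AbsoluteValue E ℝ) (hv : IsNonarchimedean v) (v0 : AbsoluteValue K ℝ)
    (hv0 : IsNonarchimedean v0) (hvv : ∀ x : K, v0 x = v (algebraMap K E x)) :
    (idealOf v hv).under (𝓞 K) = idealOf v0 hv0 := by
  ext x
  rw [Ideal.under_def, Ideal.mem_comap, mem_idealOf, mem_idealOf, hvv]
  rfl

open WithZero in
/-- the values on the extension -/
lemma ramified_values (v : AbsoluteValue E ℝ) (hv : IsNonarchimedean v) (v0 : AbsoluteValue K ℝ)
    (hv0 : IsNonarchimedean v0) (hvv : ∀ x : K, v0 x = v (algebraMap K E x)) {p : ℕ}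
    (hp : p ≠ 0) (hpv : v0 (p : K) < 1) {ϖ : K}
    (hϖ : (primeOf v0 hv0 hp hpv).valuation K ϖ = exp (-1 : ℤ)) {x : E} (hx : x ≠ 0) :
    ∃ m : ℤ, (Ideal.ramificationIdx' ((idealOf v hv).under (𝓞 K)) (idealOf v hv) : ℝ) *
      Real.log (v x) = m * Real.log (v0 ϖ) := by
  have hpv' : v (p : E) < 1 := by
    have h0 := hvv (p : K)
    rw [map_natCast (algebraMap K E) p] at h0
    rw [← h0]; exact hpv
  set w := primeOf v hv hp hpv' with hw
  set w0 := primeOf v0 hv0 hp hpv with hw0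
  have hunder := under_idealOf v hv v0 hv0 hvv
  haveI : w.asIdeal.LiesOver w0.asIdeal := ⟨hunder.symm⟩
  obtain ⟨π, hπ⟩ := w.valuation_exists_uniformizer E
  have h1 := HeightOneSpectrum.valuation_liesOver E w0 w ϖ
  rw [hϖ, ← exp_nsmul] at h1
  set e := Ideal.ramificationIdx' w0.asIdeal w.asIdeal with he
  have h2 : w.valuation E (algebraMap K E ϖ) = exp (-(e : ℤ)) := by
    rw [← h1]; congr 1; simp
  have h3 := val_pow hp hpv' hπ h2
  obtain ⟨k, hk⟩ : ∃ k : ℤ, w.valuation E x = exp (-k) := by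
    have h4 : w.valuation E x ≠ 0 := by
      rw [Ne, map_eq_zero]; exact hx
    refine ⟨-(w.valuation E x).log, ?_⟩
    rw [neg_neg, exp_log h4]
  have h4 := val_pow hp hpv' hπ hk
  refine ⟨k, ?_⟩
  have h5 : Ideal.ramificationIdx' ((idealOf v hv).under (𝓞 K)) (idealOf v hv) = e := by
    rw [hunder]
    rfl
  rw [h5, h4, hvv, h3, Real.log_zpow, Real.log_zpow]
  push_cast
  ring

end

section Gamma

/-- the group of values -/
def Gam (c : ℝ) {p : ℕ} (hp : p.Prime) : AddSubgroup ℝ where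
  carrier := {x | ∃ (a : ℤ) (b : ℕ), ¬ p ∣ b ∧ (b : ℝ) * x = a * c}
  zero_mem' := ⟨0, 1, by
    intro h
    exact hp.one_lt.ne' (Nat.dvd_one.mp h), by simp⟩
  add_mem' := by
    rintro x y ⟨a, b, hb, h⟩ ⟨a', b', hb', h'⟩
    refine ⟨a * b' + a' * b, b * b', ?_, ?_⟩
    · intro h0
      rcases (Nat.Prime.dvd_mul hp).mp h0 with h1 | h1
      · exact hb h1
      · exact hb' h1
    · push_cast
      linear_combination (b' : ℝ) * h + (b : ℝ) * h'
  neg_mem' := by
    rintro x ⟨a, b, hb, h⟩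
    refine ⟨-a, b, hb, ?_⟩
    push_cast
    linear_combination -h

lemma Gam_inter {c : ℝ} (hc : c ≠ 0) {p : ℕ} (hp : p.Prime) (x : ℝ)
    (hx : ∀ k : ℕ, ∃ g ∈ Gam c hp, x = (p : ℝ) ^ k * g) : x = 0 := by
  obtain ⟨g, ⟨a, b, hb, h⟩, hg⟩ := hx 0
  rw [pow_zero, one_mul] at hg
  rw [← hg] at h
  have hb0 : b ≠ 0 := by
    rintro rfl
    exact hb (dvd_zero p)
  have ha : ∀ k : ℕ, ((p : ℤ) ^ k) ∣ a := by
    intro k
    obtain ⟨g', ⟨a', b', hb', h'⟩, hg'⟩ := hx k
    have h1 : (b' : ℝ) * (a * c) = b * ((p : ℝ) ^ k * (a' * c)) := by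
      rw [← h, ← h']
      conv_lhs => rw [hg']
      ring
    have h2 : (b' : ℝ) * a = b * ((p : ℝ) ^ k * a') := by
      apply mul_right_cancel₀ hc
      linear_combination h1
    have h3 : (b' : ℤ) * a = b * ((p : ℤ) ^ k * a') := by exact_mod_cast h2
    have h4 : ((p : ℤ) ^ k) ∣ (b' : ℤ) * a := by
      rw [h3]; exact ⟨b * a', by ring⟩
    have h5 : IsCoprime ((p : ℤ) ^ k) (b' : ℤ) := by
      apply IsCoprime.pow_left
      rw [Nat.isCoprime_iff_coprime]
      exact (Nat.Prime.coprime_iff_not_dvd hp).mpr hb'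
    exact h5.dvd_of_dvd_mul_left h4
  have ha0 : a = 0 := by
    by_contra hne
    have h1 := Int.le_of_dvd (abs_pos.mpr hne) ((dvd_abs _ _).mpr (ha a.natAbs))
    have h2 : a.natAbs < p ^ a.natAbs := Nat.lt_pow_self hp.one_lt
    have h3 : (a.natAbs : ℤ) < (p : ℤ) ^ a.natAbs := by exact_mod_cast h2
    rw [Int.natCast_natAbs] at h3
    linarith
  rw [ha0] at h
  have hb0' : (b : ℝ) ≠ 0 := by exact_mod_cast hb0
  have h6 : (b : ℝ) * x = 0 := by rw [h]; simp
  rcases mul_eq_zero.mp h6 with h7 | h7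
  · exact absurd h7 hb0'
  · exact h7

/-- the group of values with bounded denominators -/
def GamK (c : ℝ) {p : ℕ} (hp : p.Prime) (k : ℕ) : AddSubgroup ℝ :=
  (Gam c hp).comap (AddMonoidHom.mulLeft ((p : ℝ) ^ k))

lemma GamK_inter {c : ℝ} (hc : c ≠ 0) {p : ℕ} (hp : p.Prime) (k : ℕ) (x : ℝ)
    (hx : ∀ m : ℕ, ∃ g ∈ GamK c hp k, x = (p : ℝ) ^ m * g) : x = 0 := by
  have hp0 : (p : ℝ) ^ k ≠ 0 := pow_ne_zero _ (by exact_mod_cast hp.ne_zero)
  have h1 : (p : ℝ) ^ k * x = 0 := by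
    apply Gam_inter hc hp
    intro m
    obtain ⟨g, hg, hg'⟩ := hx m
    refine ⟨(p : ℝ) ^ k * g, hg, ?_⟩
    rw [hg']; ring
  exact (mul_eq_zero.mp h1).resolve_left hp0

lemma mem_GamK {c : ℝ} {p : ℕ} (hp : p.Prime) {k : ℕ} {x : ℝ} {a : ℤ} {b : ℕ}
    (hb : ¬ p ^ k ∣ b) (h : (b : ℝ) * x = a * c) : x ∈ GamK c hp k := by
  have hb0 : b ≠ 0 := by
    rintro rfl
    exact hb (dvd_zero _)
  obtain ⟨j, b', hb', hbj⟩ := Nat.exists_eq_pow_mul_and_not_dvd hb0 p hp.one_lt.ne'
  have hjk : j < k := by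
    by_contra hjk
    push Not at hjk
    apply hb
    rw [hbj]
    exact Dvd.dvd.mul_right (pow_dvd_pow p hjk) b'
  obtain ⟨i, rfl⟩ : ∃ i, k = j + i := ⟨k - j, by omega⟩
  refine ⟨a * (p : ℤ) ^ i, b', hb', ?_⟩
  show (b' : ℝ) * ((p : ℝ) ^ (j + i) * x) = _
  rw [hbj] at h
  push_cast at h ⊢
  rw [pow_add]
  linear_combination ((p : ℝ) ^ i) * h

end Gamma

end Pool.Agent.H53.Tame
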