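import Pool.Agent.H53.Tame.Conj
import Pool.Agent.H53.Tame.Num

/-!
The final theorem.
-/

open Polynomial NumberField IsDedekindDomain

namespace Pool.Agent.H53.Tame

universe u

/-- The field generated over `K` by the coordinates of the `n`-th preimages of `α`. -/
noncomputable def Kn {K : Type u} [Field K] (P Q : K[X]) (α : OnePoint K) (n : ℕ) :
    IntermediateField K (AlgebraicClosure K) :=
  IntermediateField.adjoin K {z : AlgebraicClosure K |
    (rmap P Q (AlgebraicClosure K))^[n] (z : OnePoint (AlgebraicClosure K)) =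
      OnePoint.map (algebraMap K (AlgebraicClosure K)) α}

section

variable {C : Type*} [Field C] [IsAlgClosed C]

lemma RM.app_surjective (f : RM C) : Function.Surjective f.app := by
  intro x
  induction x using OnePoint.rec with
  | infty => exact ⟨OnePoint.infty, f.app_infty⟩
  | coe z =>
    have h1 := f.card_fib_roots z
    have h2 := f.two_le_d
    obtain ⟨w, hw⟩ := Multiset.card_pos_iff_exists_mem.mp (by omega : 0 < (f.fib z).roots.card)
    exact ⟨w, f.app_eq_coe_iff.mpr hw⟩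

omit [IsAlgClosed C] in
lemma RM.fib_finite (f : RM C) (x : OnePoint C) : (f.app ⁻¹' {x}).Finite := by
  classical
  induction x using OnePoint.rec with
  | infty =>
    refine ((Finset.finite_toSet (f.Q.roots.toFinset.image (fun c : C => (c : OnePoint C)))).union
      (Set.finite_singleton OnePoint.infty)).subset ?_
    intro w hw
    induction w using OnePoint.rec with
    | infty => right; rfl
    | coe w =>
      left
      rw [Finset.mem_coe, Finset.mem_image]
      exact ⟨w, Multiset.mem_toFinset.mpr (f.app_eq_infty_iff.mp hw), rfl⟩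
  | coe z =>
    refine (Finset.finite_toSet ((f.fib z).roots.toFinset.image
      (fun c : C => (c : OnePoint C)))).subset ?_
    intro w hw
    induction w using OnePoint.rec with
    | infty => exact absurd hw.symm (OnePoint.coe_ne_infty z)
    | coe w =>
      rw [Finset.mem_coe, Finset.mem_image]
      exact ⟨w, Multiset.mem_toFinset.mpr (f.app_eq_coe_iff.mp hw), rfl⟩

end

/-- restriction of an absolute value -/
def absComp {E C : Type*} [Field E] [Field C] (v : AbsoluteValue C ℝ) (i : E →+* C) :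
    AbsoluteValue E ℝ where
  toFun x := v (i x)
  map_mul' x y := by rw [map_mul, map_mul]
  nonneg' x := v.nonneg _
  eq_zero' x := by rw [AbsoluteValue.eq_zero, map_eq_zero]
  add_le' x y := by rw [map_add]; exact v.add_le _ _

lemma absComp_na {E C : Type*} [Field E] [Field C] {v : AbsoluteValue C ℝ}
    (hv : IsNonarchimedean v) (i : E →+* C) : IsNonarchimedean (absComp v i) := by
  intro x y
  show v (i (x + y)) ≤ max (v (i x)) (v (i y))
  rw [map_add]; exact hv _ _

lemma InE_rmap {K : Type*} [Field K] {C : Type*} [Field C] [Algebra K C] (P Q : K[X])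
    {E : IntermediateField K C} {x : OnePoint C} (hx : InE E x) : InE E (rmap P Q C x) := by
  intro z hz
  have haev : ∀ (F : K[X]) (y : C), y ∈ E → aeval y F ∈ E := by
    intro F y hy
    rw [aeval_eq_sum_range]
    exact E.sum_mem (fun i _ => E.smul_mem (_root_.pow_mem hy i))
  induction x using OnePoint.rec with
  | infty =>
    by_cases h : Q.coeff (rdeg P Q) = 0
    · rw [rmap_infty_of P Q h] at hz
      exact absurd hz.symm (OnePoint.coe_ne_infty z)
    · rw [rmap_infty_ne P Q h, OnePoint.coe_eq_coe] at hz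
      rw [← hz]; exact E.algebraMap_mem _
  | coe y =>
    have hy := hx y rfl
    by_cases h : aeval y Q = 0
    · rw [rmap_coe_of P Q h] at hz
      exact absurd hz.symm (OnePoint.coe_ne_infty z)
    · rw [rmap_coe_ne P Q h, OnePoint.coe_eq_coe] at hz
      rw [← hz]; exact E.div_mem (haev P y hy) (haev Q y hy)

lemma ringChar_quot {K : Type*} [Field K] [NumberField K] (𝔭 : Ideal (𝓞 K)) (h : 𝔭.IsPrime)
    {p : ℕ} (hp : p.Prime) (hpm : (p : 𝓞 K) ∈ 𝔭) : ringChar (𝓞 K ⧸ 𝔭) = p := by
  haveI : Nontrivial (𝓞 K ⧸ 𝔭) := Ideal.Quotient.nontrivial_iff.mpr h.ne_top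
  have h1 : ((p : ℕ) : 𝓞 K ⧸ 𝔭) = 0 := by
    have h2 : Ideal.Quotient.mk 𝔭 (p : 𝓞 K) = 0 := Ideal.Quotient.eq_zero_iff_mem.mpr hpm
    rwa [map_natCast] at h2
  have h3 : ringChar (𝓞 K ⧸ 𝔭) ∣ p := ringChar.dvd h1
  rcases (Nat.dvd_prime hp).mp h3 with h4 | h4
  · exfalso
    have h5 : ((ringChar (𝓞 K ⧸ 𝔭) : ℕ) : 𝓞 K ⧸ 𝔭) = 0 := ringChar.Nat.cast_ringChar
    rw [h4, Nat.cast_one] at h5
    exact one_ne_zero h5
  · exact h4

/-- **The final theorem.** -/
theorem final (K : Type u) [Field K] [NumberField K] (P Q : K[X]) (hcop : IsCoprime P Q)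
    (hd : 2 ≤ rdeg P Q)
    (hpcf : ∀ c : OnePoint (AlgebraicClosure K), IsCrit P Q (AlgebraicClosure K) c →
      (Set.range (fun n : ℕ => (rmap P Q (AlgebraicClosure K))^[n] c)).Finite)
    (α : OnePoint K)
    (hα : {x : OnePoint (AlgebraicClosure K) | ∃ n : ℕ, (rmap P Q (AlgebraicClosure K))^[n] x =
      OnePoint.map (algebraMap K (AlgebraicClosure K)) α}.Infinite) :
    ∃ 𝔭 : Ideal (𝓞 K), 𝔭.IsPrime ∧ 𝔭 ≠ ⊥ ∧ ∀ k : ℕ, ∃ n : ℕ, 1 ≤ n ∧
      ∃ 𝔓 : Ideal (𝓞 (Kn P Q α n)), 𝔓.IsPrime ∧ 𝔓.LiesOver 𝔭 ∧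
        Ideal.ramificationIdx' 𝔭 𝔓 ≠ 0 ∧
        ringChar (𝓞 K ⧸ 𝔭) ^ k ∣ Ideal.ramificationIdx' 𝔭 𝔓 := by
  classical
  by_contra hno
  push Not at hno
  set C := AlgebraicClosure K with hC
  haveI : CharZero C := charZero_of_injective_algebraMap (algebraMap K C).injective
  haveI : Algebra.IsAlgebraic ℚ C := Algebra.IsAlgebraic.trans ℚ K C
  set g := rmap P Q C with hg
  set α' : OnePoint C := OnePoint.map (algebraMap K C) α with hα'
  obtain ⟨f, ψ, hψ, hcrit, hcross⟩ := exists_conj (C := C) P Q hcop hd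
  replace hψ : ∀ w, g (ψ w) = ψ (f.app w) := hψ
  have hψn : ∀ (n : ℕ) (w : OnePoint C), g^[n] (ψ w) = ψ (f.app^[n] w) := by
    intro n
    induction n with
    | zero => intro w; rfl
    | succ n ih =>
      intro w
      rw [Function.iterate_succ_apply, Function.iterate_succ_apply, hψ, ih]
  -- surjectivity and finiteness of fibres
  have hgs : Function.Surjective g := by
    intro x
    obtain ⟨w, hw⟩ := f.app_surjective (ψ.symm x)
    exact ⟨ψ w, by rw [hψ, hw, Equiv.apply_symm_apply]⟩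
  have hgf : ∀ x, (g ⁻¹' {x}).Finite := by
    intro x
    refine ((f.fib_finite (ψ.symm x)).image ψ).subset ?_
    intro y hy
    refine ⟨ψ.symm y, ?_, ψ.apply_symm_apply y⟩
    have h1 : g y = x := hy
    have h2 := hψ (ψ.symm y)
    rw [Equiv.apply_symm_apply] at h2
    have h3 : ψ (f.app (ψ.symm y)) = x := by rw [← h2]; exact h1
    show f.app (ψ.symm y) = ψ.symm x
    rw [← h3, Equiv.symm_apply_apply]
  have hgnf : ∀ n : ℕ, {x : OnePoint C | g^[n] x = α'}.Finite := by
    intro n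
    induction n with
    | zero =>
      refine (Set.finite_singleton α').subset ?_
      intro x hx
      exact hx
    | succ n ih =>
      have h1 : {x : OnePoint C | g^[n + 1] x = α'} = g ⁻¹' {x : OnePoint C | g^[n] x = α'} := by
        ext x
        show g^[n + 1] x = α' ↔ g^[n] (g x) = α'
        rw [Function.iterate_succ_apply]
      rw [h1]
      exact ih.preimage' (fun b _ => hgf b)
  -- the fields
  have hfd : ∀ n, FiniteDimensional K (Kn P Q α n) := by
    intro n
    have h1 : {z : C | g^[n] (z : OnePoint C) = α'}.Finite := by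
      refine Set.Finite.of_finite_image ?_ (OnePoint.coe_injective (X := C)).injOn
      refine (hgnf n).subset ?_
      rintro _ ⟨z, hz, rfl⟩
      exact hz
    haveI := h1.to_subtype
    exact IntermediateField.finiteDimensional_adjoin (fun x _ => Algebra.IsIntegral.isIntegral x)
  have hself : ∀ (n : ℕ) (x : OnePoint C), g^[n] x = α' → InE (Kn P Q α n) x := by
    intro n x hx z hz
    apply IntermediateField.subset_adjoin
    show g^[n] (z : OnePoint C) = α'
    rw [← hz]; exact hx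
  have hmono1 : ∀ n, Kn P Q α n ≤ Kn P Q α (n + 1) := by
    intro n
    unfold Kn
    rw [IntermediateField.adjoin_le_iff]
    intro z hz
    obtain ⟨y, hy⟩ := hgs (z : OnePoint C)
    have h1 : g^[n + 1] y = α' := by
      rw [Function.iterate_succ_apply, hy]; exact hz
    have h2 := InE_rmap P Q (hself (n + 1) y h1)
    exact h2 z hy
  have hmono : ∀ n m, n ≤ m → Kn P Q α n ≤ Kn P Q α m := by
    intro n m hnm
    induction m, hnm using Nat.le_induction with
    | base => exact le_rfl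
    | succ m _ ih => exact le_trans ih (hmono1 m)
  have hInE : ∀ (n m : ℕ) (x : OnePoint C), n ≤ m → g^[n] x = α' → InE (Kn P Q α m) x := by
    intro n m x hnm hx z hz
    exact hmono n m hnm (hself n x hx z hz)
  -- the invariant set
  let Zs : Set (OnePoint C) := {OnePoint.infty} ∪
    ⋃ c ∈ f.W.roots.toFinset, Set.range (fun n : ℕ => f.app^[n] (c : OnePoint C))
  have hZs : Zs.Finite := by
    apply (Set.finite_singleton _).union
    apply Set.Finite.biUnion (Finset.finite_toSet _)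
    intro c hc
    rw [Finset.mem_coe, Multiset.mem_toFinset] at hc
    have h1 := hpcf _ (hcrit c hc)
    have h2 : Set.range (fun n : ℕ => f.app^[n] (c : OnePoint C)) =
        ψ.symm '' (Set.range (fun n : ℕ => g^[n] (ψ (c : OnePoint C)))) := by
      rw [← Set.range_comp]
      congr 1
      ext n
      show f.app^[n] (c : OnePoint C) = ψ.symm (g^[n] (ψ (c : OnePoint C)))
      rw [hψn, Equiv.symm_apply_apply]
    rw [h2]
    exact h1.image _
  let Z := hZs.toFinset
  have hZmem : ∀ x, x ∈ Z ↔ x = OnePoint.infty ∨ ∃ c ∈ f.W.roots, ∃ n : ℕ,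
      f.app^[n] (c : OnePoint C) = x := by
    intro x
    rw [Set.Finite.mem_toFinset]
    constructor
    · rintro (h1 | h1)
      · left; exact h1
      · right
        obtain ⟨c, hc, n, hn⟩ := Set.mem_iUnion₂.mp h1
        rw [Multiset.mem_toFinset] at hc
        exact ⟨c, hc, n, hn⟩
    · rintro (h1 | ⟨c, hc, n, hn⟩)
      · left; exact h1
      · right
        exact Set.mem_iUnion₂.mpr ⟨c, Multiset.mem_toFinset.mpr hc, n, hn⟩
  have hZinf : OnePoint.infty ∈ Z := (hZmem _).mpr (Or.inl rfl)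
  have hZinv : ∀ z ∈ Z, f.app z ∈ Z := by
    intro z hz
    rcases (hZmem z).mp hz with h1 | ⟨c, hc, n, hn⟩
    · rw [h1, f.app_infty]; exact hZinf
    · apply (hZmem _).mpr
      right
      exact ⟨c, hc, n + 1, by rw [Function.iterate_succ_apply', hn]⟩
  have hZc : ∀ c ∈ f.W.roots, (c : OnePoint C) ∈ Z := fun c hc =>
    (hZmem _).mpr (Or.inr ⟨c, hc, 0, rfl⟩)
  have hZcr : ∀ c ∈ f.W.roots, f.app (c : OnePoint C) ∈ Z := fun c hc => hZinv _ (hZc c hc)
  -- the backward orbit
  let S : Set C := {w : C | (∃ n : ℕ, g^[n] (ψ (w : OnePoint C)) = α') ∧ (w : OnePoint C) ∉ Z}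
  have hback : ∀ z ∈ S, ∀ w ∈ (f.fib z).roots, w ∈ S := by
    rintro z ⟨⟨n, hn⟩, hz⟩ w hw
    have h1 : f.app (w : OnePoint C) = (z : OnePoint C) := f.app_eq_coe_iff.mpr hw
    refine ⟨⟨n + 1, ?_⟩, ?_⟩
    · rw [Function.iterate_succ_apply, hψ, h1]; exact hn
    · intro h2
      apply hz
      rw [← h1]; exact hZinv _ h2
  have hnd : ∀ z ∈ S, (f.fib z).roots.Nodup := by
    rintro z ⟨_, hz⟩
    rw [Multiset.nodup_iff_count_le_one]
    intro w
    by_cases hw : w ∈ (f.fib z).roots
    · have h1 := f.W_mult_fib hw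
      rw [count_roots]
      by_contra h2
      push Not at h2
      have h3 : 0 < f.W.rootMultiplicity w := by omega
      have h4 : w ∈ f.W.roots := by
        rw [mem_roots f.W_ne]
        exact (rootMultiplicity_pos f.W_ne).mp h3
      apply hz
      rw [← f.app_eq_coe_iff.mpr hw]
      exact hZcr w h4
    · rw [Multiset.count_eq_zero_of_notMem hw]; omega
  have hSinf : S.Infinite := by
    intro hfin
    apply hα
    have h1 : {x : OnePoint C | ∃ n : ℕ, g^[n] x = α'} ⊆
        ψ '' ((fun w : C => (w : OnePoint C)) '' S ∪ (Z : Set (OnePoint C))) := by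
      rintro x ⟨n, hn⟩
      refine ⟨ψ.symm x, ?_, ψ.apply_symm_apply x⟩
      by_cases h2 : ψ.symm x ∈ Z
      · right; exact h2
      · left
        have h3 : ψ.symm x ≠ OnePoint.infty := by
          intro h4; rw [h4] at h2; exact h2 hZinf
        obtain ⟨w, hw⟩ := OnePoint.ne_infty_iff_exists.mp h3
        refine ⟨w, ⟨⟨n, ?_⟩, ?_⟩, hw⟩
        · rw [hw, Equiv.apply_symm_apply]; exact hn
        · rw [hw]; exact h2
    exact (((hfin.image _).union Z.finite_toSet).image _).subset h1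
  obtain ⟨T, hTS, hT3⟩ := hSinf.exists_subset_card_eq 3
  obtain ⟨β, σ, ω, n1, n2, n3, hT⟩ := Finset.card_eq_three.mp hT3
  have hβ : β ∈ S := hTS (by rw [hT]; simp)
  have hσ : σ ∈ S := hTS (by rw [hT]; simp)
  have hω : ω ∈ S := hTS (by rw [hT]; simp)
  refine core f Z hZinf hZinv hZcr hback hnd hβ hσ hω n1 n2 n3 ?_
  -- the values of the cross ratios
  intro v hv p hp hpv
  set v0 := absComp v (algebraMap K C) with hv0
  have hv0na : IsNonarchimedean v0 := absComp_na hv _
  have hpv0 : v0 (p : K) < 1 := by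
    show v (algebraMap K C (p : K)) < 1
    rw [map_natCast]; exact hpv
  obtain ⟨ϖ, hϖ⟩ := (primeOf v0 hv0na hp.ne_zero hpv0).valuation_exists_uniformizer K
  have hc0 : Real.log (v0 ϖ) ≠ 0 := by
    intro h0
    have hϖ0 : ϖ ≠ 0 := by
      rintro rfl
      rw [map_zero] at hϖ
      exact WithZero.exp_ne_zero hϖ.symm
    have h1 : v0 ϖ = 1 := Real.eq_one_of_pos_of_log_eq_zero (v0.pos hϖ0) h0
    obtain ⟨k, hk⟩ : ∃ k : ℤ, (primeOf v0 hv0na hp.ne_zero hpv0).valuation K (p : K) =
        WithZero.exp (-k) := by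
      have h4 : (primeOf v0 hv0na hp.ne_zero hpv0).valuation K (p : K) ≠ 0 := by
        rw [Ne, map_eq_zero]
        exact_mod_cast hp.ne_zero
      refine ⟨-((primeOf v0 hv0na hp.ne_zero hpv0).valuation K (p : K)).log, ?_⟩
      rw [neg_neg, WithZero.exp_log h4]
    have h2 := val_pow hp.ne_zero hpv0 hϖ hk
    rw [h1, one_zpow] at h2
    rw [h2] at hpv0
    exact lt_irrefl _ hpv0
  have hpid : (p : 𝓞 K) ∈ idealOf v0 hv0na := by
    rw [mem_idealOf]
    show v0 (algebraMap (𝓞 K) K (p : 𝓞 K)) < 1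
    rw [map_natCast]; exact hpv0
  have hpb : idealOf v0 hv0na ≠ ⊥ := (primeOf v0 hv0na hp.ne_zero hpv0).ne_bot
  obtain ⟨k, hk⟩ := hno (idealOf v0 hv0na) (idealOf_isPrime v0 hv0na) hpb
  rw [ringChar_quot _ (idealOf_isPrime v0 hv0na) hp hpid] at hk
  refine ⟨GamK (Real.log (v0 ϖ)) hp k, fun x hx => GamK_inter hc0 hp k x hx, ?_⟩
  rintro β ⟨⟨nβ, hβ⟩, _⟩ σ ⟨⟨nσ, hσ⟩, _⟩ ω ⟨⟨nω, hω⟩, _⟩ τ ⟨⟨nτ, hτ⟩, _⟩ a1 a2 a3 a4 a5 a6
  set n := nβ + nσ + nω + nτ + 1 with hn
  set E := Kn P Q α n with hE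
  have hx : (σ - ω) * (τ - β) / ((σ - β) * (τ - ω)) ∈ E :=
    hcross E β σ ω τ a1 a2 a3 a4 a5 a6 (hInE nβ n _ (by omega) hβ) (hInE nσ n _ (by omega) hσ)
      (hInE nω n _ (by omega) hω) (hInE nτ n _ (by omega) hτ)
  have hx0 : (σ - ω) * (τ - β) / ((σ - β) * (τ - ω)) ≠ 0 :=
    div_ne_zero (mul_ne_zero (sub_ne_zero.mpr a3) (sub_ne_zero.mpr a4))
      (mul_ne_zero (sub_ne_zero.mpr a1.symm) (sub_ne_zero.mpr a6))
  generalize (σ - ω) * (τ - β) / ((σ - β) * (τ - ω)) = x at hx hx0
  haveI : FiniteDimensional K E := hfd n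
  haveI : NumberField E := NumberField.of_module_finite K E
  set vE := absComp v (algebraMap E C) with hvE
  have hvEna : IsNonarchimedean vE := absComp_na hv _
  have hvv : ∀ z : K, v0 z = vE (algebraMap K E z) := fun z => rfl
  obtain ⟨m, hm⟩ := ramified_values vE hvEna v0 hv0na hvv hp.ne_zero hpv0 hϖ
    (x := (⟨x, hx⟩ : E)) (by
      intro h0
      apply hx0
      exact congrArg Subtype.val h0)
  rw [under_idealOf vE hvEna v0 hv0na hvv] at hm
  have hlies : (idealOf vE hvEna).LiesOver (idealOf v0 hv0na) :=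
    ⟨(under_idealOf vE hvEna v0 hv0na hvv).symm⟩
  have hprime : (idealOf vE hvEna).IsPrime := idealOf_isPrime vE hvEna
  have hne0 : Ideal.ramificationIdx' (idealOf v0 hv0na) (idealOf vE hvEna) ≠ 0 :=
    Ideal.IsDedekindDomain.ramificationIdx'_ne_zero_of_liesOver _ hpb
  exact mem_GamK hp (hk n (by omega) (idealOf vE hvEna) hprime hlies hne0) hm

end Pool.Agent.H53.Tame
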