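import Pool.Agent.H53.Tame.Ultra
import Pool.Agent.H53.Tame.Potential

/-!
Lifting a generic point and three separated points through a rational map.
-/

open Polynomial

namespace Pool.Agent.H53.Tame

/-- Choice of a zero with more zeros than poles in every ball around it. -/
lemma exists_positive {X : Type*} [DecidableEq X] (e : X → X → ℝ) (h0 : ∀ p, e p p = 0)
    (hs : ∀ p q, e p q = e q p) (hu : ∀ p q s, e p s ≤ max (e p q) (e q s)) (n : ℕ) :
    ∀ A D : Multiset X, D.card = n → D.card < A.card → ∃ a ∈ A, ∀ s : ℝ, 0 < s →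
      (D.filter (fun c => e a c < s)).card < (A.filter (fun c => e a c < s)).card := by
  induction n with
  | zero =>
    intro A D hD hlt
    have hD0 : D = 0 := Multiset.card_eq_zero.mp hD
    rw [hD] at hlt
    obtain ⟨a, ha⟩ := Multiset.card_pos_iff_exists_mem.mp hlt
    refine ⟨a, ha, fun s hs => ?_⟩
    rw [hD0, Multiset.filter_zero, Multiset.card_zero, Multiset.card_pos_iff_exists_mem]
    exact ⟨a, Multiset.mem_filter.mpr ⟨ha, by rw [h0]; exact hs⟩⟩
  | succ n ih =>
    intro A D hD hlt
    have hDne : D.toFinset.Nonempty := by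
      obtain ⟨c, hc⟩ := Multiset.card_pos_iff_exists_mem.mp (by omega : 0 < D.card)
      exact ⟨c, Multiset.mem_toFinset.mpr hc⟩
    have hAne : A.toFinset.Nonempty := by
      obtain ⟨c, hc⟩ := Multiset.card_pos_iff_exists_mem.mp (by omega : 0 < A.card)
      exact ⟨c, Multiset.mem_toFinset.mpr hc⟩
    obtain ⟨⟨a0, c0⟩, hm, hmin⟩ := Finset.exists_min_image (A.toFinset ×ˢ D.toFinset)
      (fun x => e x.1 x.2) (hAne.product hDne)
    rw [Finset.mem_product, Multiset.mem_toFinset, Multiset.mem_toFinset] at hm
    have ha0 : a0 ∈ A := hm.1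
    have hc0 : c0 ∈ D := hm.2
    obtain ⟨a, ha, hpos⟩ := ih (A.erase a0) (D.erase c0)
      (by rw [Multiset.card_erase_of_mem hc0, Nat.pred_eq_sub_one]; omega)
      (by rw [Multiset.card_erase_of_mem hc0, Multiset.card_erase_of_mem ha0,
            Nat.pred_eq_sub_one, Nat.pred_eq_sub_one]
          omega)
    have haA : a ∈ A := Multiset.mem_of_mem_erase ha
    refine ⟨a, haA, fun s hs0 => ?_⟩
    have h1 := hpos s hs0
    have h2 : e a0 c0 ≤ e a c0 := by
      apply hmin (a, c0)
      rw [Finset.mem_product, Multiset.mem_toFinset, Multiset.mem_toFinset]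
      exact ⟨haA, hc0⟩
    have h3 : e a c0 < s → e a a0 < s := by
      intro h4
      refine lt_of_le_of_lt (hu a c0 a0) (max_lt h4 ?_)
      rw [hs c0 a0]
      exact lt_of_le_of_lt h2 h4
    rw [← Multiset.cons_erase hc0, ← Multiset.cons_erase ha0]
    rw [Multiset.filter_cons, Multiset.filter_cons, Multiset.card_add, Multiset.card_add]
    by_cases h4 : e a c0 < s
    · rw [if_pos h4, if_pos (h3 h4)]
      simp only [Multiset.card_singleton]
      omega
    · rw [if_neg h4]
      simp only [Multiset.card_zero]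
      omega

section

variable {C : Type*} [Field C] {Ω : Type*} [NormedField Ω] [IsUltrametricDist Ω] [Algebra C Ω]

lemma near_of_lt' {x z : Ω} (h : ‖x - z‖ < ‖x‖) : near x z := by
  have h1 : ‖z‖ = ‖x‖ := by
    have h2 : ‖x - (x - z)‖ = max ‖x‖ ‖x - z‖ := by
      rw [sub_eq_add_neg, ← norm_neg (x - z)] 
      exact IsUltrametricDist.norm_add_eq_max_of_norm_ne_norm (by rw [norm_neg]; exact ne_of_gt h)
    rw [sub_sub_cancel] at h2
    rw [h2, max_eq_left h.le]
  unfold near; rw [h1]; exact h

lemma ratio_near {y : Ω} {r : ℝ} (h : HR C y r) {p q : C} (hpq : E y r p q < 1) :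
    ∃ l : C, l ≠ 0 ∧ near ((y - algebraMap C Ω p) / (y - algebraMap C Ω q)) (algebraMap C Ω l) := by
  obtain ⟨hr, a, b, hb, hbr, hc⟩ := h.center
  have hp := h.norm_pos p
  have hq := h.norm_pos q
  have hq' := h.sub_ne q
  unfold E at hpq
  rw [div_lt_one (by positivity)] at hpq
  have hsymm : ∀ u v : C, ‖algebraMap C Ω (u - v)‖ = ‖algebraMap C Ω (v - u)‖ := by
    intro u v; rw [map_sub, map_sub, norm_sub_rev]
  by_cases h1 : ‖y - algebraMap C Ω q‖ = r
  · refine ⟨1, one_ne_zero, ?_⟩
    have h2 : near (y - algebraMap C Ω p) (y - algebraMap C Ω q) := by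
      apply near_of_lt'
      have e : y - algebraMap C Ω p - (y - algebraMap C Ω q) = algebraMap C Ω (q - p) := by
        rw [map_sub]; ring
      rw [e, hsymm]
      rw [h1, mul_comm] at hpq
      exact lt_of_mul_lt_mul_right hpq hr.le
    have h3 := h2.div (near_refl hq')
    rw [div_self hq'] at h3
    rw [map_one]; exact h3
  · by_cases h2 : ‖y - algebraMap C Ω p‖ = r
    · refine ⟨1, one_ne_zero, ?_⟩
      have h3 : near (y - algebraMap C Ω p) (y - algebraMap C Ω q) := by
        unfold near
        have e : y - algebraMap C Ω p - (y - algebraMap C Ω q) = algebraMap C Ω (q - p) := by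
          rw [map_sub]; ring
        rw [e, hsymm]
        rw [h2] at hpq
        exact lt_of_mul_lt_mul_left hpq hr.le
      have h4 := h3.div (near_refl hq')
      rw [div_self hq'] at h4
      rw [map_one]; exact h4
    · have key : ∀ c : C, ‖y - algebraMap C Ω c‖ ≠ r →
          a - c ≠ 0 ∧ near (y - algebraMap C Ω c) (algebraMap C Ω (a - c)) := by
        intro c hcr
        have h3 := hc c
        have h4 : r < ‖algebraMap C Ω (c - a)‖ := by
          by_contra h5
          push Not at h5
          rw [max_eq_left h5] at h3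
          exact hcr h3
        constructor
        · intro h5
          have : c - a = 0 := by rw [← neg_eq_zero]; rw [neg_sub]; exact h5
          rw [this] at h4; simp at h4; linarith
        · unfold near
          have e : y - algebraMap C Ω c - algebraMap C Ω (a - c) = y - algebraMap C Ω a := by
            rw [map_sub]; ring
          rw [e, hc a, sub_self, map_zero, norm_zero, max_eq_left hr.le, hsymm]
          exact h4
      obtain ⟨hp1, hp2⟩ := key p h2
      obtain ⟨hq1, hq2⟩ := key q h1
      refine ⟨(a - p) / (a - q), div_ne_zero hp1 hq1, ?_⟩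
      rw [map_div₀]
      exact hp2.div hq2

/-- the residue class of a point seen from `y` -/
def cls (y : Ω) (r : ℝ) (p : C) : Set C := {q | E y r p q < 1}

lemma cls_eq_iff {y : Ω} {r : ℝ} (h : HR C y r) {p q : C} :
    cls y r p = cls y r q ↔ E y r p q < 1 := by
  constructor
  · intro h1
    have h2 : q ∈ cls y r q := by show E y r q q < 1; simp
    rw [← h1] at h2; exact h2
  · intro h1
    ext s
    constructor
    · intro h2
      exact E_lt_trans h (by rw [E_comm]; exact h1) h2
    · intro h2
      exact E_lt_trans h h1 h2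

lemma balanced_near {y : Ω} {r : ℝ} (h : HR C y r) {s t : Multiset C}
    (hst : s.map (cls y r) = t.map (cls y r)) :
    ∃ l : C, l ≠ 0 ∧ near ((s.map (fun p => y - algebraMap C Ω p)).prod /
      (t.map (fun p => y - algebraMap C Ω p)).prod) (algebraMap C Ω l) := by
  rw [← Multiset.rel_eq, Multiset.rel_map] at hst
  induction hst with
  | zero => exact ⟨1, one_ne_zero, by simpa using near_refl one_ne_zero⟩
  | @cons a b s t hab _ ih =>
    obtain ⟨l, hl, hn⟩ := ih
    obtain ⟨l', hl', hn'⟩ := ratio_near h ((cls_eq_iff h).mp hab)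
    refine ⟨l' * l, mul_ne_zero hl' hl, ?_⟩
    rw [Multiset.map_cons, Multiset.prod_cons, Multiset.map_cons, Multiset.prod_cons,
      mul_div_mul_comm, map_mul]
    exact hn'.mul hn

variable [IsAlgClosed C]

omit [IsUltrametricDist Ω] in
lemma eval_prod (F : C[X]) (x : Ω) : (F.map (algebraMap C Ω)).eval x =
    algebraMap C Ω F.leadingCoeff * (F.roots.map (fun c => x - algebraMap C Ω c)).prod := by
  have hs := IsAlgClosed.splits F
  have h2 := (hs.map (algebraMap C Ω)).eval_eq_prod_roots x
  rw [leadingCoeff_map, hs.roots_map, Multiset.map_map] at h2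
  exact h2

lemma near_eval {F : C[X]} (hF : F ≠ 0) {y : Ω} {c : C}
    (h : ∀ p ∈ F.roots, ‖y - algebraMap C Ω c‖ < ‖y - algebraMap C Ω p‖) :
    near ((F.map (algebraMap C Ω)).eval y) (algebraMap C Ω (F.eval c)) := by
  have e : algebraMap C Ω (F.eval c) = (F.map (algebraMap C Ω)).eval (algebraMap C Ω c) := by
    rw [eval_map_algebraMap, aeval_algebraMap_apply, coe_aeval_eq_eval]
  rw [e, eval_prod, eval_prod]
  apply near.mul
  · apply near_refl
    rw [Ne, map_eq_zero]; exact leadingCoeff_ne_zero.mpr hF
  · apply near_prod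
    intro p hp
    apply near_of_lt'
    have : y - algebraMap C Ω p - (algebraMap C Ω c - algebraMap C Ω p) = y - algebraMap C Ω c := by
      ring
    rw [this]; exact h p hp

/-- **A preimage of a residually transcendental point is generic.** -/
theorem exists_HR {A D : C[X]} {μ : C} {y : Ω} (hA : (A.map (algebraMap C Ω)).eval y ≠ 0)
    (hD : (D.map (algebraMap C Ω)).eval y ≠ 0)
    (hRT : RT C (algebraMap C Ω μ * (A.map (algebraMap C Ω)).eval y /
      (D.map (algebraMap C Ω)).eval y)) : ∃ r, HR C y r := by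
  classical
  have hA0 : A ≠ 0 := by rintro rfl; simp at hA
  have hD0 : D ≠ 0 := by rintro rfl; simp at hD
  have hμ : μ ≠ 0 := by
    rintro rfl
    have := hRT.norm
    simp at this
  have hμ' : algebraMap C Ω μ ≠ 0 := by rw [Ne, map_eq_zero]; exact hμ
  have hlA : algebraMap C Ω A.leadingCoeff ≠ 0 := by
    rw [Ne, map_eq_zero]; exact leadingCoeff_ne_zero.mpr hA0
  have hlD : algebraMap C Ω D.leadingCoeff ≠ 0 := by
    rw [Ne, map_eq_zero]; exact leadingCoeff_ne_zero.mpr hD0
  have hne : (A.roots + D.roots).toFinset.Nonempty := by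
    by_contra h0
    rw [Finset.not_nonempty_iff_eq_empty, Multiset.toFinset_eq_empty] at h0
    have h1 : A.roots = 0 := (add_eq_zero.mp h0).1
    have h2 : D.roots = 0 := (add_eq_zero.mp h0).2
    apply hRT.ne (μ * A.leadingCoeff / D.leadingCoeff)
    rw [eval_prod, eval_prod, h1, h2]
    simp
  obtain ⟨a, ha, hmin⟩ := Finset.exists_min_image _ (fun p => ‖y - algebraMap C Ω p‖) hne
  have hmin' : ∀ p, p ∈ A.roots ∨ p ∈ D.roots → ‖y - algebraMap C Ω a‖ ≤ ‖y - algebraMap C Ω p‖ := by
    intro p hp
    apply hmin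
    rw [Multiset.mem_toFinset, Multiset.mem_add]; exact hp
  have hroot : ∀ F : C[X], (F.map (algebraMap C Ω)).eval y ≠ 0 → ∀ p ∈ F.roots,
      y - algebraMap C Ω p ≠ 0 := by
    intro F hF p hp h0
    apply hF
    rw [eval_prod]
    apply mul_eq_zero_of_right
    rw [Multiset.prod_eq_zero_iff, Multiset.mem_map]
    exact ⟨p, hp, h0⟩
  have hya : y - algebraMap C Ω a ≠ 0 := by
    rw [Multiset.mem_toFinset, Multiset.mem_add] at ha
    rcases ha with ha | ha
    · exact hroot A hA a ha
    · exact hroot D hD a ha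
  set r := ‖y - algebraMap C Ω a‖ with hr
  have hr0 : 0 < r := norm_pos_iff.mpr hya
  -- first claim
  have claim1 : ∀ c : C, r ≤ ‖y - algebraMap C Ω c‖ := by
    intro c
    by_contra hc
    push Not at hc
    have h1 : near ((A.map (algebraMap C Ω)).eval y) (algebraMap C Ω (A.eval c)) :=
      near_eval hA0 (fun p hp => lt_of_lt_of_le hc (hmin' p (Or.inl hp)))
    have h2 : near ((D.map (algebraMap C Ω)).eval y) (algebraMap C Ω (D.eval c)) :=
      near_eval hD0 (fun p hp => lt_of_lt_of_le hc (hmin' p (Or.inr hp)))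
    have h3 := ((near_refl hμ').mul h1).div h2
    rw [← map_mul, ← map_div₀] at h3
    apply hRT.not_near 0 (μ * A.eval c / D.eval c) (by simp)
    rw [map_zero, sub_zero]
    exact h3
  -- second claim
  have claim2 : ∃ b : C, b ≠ 0 ∧ ‖algebraMap C Ω b‖ = r := by
    by_contra hno
    push Not at hno
    have hstep : ∀ m : Multiset C, ∃ (l : C) (k : ℕ), l ≠ 0 ∧
        near (m.map (fun p => y - algebraMap C Ω p)).prod
          (algebraMap C Ω l * (y - algebraMap C Ω a) ^ k) := by
      intro m
      induction m using Multiset.induction_on with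
      | empty => exact ⟨1, 0, one_ne_zero, by simpa using near_refl one_ne_zero⟩
      | cons p m ih =>
        obtain ⟨l, k, hl, hn⟩ := ih
        have hp : ∃ (l' : C) (k' : ℕ), l' ≠ 0 ∧ near (y - algebraMap C Ω p)
            (algebraMap C Ω l' * (y - algebraMap C Ω a) ^ k') := by
          by_cases hap : a - p = 0
          · refine ⟨1, 1, one_ne_zero, ?_⟩
            rw [map_one, one_mul, pow_one, sub_eq_zero.mp hap]
            rw [← sub_eq_zero.mp hap]
            exact near_refl hya
          · have h1 := hno (a - p) hap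
            rcases lt_or_gt_of_ne h1 with h2 | h2
            · refine ⟨1, 1, one_ne_zero, ?_⟩
              rw [map_one, one_mul, pow_one]
              unfold near
              have e : y - algebraMap C Ω p - (y - algebraMap C Ω a) = algebraMap C Ω (a - p) := by
                rw [map_sub]; ring
              rw [e]; exact h2
            · refine ⟨a - p, 0, hap, ?_⟩
              rw [pow_zero, mul_one]
              unfold near
              have e : y - algebraMap C Ω p - algebraMap C Ω (a - p) = y - algebraMap C Ω a := by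
                rw [map_sub]; ring
              rw [e]; exact h2
        obtain ⟨l', k', hl', hn'⟩ := hp
        refine ⟨l' * l, k' + k, mul_ne_zero hl' hl, ?_⟩
        rw [Multiset.map_cons, Multiset.prod_cons, map_mul, pow_add]
        have := hn'.mul hn
        convert this using 1
        ring
    obtain ⟨lA, kA, hlA1, hnA⟩ := hstep A.roots
    obtain ⟨lD, kD, hlD1, hnD⟩ := hstep D.roots
    have hlA1' : algebraMap C Ω lA ≠ 0 := by rw [Ne, map_eq_zero]; exact hlA1
    have hlD1' : algebraMap C Ω lD ≠ 0 := by rw [Ne, map_eq_zero]; exact hlD1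
    have h1 := (near_refl hlA).mul hnA
    rw [← eval_prod] at h1
    have h2 := (near_refl hlD).mul hnD
    rw [← eval_prod] at h2
    have h3 := ((near_refl hμ').mul h1).div h2
    -- constants
    set X : C := μ * (A.leadingCoeff * lA) with hX
    set Y : C := D.leadingCoeff * lD with hY
    have hX0 : X ≠ 0 := mul_ne_zero hμ (mul_ne_zero (leadingCoeff_ne_zero.mpr hA0) hlA1)
    have hY0 : Y ≠ 0 := mul_ne_zero (leadingCoeff_ne_zero.mpr hD0) hlD1
    have hX0' : algebraMap C Ω X ≠ 0 := by rw [Ne, map_eq_zero]; exact hX0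
    have hY0' : algebraMap C Ω Y ≠ 0 := by rw [Ne, map_eq_zero]; exact hY0
    have e : algebraMap C Ω μ * (algebraMap C Ω A.leadingCoeff * (algebraMap C Ω lA *
        (y - algebraMap C Ω a) ^ kA)) / (algebraMap C Ω D.leadingCoeff * (algebraMap C Ω lD *
        (y - algebraMap C Ω a) ^ kD)) = algebraMap C Ω X * (y - algebraMap C Ω a) ^ kA /
        (algebraMap C Ω Y * (y - algebraMap C Ω a) ^ kD) := by
      rw [hX, hY, map_mul, map_mul, map_mul]; ring
    rw [e] at h3
    have h4 := h3.norm_eq
    rw [hRT.norm, norm_div, norm_mul, norm_mul, norm_pow, norm_pow, ← hr, eq_comm,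
      div_eq_one_iff_eq (by positivity)] at h4
    rcases lt_trichotomy kA kD with hk | hk | hk
    · -- r ^ (kD - kA) = ‖X/Y‖
      obtain ⟨j, hj⟩ : ∃ j, kD = kA + j := ⟨kD - kA, by omega⟩
      have hj0 : 0 < j := by omega
      obtain ⟨b, hb⟩ := IsAlgClosed.exists_pow_nat_eq (X / Y) hj0
      have hb0 : b ≠ 0 := by
        rintro rfl
        rw [zero_pow hj0.ne'] at hb
        exact div_ne_zero hX0 hY0 hb.symm
      apply hno b hb0
      apply (pow_left_inj₀ (norm_nonneg _) hr0.le hj0.ne').mp
      rw [← norm_pow, ← map_pow, hb, map_div₀, norm_div, div_eq_iff (norm_ne_zero_iff.mpr hY0')]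
      rw [hj, pow_add] at h4
      have h5 : r ^ kA ≠ 0 := by positivity
      apply mul_right_cancel₀ h5
      rw [h4]; ring
    · -- near a constant
      apply hRT.not_near 0 (X / Y) (by simp)
      rw [map_zero, sub_zero]
      have e2 : algebraMap C Ω X * (y - algebraMap C Ω a) ^ kA /
        (algebraMap C Ω Y * (y - algebraMap C Ω a) ^ kD) = algebraMap C Ω (X / Y) := by
        rw [hk, map_div₀]
        have : (y - algebraMap C Ω a) ^ kD ≠ 0 := pow_ne_zero _ hya
        field_simp
      rw [e2] at h3
      exact h3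
    · obtain ⟨j, hj⟩ : ∃ j, kA = kD + j := ⟨kA - kD, by omega⟩
      have hj0 : 0 < j := by omega
      obtain ⟨b, hb⟩ := IsAlgClosed.exists_pow_nat_eq (Y / X) hj0
      have hb0 : b ≠ 0 := by
        rintro rfl
        rw [zero_pow hj0.ne'] at hb
        exact div_ne_zero hY0 hX0 hb.symm
      apply hno b hb0
      apply (pow_left_inj₀ (norm_nonneg _) hr0.le hj0.ne').mp
      rw [← norm_pow, ← map_pow, hb, map_div₀, norm_div, div_eq_iff (norm_ne_zero_iff.mpr hX0')]
      rw [hj, pow_add] at h4
      have h5 : r ^ kD ≠ 0 := by positivity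
      apply mul_right_cancel₀ h5
      rw [← h4]; ring
  obtain ⟨b, hb, hbr⟩ := claim2
  have hb' : algebraMap C Ω b ≠ 0 := by rw [Ne, map_eq_zero]; exact hb
  refine ⟨r, a, b, hb, hbr, ?_⟩
  have hx1 : ‖(y - algebraMap C Ω a) / algebraMap C Ω b‖ = 1 := by
    rw [norm_div, hbr, ← hr, div_self hr0.ne']
  apply RT_of hx1
  intro c
  apply max_le
  · have e : (y - algebraMap C Ω a) / algebraMap C Ω b - algebraMap C Ω c =
        (y - algebraMap C Ω (a + b * c)) / algebraMap C Ω b := by
      rw [map_add, map_mul]; field_simp; ring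
    rw [e, norm_div, hbr, one_le_div hr0]
    exact claim1 _
  · by_cases hc : ‖algebraMap C Ω c‖ ≤ 1
    · have e : (y - algebraMap C Ω a) / algebraMap C Ω b - algebraMap C Ω c =
          (y - algebraMap C Ω (a + b * c)) / algebraMap C Ω b := by
        rw [map_add, map_mul]; field_simp; ring
      refine le_trans hc ?_
      rw [e, norm_div, hbr, one_le_div hr0]
      exact claim1 _
    · push Not at hc
      have h1 : ‖(y - algebraMap C Ω a) / algebraMap C Ω b - algebraMap C Ω c‖ =
          max ‖(y - algebraMap C Ω a) / algebraMap C Ω b‖ ‖algebraMap C Ω c‖ := by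
        rw [sub_eq_add_neg, ← norm_neg (algebraMap C Ω c)]
        apply IsUltrametricDist.norm_add_eq_max_of_norm_ne_norm
        rw [norm_neg, hx1]; exact ne_of_lt hc
      rw [h1]; exact le_max_right _ _

end

end Pool.Agent.H53.Tame
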