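import Pool.Agent.H53.Tame.Chain

/-!
The local theorem.
-/

open Polynomial MeasureTheory

namespace Pool.Agent.H53.Tame

section

variable {C : Type*} [Field C] {Ω : Type*} [NormedField Ω] [IsUltrametricDist Ω] [Algebra C Ω]
variable [IsAlgClosed C] [CharZero C] [IsAlgClosed Ω]

/-- the weight of a step -/
noncomputable def wt (f : RM C) {S : Set C} (a b : St S Ω) : ℝ :=
  -Real.log (f.D b.y * b.r / a.r) / (2 * f.d)

/-- the distance of a point to the first point of the state -/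
noncomputable def ell {S : Set C} (a : St S Ω) (τ : C) : ℝ := -Real.log (E a.y a.r a.β τ)

/-- the comparison function -/
noncomputable def GG (f : RM C) {S : Set C} (a b : St S Ω) (t : ℝ) : ℝ :=
  -Real.log (pm b.y b.r (f.fib a.β) b.β (Real.exp (-t))) +
    Real.log (pm b.y b.r (f.fib a.ω) b.β (Real.exp (-t)))

omit [IsAlgClosed C] [CharZero C] [IsAlgClosed Ω] [IsUltrametricDist Ω] in
lemma E_mem_Icc [IsUltrametricDist Ω] {S : Set C} (b : St S Ω) (F : C[X]) :
    ∀ x ∈ F.roots.map (fun p => E b.y b.r b.β p), 0 ≤ x ∧ x ≤ 1 := by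
  intro x hx
  rw [Multiset.mem_map] at hx
  obtain ⟨p, _, rfl⟩ := hx
  exact ⟨E_nonneg b.h _ _, E_le_one b.h _ _⟩

omit [IsAlgClosed C] [CharZero C] [IsAlgClosed Ω] in
open Classical in
lemma int_cnt {S : Set C} (b : St S Ω) (F : C[X]) {t : ℝ} (ht : 0 ≤ t) :
    IntervalIntegrable (fun u => ((cnt b.y b.r F b.β (Real.exp (-u)) : ℕ) : ℝ)) volume 0 t ∧
    ∫ u in (0 : ℝ)..t, ((cnt b.y b.r F b.β (Real.exp (-u)) : ℕ) : ℝ) =
      -Real.log (pm b.y b.r F b.β (Real.exp (-t))) := by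
  have h := int_card (F.roots.map (fun p => E b.y b.r b.β p)) (E_mem_Icc b F) ht
  have e : (fun u => ((((F.roots.map (fun p => E b.y b.r b.β p)).filter
      (fun x => x < Real.exp (-u))).card : ℕ) : ℝ)) =
      (fun u => ((cnt b.y b.r F b.β (Real.exp (-u)) : ℕ) : ℝ)) := by
    ext u
    unfold cnt
    rw [Multiset.filter_map, Multiset.card_map]
    rfl
  rw [e, Multiset.map_map] at h
  exact h

omit [IsAlgClosed C] [CharZero C] [IsAlgClosed Ω] in
lemma GG_int (f : RM C) {S : Set C} (a b : St S Ω) {t : ℝ} (ht : 0 ≤ t) :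
    IntervalIntegrable (fun u => ((cnt b.y b.r (f.fib a.β) b.β (Real.exp (-u)) : ℕ) : ℝ) -
      ((cnt b.y b.r (f.fib a.ω) b.β (Real.exp (-u)) : ℕ) : ℝ)) volume 0 t ∧
    ∫ u in (0 : ℝ)..t, (((cnt b.y b.r (f.fib a.β) b.β (Real.exp (-u)) : ℕ) : ℝ) -
      ((cnt b.y b.r (f.fib a.ω) b.β (Real.exp (-u)) : ℕ) : ℝ)) = GG f a b t := by
  obtain ⟨i1, i2⟩ := int_cnt b (f.fib a.β) ht
  obtain ⟨j1, j2⟩ := int_cnt b (f.fib a.ω) ht
  refine ⟨i1.sub j1, ?_⟩
  rw [intervalIntegral.integral_sub i1 j1, i2, j2]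
  unfold GG; ring

lemma D_pos' {f : RM C} (pd : f.PData) {S : Set C} {a b : St S Ω} (hab : Nx pd a b) :
    0 < f.D b.y := (HR.out pd a.h).D_pos hab.1

lemma lt_pow_of_wt {f : RM C} (pd : f.PData) {S : Set C} {a b : St S Ω} (hab : Nx pd a b)
    {x u : ℝ} (hx : Real.exp (-u) ≤ x) (hu : u < wt f a b) :
    f.D b.y * b.r / a.r < x ^ (2 * f.d) := by
  have hD := D_pos' pd hab
  have hr := a.h.pos
  have hr' := b.h.pos
  have hδ : 0 < f.D b.y * b.r / a.r := by positivity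
  have hd : (0 : ℝ) < 2 * f.d := by
    have := f.two_le_d
    have h2 : (2 : ℝ) ≤ f.d := by exact_mod_cast this
    linarith
  unfold wt at hu
  rw [lt_div_iff₀ hd] at hu
  have h1 : f.D b.y * b.r / a.r < Real.exp (-(u * (2 * f.d))) := by
    rw [← Real.log_lt_iff_lt_exp hδ]; linarith
  refine lt_of_lt_of_le h1 ?_
  have h2 : Real.exp (-(u * (2 * f.d))) = (Real.exp (-u)) ^ (2 * f.d) := by
    rw [← Real.exp_nat_mul]
    congr 1
    push_cast; ring
  rw [h2]
  exact pow_le_pow_left₀ (Real.exp_pos _).le hx _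

/-- the number of zeros minus the number of poles is divisible by `p` for small radii -/
lemma dvd_of_wt {f : RM C} (pd : f.PData) (hdn : DN C Ω) {p : ℕ}
    (hp : ∀ m : ℕ, ¬ p ∣ m → ‖(m : Ω)‖ = 1) {S : Set C} {a b : St S Ω} (hab : Nx pd a b)
    {x u : ℝ} (hx : Real.exp (-u) ≤ x) (hx1 : x ≤ 1) (hu : u < wt f a b) :
    (p : ℤ) ∣ (cnt b.y b.r (f.fib a.β) b.β x : ℤ) - (cnt b.y b.r (f.fib a.ω) b.β x : ℤ) :=
  dvd_strict f hdn hp a.h a.e2 hab.1 b.h b.e2 (lt_of_lt_of_le (Real.exp_pos _) hx) hx1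
    (lt_pow_of_wt pd hab hx hu)

lemma two_le_of_wt {f : RM C} (pd : f.PData) (hdn : DN C Ω) {p : ℕ} (hp2 : 2 ≤ p)
    (hp : ∀ m : ℕ, ¬ p ∣ m → ‖(m : Ω)‖ = 1) {S : Set C} {a b : St S Ω} (hab : Nx pd a b)
    {x u : ℝ} (hx : Real.exp (-u) ≤ x) (hx1 : x ≤ 1) (hu : u < wt f a b) :
    cnt b.y b.r (f.fib a.ω) b.β x + 2 ≤ cnt b.y b.r (f.fib a.β) b.β x := by
  obtain ⟨k, hk⟩ := dvd_of_wt pd hdn hp hab hx hx1 hu
  have h1 := hab.2.2.2.1 x (lt_of_lt_of_le (Real.exp_pos _) hx) hx1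
  have h2 : 0 < k := by
    by_contra h3
    push Not at h3
    have h4 : (p : ℤ) * k ≤ 0 := mul_nonpos_of_nonneg_of_nonpos (Int.natCast_nonneg _) h3
    omega
  have h5 : (p : ℤ) * 1 ≤ (p : ℤ) * k := mul_le_mul_of_nonneg_left (by omega) (Int.natCast_nonneg _)
  omega

/-- the lower bound for the comparison function -/
lemma GG_lower {f : RM C} (pd : f.PData) (hdn : DN C Ω) {p : ℕ} (hp2 : 2 ≤ p)
    (hp : ∀ m : ℕ, ¬ p ∣ m → ‖(m : Ω)‖ = 1) {S : Set C} {a b : St S Ω} (hab : Nx pd a b)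
    {t : ℝ} (ht : 0 ≤ t) : t + min t (max (wt f a b) 0) ≤ GG f a b t := by
  obtain ⟨i1, i2⟩ := GG_int f a b ht
  set w := max (wt f a b) 0 with hw
  have hw0 : 0 ≤ w := le_max_right _ _
  obtain ⟨j1, j2⟩ := int_ind (Real.exp_pos (-w)).le (by rw [Real.exp_le_one_iff]; linarith) ht
  have hlog : -Real.log (max (Real.exp (-t)) (Real.exp (-w))) = min t w := by
    rcases le_total t w with h | h
    · rw [min_eq_left h, max_eq_left (by rw [Real.exp_le_exp]; linarith), Real.log_exp, neg_neg]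
    · rw [min_eq_right h, max_eq_right (by rw [Real.exp_le_exp]; linarith), Real.log_exp, neg_neg]
  rw [hlog] at j2
  have h1 : ∫ u in (0 : ℝ)..t, (1 : ℝ) = t := by simp
  suffices key : ∫ u in (0 : ℝ)..t, ((1 : ℝ) + (if Real.exp (-w) < Real.exp (-u) then (1 : ℝ) else 0)) ≤
      ∫ u in (0 : ℝ)..t, (((cnt b.y b.r (f.fib a.β) b.β (Real.exp (-u)) : ℕ) : ℝ) -
      ((cnt b.y b.r (f.fib a.ω) b.β (Real.exp (-u)) : ℕ) : ℝ)) by
    rw [intervalIntegral.integral_add intervalIntegrable_const j1, i2, j2, h1] at key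
    exact key
  apply intervalIntegral.integral_mono_on ht (intervalIntegrable_const.add j1) i1
  intro u hu
  have hexp : Real.exp (-u) ≤ 1 := by rw [Real.exp_le_one_iff]; linarith [hu.1]
  by_cases h2 : Real.exp (-w) < Real.exp (-u)
  · rw [if_pos h2]
    have h3 : u < w := by rw [Real.exp_lt_exp] at h2; linarith
    have h4 : u < wt f a b := by
      rcases lt_max_iff.mp h3 with h5 | h5
      · exact h5
      · linarith [hu.1]
    have h5 := two_le_of_wt pd hdn hp2 hp hab le_rfl hexp h4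
    have h6 : ((cnt b.y b.r (f.fib a.ω) b.β (Real.exp (-u)) : ℕ) : ℝ) + 2 ≤
        ((cnt b.y b.r (f.fib a.β) b.β (Real.exp (-u)) : ℕ) : ℝ) := by exact_mod_cast h5
    linarith
  · rw [if_neg h2]
    have h5 := hab.2.2.2.1 (Real.exp (-u)) (Real.exp_pos _) hexp
    have h6 : ((cnt b.y b.r (f.fib a.ω) b.β (Real.exp (-u)) : ℕ) : ℝ) + 1 ≤
        ((cnt b.y b.r (f.fib a.β) b.β (Real.exp (-u)) : ℕ) : ℝ) := by exact_mod_cast h5
    linarith

lemma GG_mono {f : RM C} (pd : f.PData) {S : Set C} {a b : St S Ω} (hab : Nx pd a b)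
    {t t' : ℝ} (ht : 0 ≤ t) (htt : t < t') : GG f a b t < GG f a b t' := by
  obtain ⟨i1, i2⟩ := GG_int f a b ht
  obtain ⟨j1, j2⟩ := GG_int f a b (le_trans ht htt.le)
  rw [← i2, ← j2]
  have k1 := i1.symm.trans j1
  rw [← intervalIntegral.integral_add_adjacent_intervals i1 k1]
  have h1 : ∫ u in t..t', (1 : ℝ) ≤ ∫ u in t..t',
      (((cnt b.y b.r (f.fib a.β) b.β (Real.exp (-u)) : ℕ) : ℝ) -
      ((cnt b.y b.r (f.fib a.ω) b.β (Real.exp (-u)) : ℕ) : ℝ)) := by
    apply intervalIntegral.integral_mono_on htt.le intervalIntegrable_const k1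
    intro u hu
    have hexp : Real.exp (-u) ≤ 1 := by rw [Real.exp_le_one_iff]; linarith [hu.1]
    have h5 := hab.2.2.2.1 (Real.exp (-u)) (Real.exp_pos _) hexp
    have h6 : ((cnt b.y b.r (f.fib a.ω) b.β (Real.exp (-u)) : ℕ) : ℝ) + 1 ≤
        ((cnt b.y b.r (f.fib a.β) b.β (Real.exp (-u)) : ℕ) : ℝ) := by exact_mod_cast h5
    linarith
  have h2 : ∫ u in t..t', (1 : ℝ) = t' - t := by simp
  linarith

/-- marked points -/
def Mk {S : Set C} (a : St S Ω) (τ : C) : Prop := τ ∈ S ∧ a.β ≠ τ ∧ E a.y a.r a.β τ < 1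

omit [IsAlgClosed C] [CharZero C] [IsAlgClosed Ω] in
lemma Mk.pos {S : Set C} {a : St S Ω} {τ : C} (h : Mk a τ) : 0 < ell a τ := by
  unfold ell
  have := Real.log_neg (E_pos a.h h.2.1) h.2.2
  linarith

omit [IsAlgClosed C] [CharZero C] [IsAlgClosed Ω] in
lemma Mk.exp {S : Set C} {a : St S Ω} {τ : C} (h : Mk a τ) :
    Real.exp (-ell a τ) = E a.y a.r a.β τ := by
  unfold ell
  rw [neg_neg, Real.exp_log (E_pos a.h h.2.1)]

/-- lifting a marked point -/
lemma lift_mk {f : RM C} (pd : f.PData) (hdn : DN C Ω) {S : Set C}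
    (hback : ∀ z ∈ S, ∀ w ∈ (f.fib z).roots, w ∈ S) {a b : St S Ω} (hab : Nx pd a b) {τ : C}
    (hτ : Mk a τ) : ∃ τ', Mk b τ' ∧ GG f a b (ell b τ') = ell a τ := by
  obtain ⟨τ', h1, h2, h3, h4⟩ := lift_marked f hdn a.h a.e2 hτ.2.1 hτ.2.2 hab.1 b.h hab.2.1 b.e2
    hab.2.2.2.1
  have hmk : Mk b τ' := ⟨hback _ hτ.1 _ h1, h2, h3⟩
  refine ⟨τ', hmk, ?_⟩
  unfold GG
  rw [hmk.exp, h4, Real.log_mul]
  · unfold ell; ring
  · exact (E_pos a.h hτ.2.1).ne'
  · exact (pm_pos _ _ _ _ (E_pos b.h h2)).ne'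

omit [IsAlgClosed C] [CharZero C] [IsAlgClosed Ω] in
lemma log_pm {S : Set C} (b : St S Ω) (F : C[X]) {s : ℝ} (hs : 0 < s) :
    ((F.roots.map (fun p => E b.y b.r b.β p)).map (fun x => Real.log (max s x))).sum =
      Real.log (pm b.y b.r F b.β s) := by
  unfold pm
  rw [Multiset.map_map]
  generalize F.roots = m
  induction m using Multiset.induction_on with
  | empty => simp
  | cons x m ih =>
    rw [Multiset.map_cons, Multiset.sum_cons, ih, Multiset.map_cons, Multiset.prod_cons,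
      Real.log_mul]
    · rfl
    · exact (lt_max_of_lt_left hs).ne'
    · have : 0 < (m.map (fun p => max s (E b.y b.r b.β p))).prod := by
        clear ih
        induction m using Multiset.induction_on with
        | empty => simp
        | cons b' m ih =>
          rw [Multiset.map_cons, Multiset.prod_cons]
          exact mul_pos (lt_max_of_lt_left hs) ih
      exact this.ne'

/-- divisibility of the values of the comparison function -/
lemma GG_mem {f : RM C} (pd : f.PData) {S : Set C}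
    (hback : ∀ z ∈ S, ∀ w ∈ (f.fib z).roots, w ∈ S) {a b : St S Ω} (hab : Nx pd a b)
    {q : ℕ} (Γ : AddSubgroup ℝ) {τ' : C} (hτ' : Mk b τ')
    (hdiv : ∀ x : ℝ, E b.y b.r b.β τ' < x → x ≤ 1 →
      (q : ℤ) ∣ (cnt b.y b.r (f.fib a.β) b.β x : ℤ) - (cnt b.y b.r (f.fib a.ω) b.β x : ℤ))
    (hΓ : ∀ τ, Mk b τ → ell b τ ≤ ell b τ' → ell b τ ∈ Γ) :
    ∃ g ∈ Γ, GG f a b (ell b τ') = q * g := by
  classical
  set s := E b.y b.r b.β τ' with hs
  have hs0 : 0 < s := E_pos b.h hτ'.2.1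
  have hmem : ∀ F : C[X], (∀ c ∈ F.roots, c ∈ S) → ∀ x ∈ F.roots.map (fun p => E b.y b.r b.β p),
      s < x → x < 1 → Real.log x ∈ Γ := by
    intro F hF x hx hsx hx1
    rw [Multiset.mem_map] at hx
    obtain ⟨c, hc, rfl⟩ := hx
    have hmk : Mk b c := by
      refine ⟨hF c hc, ?_, hx1⟩
      intro h0
      rw [← h0, E_self] at hsx
      linarith
    have h1 := hΓ c hmk (by
      unfold ell
      have := Real.log_le_log hs0 hsx.le
      linarith)
    unfold ell at h1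
    have := Γ.neg_mem h1
    rwa [neg_neg] at this
  have hcnt : ∀ (F : C[X]) (x : ℝ), ((F.roots.map (fun p => E b.y b.r b.β p)).filter
      (fun y => y < x)).card = cnt b.y b.r F b.β x := by
    intro F x
    unfold cnt
    rw [Multiset.filter_map, Multiset.card_map]
    rfl
  obtain ⟨g, hg, hg'⟩ := abel (p := q) Γ ((f.fib a.β).roots.map (fun p => E b.y b.r b.β p))
    ((f.fib a.ω).roots.map (fun p => E b.y b.r b.β p)) (s := s) hτ'.2.2
    (fun x hx => (E_mem_Icc b _ x hx).2) (fun x hx => (E_mem_Icc b _ x hx).2)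
    (fun x hx hx1 => by rw [hcnt, hcnt]; exact hdiv x hx hx1)
    (by
      have h1 := hΓ τ' hτ' le_rfl
      unfold ell at h1
      have := Γ.neg_mem h1
      rwa [neg_neg] at this)
    (hmem _ (fun c hc => hback _ a.hβ _ hc))
    (hmem _ (fun c hc => hback _ a.hω _ hc))
  refine ⟨-g, Γ.neg_mem hg, ?_⟩
  rw [log_pm b _ hs0, log_pm b _ hs0] at hg'
  unfold GG
  rw [hτ'.exp, ← hs]
  linarith

/-- the sum of the weights of a chain -/
lemma sum_wt {f : RM C} (pd : f.PData) {S : Set C} (s : ℕ → St S Ω)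
    (hs : ∀ n, Nx pd (s n) (s (n + 1))) (n : ℕ) :
    -(n * pd.L Ω) - (pd.V (s 0).y - Real.log (s 0).r) + (pd.V (s n).y - Real.log (s n).r) ≤
      (2 * f.d) * ∑ i ∈ Finset.range n, wt f (s i) (s (i + 1)) := by
  induction n with
  | zero => simp
  | succ n ih =>
    rw [Finset.sum_range_succ, mul_add]
    have hd : (2 * (f.d : ℝ)) ≠ 0 := by
      have := f.two_le_d
      have h2 : (2 : ℝ) ≤ f.d := by exact_mod_cast this
      linarith
    have hD := D_pos' pd (hs n)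
    have hr := (s n).h.pos
    have hr' := (s (n + 1)).h.pos
    have h1 : (2 * (f.d : ℝ)) * wt f (s n) (s (n + 1)) =
        -Real.log (f.D (s (n + 1)).y) - Real.log (s (n + 1)).r + Real.log (s n).r := by
      unfold wt
      rw [mul_div_cancel₀ _ hd, Real.log_div (by positivity) hr.ne',
        Real.log_mul hD.ne' hr'.ne']
      ring
    rw [h1]
    have h2 := (hs n).2.2.2.2
    push_cast
    linarith

/-- the final contradiction for a chain with a marked point -/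
theorem chain_contradiction {f : RM C} (pd : f.PData) (hdn : DN C Ω) (hL : pd.L Ω < 0)
    {S : Set C} (hback : ∀ z ∈ S, ∀ w ∈ (f.fib z).roots, w ∈ S)
    {p : ℕ} (hp2 : 2 ≤ p) (hp : ∀ m : ℕ, ¬ p ∣ m → ‖(m : Ω)‖ = 1) (Γ : AddSubgroup ℝ)
    (hΓ : ∀ x : ℝ, (∀ k : ℕ, ∃ g ∈ Γ, x = (p : ℝ) ^ k * g) → x = 0)
    (hΓ0 : ∀ (a : St S Ω) (τ : C), Mk a τ → ell a τ ∈ Γ)
    (s : ℕ → St S Ω) (hs : ∀ n, Nx pd (s n) (s (n + 1))) (τ₀ : C) (hτ₀ : Mk (s 0) τ₀) : False := by
  -- the trajectory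
  obtain ⟨τ, hτ, hG⟩ : ∃ τ : ℕ → C, (∀ n, Mk (s n) (τ n)) ∧
      ∀ n, GG f (s n) (s (n + 1)) (ell (s (n + 1)) (τ (n + 1))) = ell (s n) (τ n) := by
    have hstep : ∀ (n : ℕ) (x : {τ // Mk (s n) τ}), ∃ x' : {τ // Mk (s (n + 1)) τ},
        GG f (s n) (s (n + 1)) (ell (s (n + 1)) x'.1) = ell (s n) x.1 := by
      intro n x
      obtain ⟨τ', h1, h2⟩ := lift_mk pd hdn hback (hs n) x.2
      exact ⟨⟨τ', h1⟩, h2⟩
    choose g hg using hstep
    let T : (n : ℕ) → {τ // Mk (s n) τ} := fun n => Nat.rec ⟨τ₀, hτ₀⟩ (fun n x => g n x) n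
    exact ⟨fun n => (T n).1, fun n => (T n).2, fun n => hg n (T n)⟩
  set ℓ : ℕ → ℝ := fun n => ell (s n) (τ n) with hℓ
  have hℓ0 : ∀ n, 0 < ℓ n := fun n => (hτ n).pos
  set w : ℕ → ℝ := fun n => wt f (s n) (s (n + 1)) with hw
  have hshr : ∀ n, ℓ (n + 1) + min (ℓ (n + 1)) (max (w n) 0) ≤ ℓ n := by
    intro n
    have := GG_lower pd hdn hp2 hp (hs n) (hℓ0 (n + 1)).le
    rw [hG n] at this
    exact this
  -- infinitely many good steps
  have hgood : ∀ N, ∃ j, N ≤ j ∧ ℓ (j + 1) < w j := by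
    by_contra hno
    push Not at hno
    obtain ⟨N, hN⟩ := hno
    have h1 : ∀ j, N ≤ j → w j ≤ ℓ j - ℓ (j + 1) := by
      intro j hj
      have h2 := hN j hj
      have h3 := hshr j
      rcases le_total (w j) 0 with h4 | h4
      · rw [max_eq_right h4, min_eq_right (hℓ0 _).le] at h3
        linarith
      · rw [max_eq_left h4, min_eq_right h2] at h3
        linarith
    have h2 : ∀ n, ∑ i ∈ Finset.range (N + n), w i ≤ ∑ i ∈ Finset.range N, w i + ℓ N - ℓ (N + n) := by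
      intro n
      induction n with
      | zero => simp
      | succ n ih =>
        rw [← add_assoc, Finset.sum_range_succ]
        have := h1 (N + n) (by omega)
        linarith
    obtain ⟨B, hB⟩ := V_lower (Ω := Ω) pd
    have hd : (0 : ℝ) < 2 * f.d := by
      have := f.two_le_d
      have h2 : (2 : ℝ) ≤ f.d := by exact_mod_cast this
      linarith
    set K := (2 * f.d) * (∑ i ∈ Finset.range N, w i + ℓ N) + (pd.V (s 0).y - Real.log (s 0).r) - B
      with hK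
    obtain ⟨n, hn⟩ := exists_nat_gt (K / (-pd.L Ω))
    rw [div_lt_iff₀ (by linarith)] at hn
    have h3 := sum_wt pd s hs (N + n)
    have h4 := hB _ _ (s (N + n)).h
    have h5 := h2 n
    have h6 := hℓ0 (N + n)
    have h7 : (2 * f.d) * ∑ i ∈ Finset.range (N + n), w i ≤
        (2 * f.d) * (∑ i ∈ Finset.range N, w i + ℓ N) :=
      mul_le_mul_of_nonneg_left (by linarith) hd.le
    have h8 : (0 : ℝ) ≤ -(N * pd.L Ω) := by
      have : (0 : ℝ) ≤ N := Nat.cast_nonneg _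
      nlinarith
    push_cast at h3
    nlinarith
  -- the divisibility
  have hQ : ∀ K n : ℕ, ∀ τ', Mk (s n) τ' → ell (s n) τ' ≤ ℓ n →
      ell (s n) τ' ∈ Γ.map (AddMonoidHom.mulLeft ((p : ℝ) ^ K)) := by
    intro K
    induction K with
    | zero =>
      intro n τ' h1 _
      exact ⟨_, hΓ0 _ _ h1, by simp⟩
    | succ K ih =>
      -- lifts
      have hlift : ∀ n τ', Mk (s n) τ' → ell (s n) τ' ≤ ℓ n → ∃ τ'', Mk (s (n + 1)) τ'' ∧
          GG f (s n) (s (n + 1)) (ell (s (n + 1)) τ'') = ell (s n) τ' ∧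
          ell (s (n + 1)) τ'' ≤ ℓ (n + 1) := by
        intro n τ' h1 h2
        obtain ⟨τ'', h3, h4⟩ := lift_mk pd hdn hback (hs n) h1
        refine ⟨τ'', h3, h4, ?_⟩
        by_contra h5
        push Not at h5
        have h6 := GG_mono pd (hs n) (hℓ0 (n + 1)).le h5
        rw [h4, hG n] at h6
        exact absurd h2 (not_le.mpr h6)
      -- good step
      have hgs : ∀ j, ℓ (j + 1) < w j → ∀ τ', Mk (s j) τ' → ell (s j) τ' ≤ ℓ j →
          ell (s j) τ' ∈ Γ.map (AddMonoidHom.mulLeft ((p : ℝ) ^ (K + 1))) := by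
        intro j hj τ' h1 h2
        obtain ⟨τ'', h3, h4, h5⟩ := hlift j τ' h1 h2
        obtain ⟨g, ⟨g', hg', hg''⟩, hg⟩ := GG_mem pd hback (hs j) (q := p)
          (Γ.map (AddMonoidHom.mulLeft ((p : ℝ) ^ K))) h3
          (by
            intro x hx hx1
            apply dvd_of_wt pd hdn hp (hs j) (u := ell (s (j + 1)) τ'') _ hx1
            · exact lt_of_le_of_lt h5 hj
            · rw [h3.exp]; exact hx.le)
          (fun τ1 hτ1 hτ1' => ih (j + 1) τ1 hτ1 (le_trans hτ1' h5))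
        refine ⟨g', hg', ?_⟩
        rw [← h4, hg, ← hg'']
        show (p : ℝ) ^ (K + 1) * g' = p * ((p : ℝ) ^ K * g')
        ring
      -- plain steps
      have hps : ∀ n, (∀ τ', Mk (s (n + 1)) τ' → ell (s (n + 1)) τ' ≤ ℓ (n + 1) →
          ell (s (n + 1)) τ' ∈ Γ.map (AddMonoidHom.mulLeft ((p : ℝ) ^ (K + 1)))) →
          (∀ τ', Mk (s n) τ' → ell (s n) τ' ≤ ℓ n →
          ell (s n) τ' ∈ Γ.map (AddMonoidHom.mulLeft ((p : ℝ) ^ (K + 1)))) := by
        intro n hn τ' h1 h2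
        obtain ⟨τ'', h3, h4, h5⟩ := hlift n τ' h1 h2
        obtain ⟨g, hg', hg⟩ := GG_mem pd hback (hs n) (q := 1)
          (Γ.map (AddMonoidHom.mulLeft ((p : ℝ) ^ (K + 1)))) h3
          (fun x hx hx1 => by simp)
          (fun τ1 hτ1 hτ1' => hn τ1 hτ1 (le_trans hτ1' h5))
        rw [← h4, hg, Nat.cast_one, one_mul]
        exact hg'
      intro n
      obtain ⟨j, hj1, hj2⟩ := hgood n
      obtain ⟨i, rfl⟩ : ∃ i, j = n + i := ⟨j - n, by omega⟩
      have hfin : ∀ i n, (∀ τ', Mk (s (n + i)) τ' → ell (s (n + i)) τ' ≤ ℓ (n + i) →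
          ell (s (n + i)) τ' ∈ Γ.map (AddMonoidHom.mulLeft ((p : ℝ) ^ (K + 1)))) →
          (∀ τ', Mk (s n) τ' → ell (s n) τ' ≤ ℓ n →
          ell (s n) τ' ∈ Γ.map (AddMonoidHom.mulLeft ((p : ℝ) ^ (K + 1)))) := by
        intro i
        induction i with
        | zero => intro n h; exact h
        | succ i ihi =>
          intro n h
          apply ihi n
          apply hps
          exact h
      exact hfin i n (hgs _ hj2)
  have h0 : ℓ 0 = 0 := by
    apply hΓ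
    intro k
    obtain ⟨g, hg, hg'⟩ := hQ k 0 (τ 0) (hτ 0) le_rfl
    exact ⟨g, hg, hg'.symm⟩
  have := hℓ0 0
  linarith

end

end Pool.Agent.H53.Tame
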