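import Pool.Agent.H53.Tame.Step

/-!
Lifting a marked point.
-/

open Polynomial

namespace Pool.Agent.H53.Tame

lemma exists_gap_lt {α : Type*} (m : Multiset α) (e : α → ℝ) {c t : ℝ} (hct : c < t) :
    ∃ s, c < s ∧ s < t ∧ ∀ p ∈ m, e p < t → e p < s := by
  induction m using Multiset.induction_on with
  | empty => exact ⟨(c + t) / 2, by linarith, by linarith, by simp⟩
  | cons a m ih =>
    obtain ⟨s, hs0, hs1, hs⟩ := ih
    by_cases ha : e a < t
    · refine ⟨max s ((e a + t) / 2), lt_max_of_lt_left hs0, max_lt hs1 (by linarith), ?_⟩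
      intro p hp hp1
      rw [Multiset.mem_cons] at hp
      rcases hp with rfl | hp
      · exact lt_max_of_lt_right (by linarith)
      · exact lt_max_of_lt_left (hs p hp hp1)
    · refine ⟨s, hs0, hs1, ?_⟩
      intro p hp hp1
      rw [Multiset.mem_cons] at hp
      rcases hp with rfl | hp
      · exact absurd hp1 ha
      · exact hs p hp hp1

lemma exists_gap_gt {α : Type*} (m : Multiset α) (e : α → ℝ) {c t : ℝ} (hct : t < c) :
    ∃ s, t < s ∧ s < c ∧ ∀ p ∈ m, e p ≤ s → e p ≤ t := by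
  induction m using Multiset.induction_on with
  | empty => exact ⟨(c + t) / 2, by linarith, by linarith, by simp⟩
  | cons a m ih =>
    obtain ⟨s, hs0, hs1, hs⟩ := ih
    by_cases ha : e a ≤ t
    · refine ⟨s, hs0, hs1, ?_⟩
      intro p hp hp1
      rw [Multiset.mem_cons] at hp
      rcases hp with rfl | hp
      · exact ha
      · exact hs p hp hp1
    · push Not at ha
      refine ⟨min s ((e a + t) / 2), lt_min hs0 (by linarith), min_lt_of_left_lt hs1, ?_⟩
      intro p hp hp1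
      rw [Multiset.mem_cons] at hp
      rcases hp with rfl | hp
      · have := le_trans hp1 (min_le_right _ _)
        linarith
      · exact hs p hp (le_trans hp1 (min_le_left _ _))

section

variable {C : Type*} [Field C] {Ω : Type*} [NormedField Ω] [IsUltrametricDist Ω] [Algebra C Ω]

omit [IsUltrametricDist Ω] in
open Classical in
lemma pm_mul_pow (y : Ω) (r : ℝ) (F : C[X]) (α : C) {s t : ℝ} (hst : s ≤ t)
    (h : ∀ p ∈ F.roots, E y r α p < t → E y r α p ≤ s) :
    pm y r F α t * s ^ cnt y r F α t = pm y r F α s * t ^ cnt y r F α t := by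
  unfold pm cnt
  generalize F.roots = m at h
  induction m using Multiset.induction_on with
  | empty => simp
  | cons a m ih =>
    have ih' := ih (fun p hp => h p (Multiset.mem_cons_of_mem hp))
    rw [Multiset.map_cons, Multiset.prod_cons, Multiset.map_cons, Multiset.prod_cons,
      Multiset.filter_cons]
    by_cases ha : E y r α a < t
    · have h1 := h a (Multiset.mem_cons_self a m) ha
      rw [if_pos ha, max_eq_left h1, max_eq_left (le_trans h1 hst), Multiset.card_add,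
        Multiset.card_singleton, pow_add, pow_add, pow_one, pow_one]
      linear_combination (t * s) * ih'
    · have h1 : t ≤ E y r α a := not_lt.mp ha
      rw [if_neg ha, max_eq_right h1, max_eq_right (le_trans hst h1), zero_add]
      linear_combination (E y r α a) * ih'

omit [IsUltrametricDist Ω] in
open Classical in
lemma cnt_congr (y : Ω) (r : ℝ) (F : C[X]) (α : C) {s t : ℝ}
    (h : ∀ p ∈ F.roots, (E y r α p < s ↔ E y r α p < t)) :
    cnt y r F α s = cnt y r F α t := by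
  unfold cnt
  congr 1
  exact Multiset.filter_congr h

omit [IsUltrametricDist Ω] in
open Classical in
lemma cnt_mono (y : Ω) (r : ℝ) (F : C[X]) (α : C) {s t : ℝ} (h : s ≤ t) :
    cnt y r F α s ≤ cnt y r F α t := by
  unfold cnt
  apply Multiset.card_le_card
  exact Multiset.monotone_filter_right _ (fun p hp => lt_of_lt_of_le hp h)

omit [IsUltrametricDist Ω] in
lemma pm_continuous (y : Ω) (r : ℝ) (F : C[X]) (α : C) : Continuous (fun s => pm y r F α s) := by
  unfold pm
  apply continuous_multiset_prod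
  intro p _
  exact continuous_id.max continuous_const

lemma pm_one {y : Ω} {r : ℝ} (h : HR C y r) (F : C[X]) (α : C) : pm y r F α 1 = 1 := by
  unfold pm
  apply Multiset.prod_eq_one
  intro x hx
  rw [Multiset.mem_map] at hx
  obtain ⟨p, _, rfl⟩ := hx
  exact max_eq_left (E_le_one h α p)

omit [IsUltrametricDist Ω] in
lemma pm_zero {y : Ω} {r : ℝ} {F : C[X]} {α : C} (hα : α ∈ F.roots) : pm y r F α 0 = 0 := by
  unfold pm
  apply Multiset.prod_eq_zero
  rw [Multiset.mem_map]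
  exact ⟨α, hα, by simp⟩

omit [IsUltrametricDist Ω] in
lemma pm_zero_pos {y : Ω} {r : ℝ} (h : HR C y r) {F : C[X]} {α : C} (hα : α ∉ F.roots) :
    0 < pm y r F α 0 := by
  unfold pm
  have : ∀ p ∈ F.roots, 0 < max 0 (E y r α p) := by
    intro p hp
    apply lt_max_of_lt_right
    apply E_pos h
    rintro rfl
    exact hα hp
  revert this
  generalize F.roots = m
  intro this
  induction m using Multiset.induction_on with
  | empty => simp
  | cons a m ih =>
    rw [Multiset.map_cons, Multiset.prod_cons]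
    exact mul_pos (this a (Multiset.mem_cons_self a m))
      (ih (fun p hp => this p (Multiset.mem_cons_of_mem hp)))

/-- comparison of the two sides across a gap -/
lemma pm_compare {a s t P Q P' Q' : ℝ} {n m : ℕ} (hs : 0 < s) (hst : s < t) (ha : 0 < a)
    (hQ : 0 < Q) (hQ' : 0 < Q') (h1 : P' * s ^ n = P * t ^ n) (h2 : Q' * s ^ m = Q * t ^ m)
    (hnm : m < n) : (P = a * Q → a * Q' < P') ∧ (P' = a * Q' → P < a * Q) := by
  obtain ⟨j, rfl⟩ : ∃ j, n = m + (j + 1) := ⟨n - m - 1, by omega⟩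
  have hj : s ^ (j + 1) < t ^ (j + 1) := pow_lt_pow_left₀ hst hs.le (by omega)
  have ht : 0 < t := lt_trans hs hst
  have hsm : 0 < s ^ m := pow_pos hs _
  have htm : 0 < t ^ m := pow_pos ht _
  have hsj : 0 < s ^ (j + 1) := pow_pos hs _
  constructor
  · intro h3
    have h4 : P' * s ^ (j + 1) = a * Q' * t ^ (j + 1) := by
      apply mul_right_cancel₀ hsm.ne'
      calc P' * s ^ (j + 1) * s ^ m = P' * s ^ (m + (j + 1)) := by rw [pow_add]; ring
        _ = a * Q * t ^ m * t ^ (j + 1) := by rw [h1, h3, pow_add]; ring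
        _ = a * (Q * t ^ m) * t ^ (j + 1) := by ring
        _ = _ := by rw [← h2]; ring
    have h5 : a * Q' * s ^ (j + 1) < P' * s ^ (j + 1) := by
      rw [h4]
      exact mul_lt_mul_of_pos_left hj (by positivity)
    exact lt_of_mul_lt_mul_right h5 hsj.le
  · intro h3
    have h4 : a * Q * t ^ (j + 1) * t ^ m = P * t ^ (j + 1) * t ^ m * (t ^ (j + 1) / s ^ (j + 1)) := by
      have e1 : a * Q * t ^ (j + 1) * t ^ m = a * (Q * t ^ m) * t ^ (j + 1) := by ring
      rw [e1, ← h2]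
      have e2 : P * t ^ (j + 1) * t ^ m = P' * s ^ (m + (j + 1)) := by rw [h1, pow_add]; ring
      rw [e2, h3, pow_add]
      field_simp
      ring
    have h6 : 0 < P * t ^ (j + 1) * t ^ m := by
      have e2 : P * t ^ (j + 1) * t ^ m = P' * s ^ (m + (j + 1)) := by rw [h1, pow_add]; ring
      rw [e2, h3]; positivity
    have h5 : P * t ^ (j + 1) * t ^ m < a * Q * t ^ (j + 1) * t ^ m := by
      rw [h4]
      have : 1 < t ^ (j + 1) / s ^ (j + 1) := by rw [one_lt_div hsj]; exact hj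
      exact lt_mul_of_one_lt_right h6 this
    exact lt_of_mul_lt_mul_right (lt_of_mul_lt_mul_right h5 htm.le) (by positivity)

variable [IsAlgClosed C]

/-- the product of a third fibre is the maximum -/
lemma three_pm (f : RM C) {y : Ω} {r : ℝ} (h : HR C y r) {β ω τ : C}
    (h2 : E y r β ω = 1) (hτ : E y r β τ < 1) {y' : Ω} {r' : ℝ} (hy' : y' ∈ f.pre y)
    (hr' : HR C y' r') {β' ω' : C} (hq : E y' r' β' ω' = 1) {ϖ : C} (hϖ : ϖ ≠ 0)
    (hϖ1 : ‖algebraMap C Ω ϖ‖ ≤ 1) :
    (E y r β τ * pm y' r' (f.fib ω) β' ‖algebraMap C Ω ϖ‖ <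
      pm y' r' (f.fib β) β' ‖algebraMap C Ω ϖ‖ →
      pm y' r' (f.fib τ) β' ‖algebraMap C Ω ϖ‖ = pm y' r' (f.fib β) β' ‖algebraMap C Ω ϖ‖) ∧
    (pm y' r' (f.fib β) β' ‖algebraMap C Ω ϖ‖ <
      E y r β τ * pm y' r' (f.fib ω) β' ‖algebraMap C Ω ϖ‖ →
      pm y' r' (f.fib τ) β' ‖algebraMap C Ω ϖ‖ =
        E y r β τ * pm y' r' (f.fib ω) β' ‖algebraMap C Ω ϖ‖) := by
  have hr := h.pos
  obtain ⟨ξ, k, hk, hξ⟩ := exists_generic hr' hq hϖ hϖ1
  set s := ‖algebraMap C Ω ϖ‖ with hs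
  have hβ := h.norm_pos β
  have hω := h.norm_pos ω
  have hτ' := h.norm_pos τ
  have e2 := (E_one_iff h β ω).mp h2
  have h3 : E y r ω τ = 1 := by
    rw [E_comm]
    exact E_eq_one_of_lt h hτ h2
  have h3' : E y r τ ω = 1 := by rw [E_comm]; exact h3
  have e3 := (E_one_iff h τ ω).mp h3'
  have e4 : r * ‖algebraMap C Ω (τ - β)‖ =
      E y r β τ * (‖y - algebraMap C Ω β‖ * ‖y - algebraMap C Ω τ‖) := by
    unfold E
    have : ‖algebraMap C Ω (τ - β)‖ = ‖algebraMap C Ω (β - τ)‖ := by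
      rw [map_sub, map_sub, norm_sub_rev]
    rw [this]
    field_simp
  -- the values of the three polynomials
  have hQ := f.Q_ne_of_mem_pre hy'
  have hP := f.mem_pre.mp hy'
  set Qy := (f.Q.map (algebraMap C Ω)).eval y' with hQy
  have hfib : ∀ z : C, ((f.fib z).map (algebraMap C Ω)).eval y' =
      Qy * (y - algebraMap C Ω z) := by
    intro z
    have : ((f.fib z).map (algebraMap C Ω)).eval y' =
        (f.P.map (algebraMap C Ω)).eval y' - algebraMap C Ω z * Qy := by
      unfold RM.fib; simp [hQy]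
    rw [this, hP]; ring
  have hval : ∀ z : C, ‖((f.fib z).map (algebraMap C Ω)).eval ξ‖ =
      k ^ f.d * (‖Qy‖ * ‖y - algebraMap C Ω z‖) * pm y' r' (f.fib z) β' s := by
    intro z
    rw [norm_eval_generic hξ, f.fib_natDegree, hfib, norm_mul]
  have hrel : algebraMap C Ω (β - ω) * ((f.fib τ).map (algebraMap C Ω)).eval ξ =
      algebraMap C Ω (τ - ω) * ((f.fib β).map (algebraMap C Ω)).eval ξ +
      - (algebraMap C Ω (τ - β) * ((f.fib ω).map (algebraMap C Ω)).eval ξ) := by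
    unfold RM.fib
    simp only [Polynomial.map_sub, Polynomial.map_mul, Polynomial.map_C, eval_sub, eval_mul,
      eval_C, map_sub]
    ring
  set R := k ^ f.d * (‖Qy‖ * ‖y - algebraMap C Ω τ‖ * ‖y - algebraMap C Ω ω‖ *
    ‖y - algebraMap C Ω β‖) / r with hR
  have hQpos : 0 < ‖Qy‖ := norm_pos_iff.mpr hQ
  have hRpos : 0 < R := by rw [hR]; positivity
  have n1 : ‖algebraMap C Ω (τ - ω) * ((f.fib β).map (algebraMap C Ω)).eval ξ‖ =
      R * pm y' r' (f.fib β) β' s := by
    rw [norm_mul, hval β, hR]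
    have : ‖algebraMap C Ω (τ - ω)‖ = ‖y - algebraMap C Ω τ‖ * ‖y - algebraMap C Ω ω‖ / r := by
      rw [← e3]; field_simp
    rw [this]; ring
  have n2 : ‖- (algebraMap C Ω (τ - β) * ((f.fib ω).map (algebraMap C Ω)).eval ξ)‖ =
      R * (E y r β τ * pm y' r' (f.fib ω) β' s) := by
    rw [norm_neg, norm_mul, hval ω, hR]
    have : ‖algebraMap C Ω (τ - β)‖ =
        E y r β τ * (‖y - algebraMap C Ω β‖ * ‖y - algebraMap C Ω τ‖) / r := by
      rw [← e4]; field_simp
    rw [this]; ring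
  have n3 : ‖algebraMap C Ω (β - ω) * ((f.fib τ).map (algebraMap C Ω)).eval ξ‖ =
      R * pm y' r' (f.fib τ) β' s := by
    rw [norm_mul, hval τ, hR]
    have : ‖algebraMap C Ω (β - ω)‖ = ‖y - algebraMap C Ω β‖ * ‖y - algebraMap C Ω ω‖ / r := by
      rw [← e2]; field_simp
    rw [this]; ring
  constructor
  · intro hlt
    have h5 : ‖- (algebraMap C Ω (τ - β) * ((f.fib ω).map (algebraMap C Ω)).eval ξ)‖ <
        ‖algebraMap C Ω (τ - ω) * ((f.fib β).map (algebraMap C Ω)).eval ξ‖ := by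
      rw [n1, n2]; exact mul_lt_mul_of_pos_left hlt hRpos
    have h6 := n3
    rw [hrel, IsUltrametricDist.norm_add_eq_max_of_norm_ne_norm (ne_of_gt h5),
      max_eq_left h5.le, n1] at h6
    exact (mul_left_cancel₀ hRpos.ne' h6).symm
  · intro hlt
    have h5 : ‖algebraMap C Ω (τ - ω) * ((f.fib β).map (algebraMap C Ω)).eval ξ‖ <
        ‖- (algebraMap C Ω (τ - β) * ((f.fib ω).map (algebraMap C Ω)).eval ξ)‖ := by
      rw [n1, n2]; exact mul_lt_mul_of_pos_left hlt hRpos
    have h6 := n3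
    rw [hrel, IsUltrametricDist.norm_add_eq_max_of_norm_ne_norm (ne_of_lt h5),
      max_eq_right h5.le, n2] at h6
    exact (mul_left_cancel₀ hRpos.ne' h6).symm

/-- **Lifting a marked point.** -/
theorem lift_marked (f : RM C) (hdn : DN C Ω) {y : Ω} {r : ℝ} (h : HR C y r) {β ω τ : C}
    (h2 : E y r β ω = 1) (hτ0 : β ≠ τ) (hτ : E y r β τ < 1) {y' : Ω} {r' : ℝ}
    (hy' : y' ∈ f.pre y) (hr' : HR C y' r') {β' ω' : C} (hβ' : β' ∈ (f.fib β).roots)
    (hq : E y' r' β' ω' = 1)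
    (hpos : ∀ s : ℝ, 0 < s → s ≤ 1 → cnt y' r' (f.fib ω) β' s < cnt y' r' (f.fib β) β' s) :
    ∃ τ' ∈ (f.fib τ).roots, β' ≠ τ' ∧ E y' r' β' τ' < 1 ∧
      pm y' r' (f.fib β) β' (E y' r' β' τ') =
        E y r β τ * pm y' r' (f.fib ω) β' (E y' r' β' τ') := by
  have he0 := E_pos h hτ0
  set e := E y r β τ with he
  have hβω : β ≠ ω := by
    rintro rfl
    rw [E_self] at h2; exact zero_ne_one h2
  have hβ'ω : β' ∉ (f.fib ω).roots := by
    intro h0
    rw [f.mem_fib_roots] at h0 hβ'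
    have hQ := f.Q_ne_of_P h0
    rw [hβ'] at h0
    exact hβω (mul_right_cancel₀ hQ h0)
  -- the radius
  obtain ⟨s, hsI, hs⟩ : ∃ s ∈ Set.Icc (0 : ℝ) 1, pm y' r' (f.fib β) β' s -
      e * pm y' r' (f.fib ω) β' s = 0 := by
    have hc : ContinuousOn (fun s => pm y' r' (f.fib β) β' s - e * pm y' r' (f.fib ω) β' s)
        (Set.Icc (0 : ℝ) 1) :=
      ((pm_continuous _ _ _ _).sub (continuous_const.mul (pm_continuous _ _ _ _))).continuousOn
    have hiv := intermediate_value_Icc (zero_le_one) hc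
    have h0 : (0 : ℝ) ∈ Set.Icc (pm y' r' (f.fib β) β' 0 - e * pm y' r' (f.fib ω) β' 0)
        (pm y' r' (f.fib β) β' 1 - e * pm y' r' (f.fib ω) β' 1) := by
      constructor
      · rw [pm_zero hβ']
        have := pm_zero_pos hr' hβ'ω
        have := mul_pos he0 this
        linarith
      · rw [pm_one hr', pm_one hr']; linarith
    obtain ⟨s, hs, hs'⟩ := hiv h0
    exact ⟨s, hs, hs'⟩
  have hs' : pm y' r' (f.fib β) β' s = e * pm y' r' (f.fib ω) β' s := by linarith
  have hs0 : 0 < s := by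
    rcases hsI.1.eq_or_lt with h0 | h0
    · exfalso
      rw [← h0, pm_zero hβ'] at hs'
      have := mul_pos he0 (pm_zero_pos hr' hβ'ω)
      linarith
    · exact h0
  have hs1 : s < 1 := by
    rcases hsI.2.eq_or_lt with h0 | h0
    · exfalso
      rw [h0, pm_one hr', pm_one hr'] at hs'
      linarith
    · exact h0
  by_cases hex : ∃ τ' ∈ (f.fib τ).roots, E y' r' β' τ' = s
  · obtain ⟨τ', h5, h6⟩ := hex
    refine ⟨τ', h5, ?_, by rw [h6]; exact hs1, by rw [h6]; exact hs'⟩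
    rintro rfl
    rw [E_self] at h6
    exact hs0.ne h6
  exfalso
  push Not at hex
  -- gaps
  set M := (f.fib β).roots + (f.fib ω).roots + (f.fib τ).roots with hM
  obtain ⟨s1, hs1a, hs1b, hs1c⟩ := exists_gap_lt M (fun p => E y' r' β' p) hs0
  obtain ⟨s2, hs2a, hs2b, hs2c⟩ := exists_gap_gt M (fun p => E y' r' β' p) hs1
  have hMβ : ∀ p ∈ (f.fib β).roots, p ∈ M := fun p hp => by simp [hM, Multiset.mem_add, hp]
  have hMω : ∀ p ∈ (f.fib ω).roots, p ∈ M := fun p hp => by simp [hM, Multiset.mem_add, hp]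
  have hMτ : ∀ p ∈ (f.fib τ).roots, p ∈ M := fun p hp => by simp [hM, Multiset.mem_add, hp]
  -- two values on the right
  obtain ⟨a, ha0, ha1, ha2⟩ := hdn s s2 hs0.le hs2a
  obtain ⟨b, hb0, hb1, hb2⟩ := hdn ‖algebraMap C Ω a‖ s2 (norm_nonneg _) ha2
  -- two values on the left
  obtain ⟨c, hc0, hc1, hc2⟩ := hdn s1 s hs1a.le hs1b
  obtain ⟨g, hg0, hg1, hg2⟩ := hdn ‖algebraMap C Ω c‖ s (norm_nonneg _) hc2
  set a' := ‖algebraMap C Ω a‖ with ha'
  set b' := ‖algebraMap C Ω b‖ with hb'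
  set c' := ‖algebraMap C Ω c‖ with hc'
  set g' := ‖algebraMap C Ω g‖ with hg'
  have hposω : ∀ t : ℝ, 0 < t → 0 < pm y' r' (f.fib ω) β' t := fun t ht => pm_pos _ _ _ _ ht
  have hposβ : ∀ t : ℝ, 0 < t → 0 < pm y' r' (f.fib β) β' t := fun t ht => pm_pos _ _ _ _ ht
  have hposτ : ∀ t : ℝ, 0 < t → 0 < pm y' r' (f.fib τ) β' t := fun t ht => pm_pos _ _ _ _ ht
  -- on the right
  have hR : ∀ (t : C), t ≠ 0 → s < ‖algebraMap C Ω t‖ → ‖algebraMap C Ω t‖ < s2 →
      pm y' r' (f.fib τ) β' ‖algebraMap C Ω t‖ = pm y' r' (f.fib β) β' ‖algebraMap C Ω t‖ := by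
    intro t ht0 ht1 ht2
    apply (three_pm f h h2 hτ hy' hr' hq ht0 (by linarith)).1
    have k1 := pm_mul_pow y' r' (f.fib β) β' ht1.le
      (fun p hp hp1 => hs2c p (hMβ p hp) (le_trans hp1.le ht2.le))
    have k2 := pm_mul_pow y' r' (f.fib ω) β' ht1.le
      (fun p hp hp1 => hs2c p (hMω p hp) (le_trans hp1.le ht2.le))
    exact (pm_compare hs0 ht1 he0 (hposω _ hs0) (hposω _ (lt_trans hs0 ht1)) k1 k2
      (hpos _ (lt_trans hs0 ht1) (by linarith))).1 hs'
  have hL : ∀ (t : C), t ≠ 0 → s1 < ‖algebraMap C Ω t‖ → ‖algebraMap C Ω t‖ < s →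
      pm y' r' (f.fib τ) β' ‖algebraMap C Ω t‖ =
        e * pm y' r' (f.fib ω) β' ‖algebraMap C Ω t‖ := by
    intro t ht0 ht1 ht2
    apply (three_pm f h h2 hτ hy' hr' hq ht0 (by linarith)).2
    have k1 := pm_mul_pow y' r' (f.fib β) β' ht2.le
      (fun p hp hp1 => le_trans (hs1c p (hMβ p hp) hp1).le ht1.le)
    have k2 := pm_mul_pow y' r' (f.fib ω) β' ht2.le
      (fun p hp hp1 => le_trans (hs1c p (hMω p hp) hp1).le ht1.le)
    have ht3 : 0 < ‖algebraMap C Ω t‖ := lt_trans hs1a ht1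
    exact (pm_compare ht3 ht2 he0 (hposω _ ht3) (hposω _ hs0) k1 k2
      (hpos _ hs0 hs1.le)).2 hs'
  have hRa := hR a ha0 ha1 ha2
  have hRb := hR b hb0 (lt_trans ha1 hb1) hb2
  have hLc := hL c hc0 hc1 hc2
  have hLg := hL g hg0 (lt_trans hc1 hg1) hg2
  have ha'0 : 0 < a' := lt_trans hs0 ha1
  have hc'0 : 0 < c' := lt_trans hs1a hc1
  -- the counts
  have k1 := pm_mul_pow y' r' (f.fib τ) β' hb1.le
      (fun p hp hp1 => le_trans (hs2c p (hMτ p hp) (le_trans hp1.le hb2.le)) ha1.le)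
  have k2 := pm_mul_pow y' r' (f.fib β) β' hb1.le
      (fun p hp hp1 => le_trans (hs2c p (hMβ p hp) (le_trans hp1.le hb2.le)) ha1.le)
  have k3 := pm_mul_pow y' r' (f.fib τ) β' hg1.le
      (fun p hp hp1 => le_trans (hs1c p (hMτ p hp) (lt_trans hp1 hg2)).le hc1.le)
  have k4 := pm_mul_pow y' r' (f.fib ω) β' hg1.le
      (fun p hp hp1 => le_trans (hs1c p (hMω p hp) (lt_trans hp1 hg2)).le hc1.le)
  have hinj : ∀ {u v P Q : ℝ} {n m : ℕ}, 0 < u → u < v → 0 < P → 0 < Q →
      P * u ^ n = Q * v ^ n → P * u ^ m = Q * v ^ m → n = m := by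
    intro u v P Q n m hu huv hP hQ e1 e2
    have hv : 0 < v := lt_trans hu huv
    have e3 : (u / v) ^ n = (u / v) ^ m := by
      have f1 : (u / v) ^ n = Q / P := by
        rw [div_pow, div_eq_div_iff (by positivity) (by positivity)]; linarith
      have f2 : (u / v) ^ m = Q / P := by
        rw [div_pow, div_eq_div_iff (by positivity) (by positivity)]; linarith
      rw [f1, f2]
    exact pow_right_injective₀ (by positivity) (by rw [Ne, div_eq_one_iff_eq hv.ne']; exact huv.ne) e3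
  have m1 : cnt y' r' (f.fib τ) β' b' = cnt y' r' (f.fib β) β' b' := by
    rw [hRa, hRb] at k1
    exact hinj ha'0 hb1 (hposβ _ (lt_trans ha'0 hb1)) (hposβ _ ha'0) k1 k2
  have m2 : cnt y' r' (f.fib τ) β' g' = cnt y' r' (f.fib ω) β' g' := by
    rw [hLc, hLg] at k3
    have k3' : pm y' r' (f.fib ω) β' g' * c' ^ cnt y' r' (f.fib τ) β' g' =
        pm y' r' (f.fib ω) β' c' * g' ^ cnt y' r' (f.fib τ) β' g' := by
      apply mul_left_cancel₀ he0.ne'
      linarith
    exact hinj hc'0 hg1 (hposω _ (lt_trans hc'0 hg1)) (hposω _ hc'0) k3' k4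
  have m3 : cnt y' r' (f.fib τ) β' b' = cnt y' r' (f.fib τ) β' g' := by
    apply cnt_congr
    intro p hp
    constructor
    · intro h5
      have h6 := hs2c p (hMτ p hp) (le_trans h5.le hb2.le)
      have h7 := lt_of_le_of_ne h6 (hex p hp)
      exact lt_trans (hs1c p (hMτ p hp) h7) (lt_trans hc1 hg1)
    · intro h5
      exact lt_trans h5 (lt_trans hg2 (lt_trans ha1 hb1))
  have m4 : cnt y' r' (f.fib ω) β' s < cnt y' r' (f.fib β) β' s := hpos s hs0 hs1.le
  have m5 : cnt y' r' (f.fib β) β' s ≤ cnt y' r' (f.fib β) β' b' :=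
    cnt_mono _ _ _ _ (lt_trans ha1 hb1).le
  have m6 : cnt y' r' (f.fib ω) β' g' ≤ cnt y' r' (f.fib ω) β' s := cnt_mono _ _ _ _ hg2.le
  omega

end

end Pool.Agent.H53.Tame
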