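import Pool.Agent.H53.Tame.Base

/-!
Existence of a large algebraically closed ultrametric field.
-/

open Polynomial

namespace Pool.Agent.H53.Tame

universe u

section Ext

/-- Extension of a nonarchimedean absolute value to an algebraically closed field. -/
theorem exists_closed_ext {k : Type u} [Field k] (v : AbsoluteValue k ℝ) (hv : IsNonarchimedean v)
    (hnt : ∃ x, 1 < v x) :
    ∃ (Ω : Type u) (_ : NormedField Ω) (_ : IsUltrametricDist Ω) (_ : IsAlgClosed Ω)
      (i : k →+* Ω), ∀ x, ‖i x‖ = v x := by
  let Kc := UniformSpace.Completion (WithAbs v)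
  let i1 : k →+* Kc := (UniformSpace.Completion.coeRingHom (α := WithAbs v)).comp
    (WithAbs.equiv v).symm.toRingHom
  have hi1 : ∀ x, ‖i1 x‖ = v x := by
    intro x
    show ‖(((WithAbs.equiv v).symm x : WithAbs v) : Kc)‖ = v x
    rw [UniformSpace.Completion.norm_coe]
    rfl
  letI : NontriviallyNormedField Kc :=
    { (inferInstance : NormedField Kc) with
      non_trivial := by
        obtain ⟨x, hx⟩ := hnt
        exact ⟨i1 x, by rw [hi1 x]; exact hx⟩ }
  haveI : IsUltrametricDist Kc := by
    apply IsUltrametricDist.isUltrametricDist_of_forall_norm_add_le_max_norm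
    intro x y
    refine UniformSpace.Completion.induction_on₂ x y ?_ ?_
    · exact isClosed_le (by fun_prop) (by fun_prop)
    · intro a b
      rw [← UniformSpace.Completion.coe_add, UniformSpace.Completion.norm_coe,
        UniformSpace.Completion.norm_coe, UniformSpace.Completion.norm_coe]
      exact hv _ _
  let Ω := AlgebraicClosure Kc
  letI : NormedField Ω := spectralNorm.normedField Kc Ω
  haveI : IsUltrametricDist Ω := by
    apply IsUltrametricDist.isUltrametricDist_of_forall_norm_add_le_max_norm
    intro x y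
    exact isNonarchimedean_spectralNorm x y
  refine ⟨Ω, inferInstance, inferInstance, inferInstance, (algebraMap Kc Ω).comp i1, ?_⟩
  intro x
  rw [RingHom.comp_apply, ← hi1 x]
  exact spectralNorm_extends _

end Ext

section Gauss

variable {C : Type u} [Field C] (v : AbsoluteValue C ℝ) (hv : IsNonarchimedean v)

lemma gauss_X_sub_C (hv : IsNonarchimedean v) (c : C) :
    (X - Polynomial.C c : C[X]).gaussNorm v 1 = max 1 (v c) := by
  apply le_antisymm
  · have h := isNonarchimedean_gaussNorm v hv (zero_le_one) (X : C[X]) (Polynomial.C (-c))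
    rw [gaussNorm_C, AbsoluteValue.map_neg] at h
    have hX : (X : C[X]).gaussNorm v 1 = 1 := by
      rw [← monomial_one_one_eq_X, gaussNorm_monomial]; simp
    rw [hX] at h
    rw [sub_eq_add_neg, ← Polynomial.C_neg]
    exact h
  · apply max_le
    · have := le_gaussNorm v (X - Polynomial.C c : C[X]) zero_le_one 1
      simpa using this
    · have := le_gaussNorm v (X - Polynomial.C c : C[X]) zero_le_one 0
      simpa using this

open NNReal in
/-- the Gauss valuation -/
noncomputable def gaussVal (hv : IsNonarchimedean v) : Valuation C[X] ℝ≥0 where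
  toFun p := ⟨p.gaussNorm v 1, p.gaussNorm_nonneg v zero_le_one⟩
  map_zero' := by
    apply NNReal.eq
    exact gaussNorm_zero v 1
  map_one' := by
    apply NNReal.eq
    have : (1 : C[X]).gaussNorm v 1 = 1 := by
      rw [← Polynomial.C_1, gaussNorm_C, map_one]
    exact this
  map_mul' p q := by
    apply NNReal.eq
    exact gaussNorm_mul hv one_pos p q
  map_add_le_max' p q := by
    have := isNonarchimedean_gaussNorm v hv zero_le_one p q
    exact this

theorem exists_Omega (hv : IsNonarchimedean v) (hnt : ∃ x, 1 < v x) :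
    ∃ (Ω : Type u) (_ : NormedField Ω) (_ : IsUltrametricDist Ω) (_ : IsAlgClosed Ω)
      (_ : Algebra C Ω), (∀ x, ‖algebraMap C Ω x‖ = v x) ∧ ∃ t : Ω, RT C t := by
  have hS : nonZeroDivisors C[X] ≤ (gaussVal v hv).supp.primeCompl := by
    intro p hp
    have hp0 : p ≠ 0 := nonZeroDivisors.ne_zero hp
    intro h
    have h1 : gaussVal v hv p = 0 := (Valuation.mem_supp_iff _ _).mp h
    have h2 : p.gaussNorm v 1 = 0 := congrArg NNReal.toReal h1
    rw [gaussNorm_eq_zero_iff v p (fun x hx => (AbsoluteValue.eq_zero v).mp hx) one_pos] at h2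
    exact hp0 h2
  let K := FractionRing C[X]
  let w : Valuation K NNReal := (gaussVal v hv).extendToLocalization hS K
  have hw : ∀ p : C[X], (w (algebraMap C[X] K p) : ℝ) = p.gaussNorm v 1 := by
    intro p
    have := Valuation.extendToLocalization_apply_map_apply (gaussVal v hv) hS K p
    exact congrArg NNReal.toReal this
  let vK : AbsoluteValue K ℝ :=
    { toFun := fun x => (w x : ℝ)
      map_mul' := fun x y => by rw [map_mul]; rfl
      nonneg' := fun x => NNReal.coe_nonneg _
      eq_zero' := fun x => by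
        rw [NNReal.coe_eq_zero]
        exact map_eq_zero w
      add_le' := fun x y => by
        have h1 : (w (x + y) : ℝ) ≤ max (w x : ℝ) (w y : ℝ) := by
          exact_mod_cast w.map_add x y
        refine le_trans h1 (max_le ?_ ?_)
        · have := NNReal.coe_nonneg (w y); linarith
        · have := NNReal.coe_nonneg (w x); linarith }
  have hvK : IsNonarchimedean vK := by
    intro x y
    show (w (x + y) : ℝ) ≤ max (w x : ℝ) (w y : ℝ)
    exact_mod_cast w.map_add x y
  have hcst : ∀ x : C, vK (algebraMap C[X] K (Polynomial.C x)) = v x := by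
    intro x
    have h1 := hw (Polynomial.C x)
    rw [gaussNorm_C] at h1
    exact h1
  obtain ⟨Ω, i1, i2, i3, i, hi⟩ := exists_closed_ext vK hvK (by
    obtain ⟨x, hx⟩ := hnt
    exact ⟨algebraMap C[X] K (Polynomial.C x), by rw [hcst]; exact hx⟩)
  refine ⟨Ω, i1, i2, i3, ((i.comp (algebraMap C[X] K)).comp Polynomial.C).toAlgebra, ?_, ?_⟩
  · intro x
    show ‖i (algebraMap C[X] K (Polynomial.C x))‖ = v x
    rw [hi, hcst]
  · refine ⟨i (algebraMap C[X] K X), fun c => ?_⟩
    show ‖i (algebraMap C[X] K X) - i (algebraMap C[X] K (Polynomial.C c))‖ =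
      max 1 ‖i (algebraMap C[X] K (Polynomial.C c))‖
    rw [← map_sub, ← map_sub, hi, hi, hcst]
    have h1 := hw (X - Polynomial.C c)
    rw [gauss_X_sub_C v hv] at h1
    exact h1

end Gauss

section Dense

variable {C : Type u} [Field C] [IsAlgClosed C]

/-- the values are dense -/
theorem dense_values {Ω : Type*} [NormedField Ω] [Algebra C Ω]
    (hnt : ∃ x : C, 1 < ‖algebraMap C Ω x‖) : DN C Ω := by
  have key : ∀ a b : ℝ, 0 < a → a < b → ∃ c : C, c ≠ 0 ∧ a < ‖algebraMap C Ω c‖ ∧
      ‖algebraMap C Ω c‖ < b := by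
    intro a b ha hab
    obtain ⟨x, hx⟩ := hnt
    have hL : 0 < Real.log ‖algebraMap C Ω x‖ := Real.log_pos hx
    have hb : 0 < b := lt_trans ha hab
    have hlog : Real.log a / Real.log ‖algebraMap C Ω x‖ <
        Real.log b / Real.log ‖algebraMap C Ω x‖ :=
      div_lt_div_of_pos_right (Real.log_lt_log ha hab) hL
    obtain ⟨q, hq1, hq2⟩ := exists_rat_btwn hlog
    have hx0 : x ≠ 0 := by
      rintro rfl
      rw [map_zero, norm_zero] at hx
      linarith
    obtain ⟨y, hy⟩ := IsAlgClosed.exists_pow_nat_eq (x ^ q.num) q.pos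
    have hy0 : y ≠ 0 := by
      rintro rfl
      rw [zero_pow q.den_ne_zero] at hy
      exact zpow_ne_zero _ hx0 hy.symm
    have hyN : 0 < ‖algebraMap C Ω y‖ := by
      rw [norm_pos_iff, Ne, map_eq_zero]; exact hy0
    have h1 : (q.den : ℝ) * Real.log ‖algebraMap C Ω y‖ =
        q.num * Real.log ‖algebraMap C Ω x‖ := by
      have h2 := congrArg (fun z => Real.log ‖algebraMap C Ω z‖) hy
      simp only [map_pow, map_zpow₀, norm_pow, norm_zpow, Real.log_pow, Real.log_zpow] at h2
      exact h2
    have h2 : Real.log ‖algebraMap C Ω y‖ = q * Real.log ‖algebraMap C Ω x‖ := by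
      have hden : (q.den : ℝ) ≠ 0 := by exact_mod_cast q.den_ne_zero
      have hq : (q : ℝ) = q.num / q.den := by exact_mod_cast (Rat.num_div_den q).symm
      rw [hq]
      field_simp
      linarith
    refine ⟨y, hy0, ?_, ?_⟩
    · rw [← Real.log_lt_log_iff ha hyN, h2]
      rwa [div_lt_iff₀ hL] at hq1
    · rw [← Real.log_lt_log_iff hyN hb, h2]
      rwa [lt_div_iff₀ hL] at hq2
  intro a b ha hab
  rcases ha.eq_or_lt with h | h
  · subst h
    obtain ⟨c, h1, h2, h3⟩ := key (b / 2) b (by linarith) (by linarith)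
    exact ⟨c, h1, by linarith, h3⟩
  · exact key a b h hab

end Dense

end Pool.Agent.H53.Tame
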