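import Pool.Agent.H53.Tame.Omega

/-!
The product formula gives a nonarchimedean absolute value with a negative value.
-/

open Polynomial

namespace Pool.Agent.H53.Tame

universe u

section LinComb

variable {C : Type u} [Field C]

/-- a linear combination of evaluations at nonzero elements -/
def LinComb (F : (C → ℝ) → ℝ) : Prop :=
  ∃ r : C →₀ ℝ, r 0 = 0 ∧ ∀ ν : C → ℝ, F ν = r.sum (fun x a => a * ν x)

lemma LinComb.single {x : C} (hx : x ≠ 0) : LinComb (fun ν : C → ℝ => ν x) := by
  classical
  refine ⟨Finsupp.single x 1, ?_, fun ν => ?_⟩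
  · rw [Finsupp.single_apply, if_neg hx]
  · rw [Finsupp.sum_single_index] <;> simp

lemma LinComb.zero : LinComb (fun _ : C → ℝ => (0 : ℝ)) :=
  ⟨0, rfl, fun ν => by simp⟩

lemma LinComb.add {F G : (C → ℝ) → ℝ} (hF : LinComb F) (hG : LinComb G) :
    LinComb (fun ν => F ν + G ν) := by
  obtain ⟨r, hr, hr'⟩ := hF
  obtain ⟨s, hs, hs'⟩ := hG
  refine ⟨r + s, by simp [hr, hs], fun ν => ?_⟩
  show F ν + G ν = _
  rw [Finsupp.sum_add_index', hr', hs']
  · intro a; simp
  · intro a b c; ring

lemma LinComb.smul {F : (C → ℝ) → ℝ} (c : ℝ) (hF : LinComb F) :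
    LinComb (fun ν => c * F ν) := by
  obtain ⟨r, hr, hr'⟩ := hF
  refine ⟨c • r, by simp [hr], fun ν => ?_⟩
  show c * F ν = _
  rw [Finsupp.sum_smul_index, hr', Finsupp.mul_sum]
  · apply Finsupp.sum_congr
    intro x _; ring
  · intro a; simp

lemma LinComb.sub {F G : (C → ℝ) → ℝ} (hF : LinComb F) (hG : LinComb G) :
    LinComb (fun ν => F ν - G ν) := by
  have := hF.add (hG.smul (-1))
  obtain ⟨r, hr, hr'⟩ := this
  exact ⟨r, hr, fun ν => by rw [← hr' ν]; ring⟩

lemma LinComb.msum {α : Type*} (m : Multiset α) (x : α → C) (hx : ∀ a ∈ m, x a ≠ 0) :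
    LinComb (fun ν => (m.map (fun a => ν (x a))).sum) := by
  induction m using Multiset.induction_on with
  | empty => simpa using LinComb.zero
  | cons a m ih =>
    have h1 := (LinComb.single (hx a (Multiset.mem_cons_self a m))).add
      (ih (fun b hb => hx b (Multiset.mem_cons_of_mem hb)))
    obtain ⟨r, hr, hr'⟩ := h1
    refine ⟨r, hr, fun ν => ?_⟩
    rw [← hr' ν]
    show ((a ::ₘ m).map (fun a => ν (x a))).sum = ν (x a) + (m.map (fun a => ν (x a))).sum
    rw [Multiset.map_cons, Multiset.sum_cons]

lemma LinComb.fsum {α : Type*} (s : Finset α) (c : α → ℝ) (x : α → C) (hx : ∀ a ∈ s, x a ≠ 0) :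
    LinComb (fun ν => ∑ a ∈ s, c a * ν (x a)) := by
  classical
  induction s using Finset.induction_on with
  | empty => simpa using LinComb.zero
  | insert a s ha ih =>
    have h1 := ((LinComb.single (hx a (Finset.mem_insert_self a s))).smul (c a)).add
      (ih (fun b hb => hx b (Finset.mem_insert_of_mem hb)))
    obtain ⟨r, hr, hr'⟩ := h1
    refine ⟨r, hr, fun ν => ?_⟩
    rw [← hr' ν]
    show ∑ a ∈ insert a s, c a * ν (x a) = c a * ν (x a) + ∑ a ∈ s, c a * ν (x a)
    rw [Finset.sum_insert ha]

end LinComb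

section

variable {C : Type u} [Field C]

/-- the residue characteristic -/
lemma res_char [CharZero C] [Algebra.IsAlgebraic ℚ C] (v : AbsoluteValue C ℝ)
    (hv : IsNonarchimedean v) (hnt : ∃ x, 1 < v x) :
    ∃ p : ℕ, p.Prime ∧ v p < 1 ∧ ∀ m : ℕ, ¬ p ∣ m → v m = 1 := by
  have hnat : ∀ m : ℕ, v (m : C) ≤ 1 := by
    intro m
    induction m with
    | zero => simp
    | succ m ih =>
      push_cast
      refine le_trans (hv _ _) (max_le ih (by rw [map_one]))
  -- a natural number with small absolute value
  obtain ⟨m, hm0, hm⟩ : ∃ m : ℕ, m ≠ 0 ∧ v (m : C) < 1 := by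
    by_contra hno
    push Not at hno
    have h1 : ∀ m : ℕ, m ≠ 0 → v (m : C) = 1 := fun m hm => le_antisymm (hnat m) (hno m hm)
    have h2 : ∀ q : ℚ, v (algebraMap ℚ C q) ≤ 1 := by
      intro q
      have e : algebraMap ℚ C q = (q.num : C) / (q.den : C) := by
        rw [eq_ratCast]
        exact Rat.cast_def q
      rw [e, map_div₀, h1 q.den q.den_ne_zero, div_one]
      have h3 : v ((q.num : ℤ) : C) = v ((q.num.natAbs : ℕ) : C) := by
        rcases Int.natAbs_eq q.num with h4 | h4
        · conv_lhs => rw [h4]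
          rw [Int.cast_natCast]
        · conv_lhs => rw [h4]
          rw [Int.cast_neg, Int.cast_natCast, AbsoluteValue.map_neg]
      rw [h3]; exact hnat _
    obtain ⟨x, hx⟩ := hnt
    have halg : IsIntegral ℚ x := Algebra.IsIntegral.isIntegral x
    set P := minpoly ℚ x with hP
    have hmon : P.Monic := minpoly.monic halg
    have h3 : (aeval x) P = 0 := minpoly.aeval ℚ x
    rw [aeval_eq_sum_range, Finset.sum_range_succ, hmon.coeff_natDegree, one_smul] at h3
    have hxp : 0 < v x := by linarith
    have hsum : ∀ s : Finset ℕ, (∀ i ∈ s, i < P.natDegree) →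
        v (∑ i ∈ s, P.coeff i • x ^ i) < v x ^ P.natDegree := by
      intro s
      induction s using Finset.induction_on with
      | empty => intro _; simp; positivity
      | insert a s ha ih =>
        intro hs
        rw [Finset.sum_insert ha]
        refine lt_of_le_of_lt (hv _ _) (max_lt ?_ (ih (fun i hi => hs i (Finset.mem_insert_of_mem hi))))
        rw [Algebra.smul_def, map_mul, map_pow]
        have h4 := hs a (Finset.mem_insert_self a s)
        have h5 : v x ^ a < v x ^ P.natDegree := pow_lt_pow_right₀ hx h4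
        have h6 := h2 (P.coeff a)
        have h7 : 0 < v x ^ a := by positivity
        nlinarith
    have h4 := hsum (Finset.range P.natDegree) (fun i hi => Finset.mem_range.mp hi)
    have h5 : x ^ P.natDegree = -(∑ i ∈ Finset.range P.natDegree, P.coeff i • x ^ i) := by
      rw [eq_neg_iff_add_eq_zero, add_comm]; exact h3
    have h6 : v x ^ P.natDegree = v (∑ i ∈ Finset.range P.natDegree, P.coeff i • x ^ i) := by
      rw [← map_pow, h5, AbsoluteValue.map_neg]
    linarith
  -- a prime factor
  obtain ⟨p, hp, hpv⟩ : ∃ p : ℕ, p.Prime ∧ v (p : C) < 1 := by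
    by_contra hno
    push Not at hno
    have h1 : ∀ n : ℕ, n ≠ 0 → v (n : C) = 1 := by
      intro n
      induction n using Nat.recOnMul with
      | zero => intro h; exact absurd rfl h
      | one => intro _; simp
      | prime q hq => intro _; exact le_antisymm (hnat q) (hno q hq)
      | mul a b iha ihb =>
        intro hab
        rw [Nat.cast_mul, map_mul, iha (left_ne_zero_of_mul hab), ihb (right_ne_zero_of_mul hab),
          one_mul]
    rw [h1 m hm0] at hm
    exact lt_irrefl _ hm
  refine ⟨p, hp, hpv, fun n hn => ?_⟩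
  apply le_antisymm (hnat n)
  by_contra h
  push Not at h
  have hcop : IsCoprime (n : ℤ) (p : ℤ) := by
    rw [Nat.isCoprime_iff_coprime]
    exact ((Nat.Prime.coprime_iff_not_dvd hp).mpr hn).symm
  obtain ⟨a, b, hab⟩ := hcop
  have hint : ∀ a : ℤ, v ((a : ℤ) : C) ≤ 1 := by
    intro a
    rcases Int.natAbs_eq a with h4 | h4
    · rw [h4, Int.cast_natCast]; exact hnat _
    · rw [h4, Int.cast_neg, Int.cast_natCast, AbsoluteValue.map_neg]; exact hnat _
  have h1 : (1 : C) = (a : C) * (n : C) + (b : C) * (p : C) := by exact_mod_cast hab.symm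
  have h2 : v (1 : C) < 1 := by
    rw [h1]
    refine lt_of_le_of_lt (hv _ _) (max_lt ?_ ?_)
    · rw [map_mul]
      have := hint a
      have h3 := v.nonneg (n : C)
      nlinarith
    · rw [map_mul]
      have := hint b
      have h3 := v.nonneg (p : C)
      nlinarith
  rw [map_one] at h2
  exact lt_irrefl _ h2

open NumberField in
/-- **The place with a negative exponent.** -/
theorem exists_neg_place [IsAlgClosed C] [CharZero C] [Algebra.IsAlgebraic ℚ C]
    {F : (C → ℝ) → ℝ} (hF : LinComb F)
    (hpos : ∀ σ : C →+* ℂ, 0 < F (fun x => Real.log ‖σ x‖)) :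
    ∃ v : AbsoluteValue C ℝ, IsNonarchimedean v ∧ (∃ y, 1 < v y) ∧
      F (fun x => Real.log (v x)) < 0 := by
  classical
  obtain ⟨r, hr0, hr⟩ := hF
  let E : IntermediateField ℚ C := IntermediateField.adjoin ℚ (r.support : Set C)
  haveI : FiniteDimensional ℚ E :=
    IntermediateField.finiteDimensional_adjoin (fun x _ => Algebra.IsIntegral.isIntegral x)
  haveI : NumberField E := ⟨⟩
  haveI : Algebra.IsAlgebraic E C := Algebra.IsAlgebraic.tower_top (K := ℚ) E
  choose! y hy using fun x (hx : x ∈ r.support) =>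
    (⟨⟨x, IntermediateField.subset_adjoin ℚ _ hx⟩, rfl⟩ : ∃ y : E, algebraMap E C y = x)
  have hx0 : ∀ x ∈ r.support, x ≠ 0 := by
    rintro x hx rfl
    exact (Finsupp.mem_support_iff.mp hx) hr0
  have hy0 : ∀ x ∈ r.support, y x ≠ 0 := by
    intro x hx h0
    apply hx0 x hx
    rw [← hy x hx, h0, map_zero]
  -- the finite set of finite places
  let S : Set (FinitePlace E) := ⋃ x ∈ r.support, Function.mulSupport (fun w : FinitePlace E => w (y x))
  have hS : S.Finite := Set.Finite.biUnion r.support.finite_toSet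
    (fun x hx => FinitePlace.hasFiniteMulSupport (hy0 x hx))
  have hpf : ∀ x ∈ r.support, ∑ w : InfinitePlace E, (w.mult : ℝ) * Real.log (w (y x)) +
      ∑ w ∈ hS.toFinset, Real.log (w (y x)) = 0 := by
    intro x hx
    have h1 := prod_abs_eq_one (hy0 x hx)
    rw [finprod_eq_prod_of_mulSupport_subset (s := hS.toFinset)] at h1
    · have h2 := congrArg Real.log h1
      have p1 : ∀ w : InfinitePlace E, 0 < w (y x) := fun w => InfinitePlace.pos_iff.mpr (hy0 x hx)
      have p2 : ∀ w : FinitePlace E, 0 < w (y x) := fun w => FinitePlace.pos_iff.mpr (hy0 x hx)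
      rw [Real.log_one, Real.log_mul, Real.log_prod, Real.log_prod] at h2
      · rw [← h2]
        congr 1
        apply Finset.sum_congr rfl
        intro w _
        rw [Real.log_pow]
      · intro w _; exact (p2 w).ne'
      · intro w _; exact (pow_pos (p1 w) _).ne'
      · exact (Finset.prod_pos (fun w _ => pow_pos (p1 w) _)).ne'
      · exact (Finset.prod_pos (fun w _ => p2 w)).ne'
    · rw [hS.coe_toFinset]
      exact Set.subset_biUnion_of_mem (u := fun x => Function.mulSupport
        (fun w : FinitePlace E => w (y x))) hx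
  -- the sums over the places
  set Λ : (E → ℝ) → ℝ := fun ν => ∑ x ∈ r.support, r x * ν (y x) with hΛ
  have htot : ∑ w : InfinitePlace E, (w.mult : ℝ) * Λ (fun z => Real.log (w z)) +
      ∑ w ∈ hS.toFinset, Λ (fun z => Real.log (w z)) = 0 := by
    have h1 : ∑ w : InfinitePlace E, (w.mult : ℝ) * Λ (fun z => Real.log (w z)) =
        ∑ x ∈ r.support, r x * ∑ w : InfinitePlace E, (w.mult : ℝ) * Real.log (w (y x)) := by
      simp only [hΛ, Finset.mul_sum]
      rw [Finset.sum_comm]
      apply Finset.sum_congr rfl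
      intro x _
      apply Finset.sum_congr rfl
      intro w _; ring
    have h2 : ∑ w ∈ hS.toFinset, Λ (fun z => Real.log (w z)) =
        ∑ x ∈ r.support, r x * ∑ w ∈ hS.toFinset, Real.log (w (y x)) := by
      simp only [hΛ, Finset.mul_sum]
      rw [Finset.sum_comm]
    rw [h1, h2, ← Finset.sum_add_distrib]
    apply Finset.sum_eq_zero
    intro x hx
    rw [← mul_add, hpf x hx, mul_zero]
  have hinf : 0 < ∑ w : InfinitePlace E, (w.mult : ℝ) * Λ (fun z => Real.log (w z)) := by
    apply Finset.sum_pos
    · intro w _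
      apply mul_pos
      · exact_mod_cast w.mult_pos
      · letI : Algebra E ℂ := w.embedding.toAlgebra
        let σ : C →ₐ[E] ℂ := IsAlgClosed.lift
        have h1 := hpos (σ : C →+* ℂ)
        rw [hr] at h1
        refine lt_of_lt_of_eq h1 ?_
        rw [hΛ]
        unfold Finsupp.sum
        apply Finset.sum_congr rfl
        intro x hx
        have h2 : σ x = w.embedding (y x) := by
          conv_lhs => rw [← hy x hx]
          exact σ.commutes (y x)
        show r x * Real.log ‖σ x‖ = r x * Real.log (w (y x))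
        rw [h2, InfinitePlace.norm_embedding_eq]
    · exact Finset.univ_nonempty
  obtain ⟨w, hw, hwneg⟩ : ∃ w ∈ hS.toFinset, Λ (fun z => Real.log (w z)) < 0 := by
    by_contra hno
    push Not at hno
    have := Finset.sum_nonneg hno
    linarith
  -- extension
  have hwna : IsNonarchimedean (w.val : AbsoluteValue E ℝ) := fun a b => w.add_le a b
  have hwnt : ∃ z, 1 < (w.val : AbsoluteValue E ℝ) z := by
    by_contra hno
    push Not at hno
    have h1 : ∀ z : E, z ≠ 0 → w z = 1 := by
      intro z hz
      apply le_antisymm (hno z)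
      have h2 := hno z⁻¹
      rw [map_inv₀] at h2
      have h3 : 0 < w.val z := FinitePlace.pos_iff.mpr hz
      have h4 := (inv_le_one₀ h3).mp h2
      exact h4
    have h2 : Λ (fun z => Real.log (w z)) = 0 := by
      rw [hΛ]
      apply Finset.sum_eq_zero
      intro x hx
      show r x * Real.log (w (y x)) = 0
      rw [h1 _ (hy0 x hx), Real.log_one, mul_zero]
    linarith
  obtain ⟨Ω, i1, i2, i3, i, hi⟩ := exists_closed_ext (w.val : AbsoluteValue E ℝ) hwna hwnt
  letI : Algebra E Ω := i.toAlgebra
  let σ : C →ₐ[E] Ω := IsAlgClosed.lift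
  let v : AbsoluteValue C ℝ := place (σ : C →+* Ω)
  have hvσ : ∀ x, v x = ‖σ x‖ := fun x => rfl
  have hvy : ∀ z : E, v (algebraMap E C z) = w z := by
    intro z
    rw [hvσ, σ.commutes]
    exact hi z
  refine ⟨v, ?_, ?_, ?_⟩
  · intro a b
    rw [hvσ, hvσ, hvσ, map_add]
    exact IsUltrametricDist.norm_add_le_max _ _
  · obtain ⟨z, hz⟩ := hwnt
    exact ⟨algebraMap E C z, by rw [hvy]; exact hz⟩
  · rw [hr]
    refine lt_of_eq_of_lt ?_ hwneg
    rw [hΛ]
    unfold Finsupp.sum
    apply Finset.sum_congr rfl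
    intro x hx
    show r x * Real.log (v x) = r x * Real.log (w (y x))
    rw [← hvy, hy x hx]

end

end Pool.Agent.H53.Tame
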