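import Pool.Agent.H53.Tame.Deriv

/-!
The comparison of two consecutive radii, and the divisibility.
-/

open Polynomial MeasureTheory

namespace Pool.Agent.H53.Tame

lemma int_ind {x t : ℝ} (hx0 : 0 ≤ x) (hx1 : x ≤ 1) (ht : 0 ≤ t) :
    IntervalIntegrable (fun u => if x < Real.exp (-u) then (1 : ℝ) else 0) volume 0 t ∧
    ∫ u in (0 : ℝ)..t, (if x < Real.exp (-u) then (1 : ℝ) else 0) =
      -Real.log (max (Real.exp (-t)) x) := by
  have hmeas : MeasurableSet {u : ℝ | x < Real.exp (-u)} :=
    measurableSet_lt measurable_const (Real.measurable_exp.comp measurable_neg)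
  have hint : ∀ a b : ℝ, IntervalIntegrable (fun u => if x < Real.exp (-u) then (1 : ℝ) else 0)
      volume a b := by
    intro a b
    have : (fun u => if x < Real.exp (-u) then (1 : ℝ) else 0) =
        Set.indicator {u : ℝ | x < Real.exp (-u)} (fun _ => (1 : ℝ)) := by
      ext u; simp [Set.indicator_apply]
    rw [this, intervalIntegrable_iff]
    have h1 := intervalIntegrable_iff.mp
      (intervalIntegrable_const (μ := volume) (a := a) (b := b) (c := (1 : ℝ)))
    exact Integrable.indicator h1 hmeas
  refine ⟨hint 0 t, ?_⟩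
  by_cases h : x ≤ Real.exp (-t)
  · rw [max_eq_left h, Real.log_exp, neg_neg]
    have : ∫ u in (0 : ℝ)..t, (if x < Real.exp (-u) then (1 : ℝ) else 0) =
        ∫ u in (0 : ℝ)..t, (1 : ℝ) := by
      apply intervalIntegral.integral_congr_ae
      have h0 : ∀ᵐ u : ℝ ∂volume, u ≠ t := by
        simp [ae_iff, measure_singleton]
      filter_upwards [h0] with u hu hut
      rw [Set.uIoc_of_le ht] at hut
      rw [if_pos]
      refine lt_of_le_of_lt h ?_
      rw [Real.exp_lt_exp]
      have := lt_of_le_of_ne hut.2 hu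
      linarith
    rw [this]; simp
  · push Not at h
    have hxpos : 0 < x := lt_trans (Real.exp_pos _) h
    rw [max_eq_right h.le]
    set T := -Real.log x with hT
    have hT0 : 0 ≤ T := by rw [hT]; have := Real.log_nonpos hx0 hx1; linarith
    have hTt : T < t := by
      rw [hT]
      have := (Real.lt_log_iff_exp_lt hxpos).mpr h
      linarith
    rw [← intervalIntegral.integral_add_adjacent_intervals (hint 0 T) (hint T t)]
    have h1 : ∫ u in (0 : ℝ)..T, (if x < Real.exp (-u) then (1 : ℝ) else 0) =
        ∫ u in (0 : ℝ)..T, (1 : ℝ) := by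
      apply intervalIntegral.integral_congr_ae
      have h0 : ∀ᵐ u : ℝ ∂volume, u ≠ T := by
        simp [ae_iff, measure_singleton]
      filter_upwards [h0] with u hu hut
      rw [Set.uIoc_of_le hT0] at hut
      rw [if_pos]
      rw [← Real.log_lt_iff_lt_exp hxpos]
      have := lt_of_le_of_ne hut.2 hu
      linarith
    have h2 : ∫ u in T..t, (if x < Real.exp (-u) then (1 : ℝ) else 0) =
        ∫ u in T..t, (0 : ℝ) := by
      apply intervalIntegral.integral_congr_ae
      filter_upwards with u hut
      rw [Set.uIoc_of_le hTt.le] at hut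
      rw [if_neg]
      rw [← Real.log_lt_iff_lt_exp hxpos]
      have := hut.1
      linarith
    rw [h1, h2]; simp

lemma prod_max_pos (m : Multiset ℝ) {s : ℝ} (hs : 0 < s) :
    0 < (m.map (fun x => max s x)).prod := by
  induction m using Multiset.induction_on with
  | empty => simp
  | cons b m ih =>
    rw [Multiset.map_cons, Multiset.prod_cons]
    exact mul_pos (lt_max_of_lt_left hs) ih

open Classical in
lemma int_card (m : Multiset ℝ) (hm : ∀ x ∈ m, 0 ≤ x ∧ x ≤ 1) {t : ℝ} (ht : 0 ≤ t) :
    IntervalIntegrable (fun u => (((m.filter (fun x => x < Real.exp (-u))).card : ℕ) : ℝ))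
      volume 0 t ∧
    ∫ u in (0 : ℝ)..t, (((m.filter (fun x => x < Real.exp (-u))).card : ℕ) : ℝ) =
      -Real.log (m.map (fun x => max (Real.exp (-t)) x)).prod := by
  induction m using Multiset.induction_on with
  | empty => simp
  | cons a m ih =>
    obtain ⟨i1, i2⟩ := ih (fun x hx => hm x (Multiset.mem_cons_of_mem hx))
    obtain ⟨j1, j2⟩ := int_ind (hm a (Multiset.mem_cons_self a m)).1
      (hm a (Multiset.mem_cons_self a m)).2 ht
    have e : (fun u => ((((a ::ₘ m).filter (fun x => x < Real.exp (-u))).card : ℕ) : ℝ)) =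
        (fun u => (if a < Real.exp (-u) then (1 : ℝ) else 0) +
          (((m.filter (fun x => x < Real.exp (-u))).card : ℕ) : ℝ)) := by
      ext u
      rw [Multiset.filter_cons, Multiset.card_add]
      by_cases h : a < Real.exp (-u)
      · rw [if_pos h, if_pos h]; simp
      · rw [if_neg h, if_neg h]; simp
    rw [e]
    refine ⟨j1.add i1, ?_⟩
    rw [intervalIntegral.integral_add j1 i1, i2, j2, Multiset.map_cons, Multiset.prod_cons,
      Real.log_mul]
    · ring
    · exact (lt_max_of_lt_left (Real.exp_pos _)).ne'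
    · exact (prod_max_pos m (Real.exp_pos _)).ne'

open Classical in
lemma count_max (A : Multiset ℝ) {s g g' : ℝ} (hsg : s ≤ g) (hgg : g < g')
    (hA : ∀ a ∈ A, a ≤ g' → a ≤ g) :
    (A.map (fun a => max s a)).count g + (if s < g then (A.filter (fun a => a < g)).card else 0) =
      (A.filter (fun a => a < g')).card := by
  induction A using Multiset.induction_on with
  | empty => simp
  | cons a A ih =>
    have ih' := ih (fun x hx => hA x (Multiset.mem_cons_of_mem hx))
    have ha := hA a (Multiset.mem_cons_self a A)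
    rw [Multiset.map_cons, Multiset.count_cons, Multiset.filter_cons, Multiset.filter_cons,
      Multiset.card_add, Multiset.card_add, ← ih']
    by_cases h1 : a < g'
    · have h2 := ha h1.le
      rw [if_pos h1, Multiset.card_singleton]
      by_cases h3 : s < g
      · rw [if_pos h3, if_pos h3]
        rcases h2.lt_or_eq with h4 | h4
        · rw [if_pos h4, if_neg, Multiset.card_singleton]
          · omega
          · exact (max_lt h3 h4).ne'
        · rw [h4, if_neg (lt_irrefl g), if_pos, Multiset.card_zero]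
          · omega
          · rw [max_eq_right h3.le]
      · have h5 : s = g := le_antisymm hsg (not_lt.mp h3)
        rw [if_neg h3, if_neg h3, if_pos]
        · omega
        · rw [h5, max_eq_left h2]
    · have h2 : g < a := lt_of_lt_of_le hgg (not_lt.mp h1)
      rw [if_neg h1, if_neg (not_lt.mpr h2.le), Multiset.card_zero,
        if_neg (lt_of_lt_of_le h2 (le_max_right _ _)).ne, zero_add, zero_add, add_zero]

open Classical in
/-- the summation by groups -/
lemma abel {p : ℕ} (Γ : AddSubgroup ℝ) (A D : Multiset ℝ) {s : ℝ} (hs1 : s < 1)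
    (hA1 : ∀ a ∈ A, a ≤ 1) (hD1 : ∀ a ∈ D, a ≤ 1)
    (hdiv : ∀ x : ℝ, s < x → x ≤ 1 → (p : ℤ) ∣ ((A.filter (fun a => a < x)).card : ℤ) -
      ((D.filter (fun a => a < x)).card : ℤ))
    (hsΓ : Real.log s ∈ Γ) (hAΓ : ∀ a ∈ A, s < a → a < 1 → Real.log a ∈ Γ)
    (hDΓ : ∀ a ∈ D, s < a → a < 1 → Real.log a ∈ Γ) :
    ∃ g ∈ Γ, (A.map (fun a => Real.log (max s a))).sum -
      (D.map (fun a => Real.log (max s a))).sum = p * g := by
  set A' := A.map (fun a => max s a) with hA'
  set D' := D.map (fun a => max s a) with hD'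
  have e1 : A.map (fun a => Real.log (max s a)) = A'.map Real.log := by
    rw [hA', Multiset.map_map]; rfl
  have e2 : D.map (fun a => Real.log (max s a)) = D'.map Real.log := by
    rw [hD', Multiset.map_map]; rfl
  have hsumT : ∀ B : Multiset ℝ, B.toFinset ⊆ (A' + D').toFinset →
      (B.map Real.log).sum = ∑ g ∈ (A' + D').toFinset, B.count g • Real.log g := by
    intro B hB
    rw [Finset.sum_multiset_map_count]
    apply Finset.sum_subset hB
    intro x _ hx
    rw [Multiset.mem_toFinset, ← Multiset.count_eq_zero] at hx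
    rw [hx, zero_smul]
  rw [e1, e2, hsumT A' (by
    intro x hx
    rw [Multiset.mem_toFinset] at hx ⊢
    exact Multiset.mem_add.mpr (Or.inl hx)), hsumT D' (by
    intro x hx
    rw [Multiset.mem_toFinset] at hx ⊢
    exact Multiset.mem_add.mpr (Or.inr hx)), ← Finset.sum_sub_distrib]
  let Γ' := Γ.map (AddMonoidHom.mulLeft (p : ℝ))
  have hmem : ∑ g ∈ (A' + D').toFinset, (A'.count g • Real.log g - D'.count g • Real.log g) ∈ Γ' := by
    apply AddSubgroup.sum_mem
    intro g hg
    rw [Multiset.mem_toFinset, Multiset.mem_add] at hg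
    have hg' : s ≤ g ∧ g ≤ 1 ∧ (g < 1 → Real.log g ∈ Γ) := by
      rcases hg with hg | hg
      · rw [hA', Multiset.mem_map] at hg
        obtain ⟨a, ha, rfl⟩ := hg
        refine ⟨le_max_left _ _, max_le hs1.le (hA1 a ha), fun h1 => ?_⟩
        rcases le_or_gt a s with h2 | h2
        · rw [max_eq_left h2]; exact hsΓ
        · rw [max_eq_right h2.le] at h1 ⊢
          exact hAΓ a ha h2 h1
      · rw [hD', Multiset.mem_map] at hg
        obtain ⟨a, ha, rfl⟩ := hg
        refine ⟨le_max_left _ _, max_le hs1.le (hD1 a ha), fun h1 => ?_⟩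
        rcases le_or_gt a s with h2 | h2
        · rw [max_eq_left h2]; exact hsΓ
        · rw [max_eq_right h2.le] at h1 ⊢
          exact hDΓ a ha h2 h1
    obtain ⟨h1, h2, h3⟩ := hg'
    rcases h2.lt_or_eq with h4 | h4
    · have h5 := h3 h4
      obtain ⟨g', hg1, hg2, hg3⟩ := exists_gap_gt (A + D) (fun a => a) h4
      have cA := count_max A h1 hg1 (fun a ha => hg3 a (by rw [Multiset.mem_add]; exact Or.inl ha))
      have cD := count_max D h1 hg1 (fun a ha => hg3 a (by rw [Multiset.mem_add]; exact Or.inr ha))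
      have hd : (p : ℤ) ∣ (A'.count g : ℤ) - (D'.count g : ℤ) := by
        have d1 := hdiv g' (lt_of_le_of_lt h1 hg1) hg2.le
        rw [← cA, ← cD] at d1
        by_cases h6 : s < g
        · have d2 := hdiv g h6 h2
          rw [if_pos h6, if_pos h6] at d1
          have d3 := dvd_sub d1 d2
          have e3 : (A'.count g : ℤ) - (D'.count g : ℤ) =
            ((A'.count g + (A.filter (fun a => a < g)).card : ℕ) : ℤ) -
            ((D'.count g + (D.filter (fun a => a < g)).card : ℕ) : ℤ) -
            (((A.filter (fun a => a < g)).card : ℤ) - ((D.filter (fun a => a < g)).card : ℤ)) := by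
            push_cast; ring
          rw [e3]; exact d3
        · rw [if_neg h6, if_neg h6, add_zero, add_zero] at d1
          exact d1
      obtain ⟨n, hn⟩ := hd
      refine ⟨n • Real.log g, Γ.zsmul_mem h5 n, ?_⟩
      show (p : ℝ) * (n • Real.log g) = _
      have hn' : ((A'.count g : ℕ) : ℝ) - ((D'.count g : ℕ) : ℝ) = (p : ℝ) * (n : ℝ) := by
        exact_mod_cast hn
      rw [zsmul_eq_mul, nsmul_eq_mul, nsmul_eq_mul, ← sub_mul, hn']
      ring
    · rw [h4, Real.log_one, smul_zero, smul_zero, sub_zero]
      exact Γ'.zero_mem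
  obtain ⟨g, hg, hg'⟩ := hmem
  exact ⟨g, hg, hg'.symm⟩

end Pool.Agent.H53.Tame
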