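import Pool.Agent.H53.Tame.Lift

/-!
The step of the induction: lifting three separated points.
-/

open Polynomial

namespace Pool.Agent.H53.Tame

lemma exists_count_lt {α : Type*} [DecidableEq α] {s t : Multiset α} (hc : s.card = t.card)
    (hne : s ≠ t) : ∃ x, t.count x < s.count x := by
  by_contra h
  push Not at h
  apply hne
  apply Multiset.eq_of_le_of_card_le
  · rw [Multiset.le_iff_count]; exact h
  · omega

lemma exists_bound_lt_one {α : Type*} (m : Multiset α) (e : α → ℝ) :
    ∃ s : ℝ, 0 < s ∧ s < 1 ∧ ∀ p ∈ m, e p < 1 → e p ≤ s := by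
  induction m using Multiset.induction_on with
  | empty => exact ⟨1 / 2, by norm_num, by norm_num, by simp⟩
  | cons a m ih =>
    obtain ⟨s, hs0, hs1, hs⟩ := ih
    by_cases ha : e a < 1
    · refine ⟨max s (e a), lt_max_of_lt_left hs0, max_lt hs1 ha, ?_⟩
      intro p hp hp1
      rw [Multiset.mem_cons] at hp
      rcases hp with rfl | hp
      · exact le_max_right _ _
      · exact le_trans (hs p hp hp1) (le_max_left _ _)
    · refine ⟨s, hs0, hs1, ?_⟩
      intro p hp hp1
      rw [Multiset.mem_cons] at hp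
      rcases hp with rfl | hp
      · exact absurd hp1 ha
      · exact hs p hp hp1

open Classical in
lemma prod_max_eq {α : Type*} (m : Multiset α) (e : α → ℝ) (s : ℝ) (hs : s ≤ 1)
    (h : ∀ p ∈ m, e p < 1 → e p ≤ s) (h1 : ∀ p ∈ m, e p ≤ 1) :
    (m.map (fun p => max s (e p))).prod = s ^ (m.filter (fun p => e p < 1)).card := by
  induction m using Multiset.induction_on with
  | empty => simp
  | cons a m ih =>
    rw [Multiset.map_cons, Multiset.prod_cons, ih (fun p hp => h p (Multiset.mem_cons_of_mem hp))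
      (fun p hp => h1 p (Multiset.mem_cons_of_mem hp)), Multiset.filter_cons]
    by_cases ha : e a < 1
    · rw [if_pos ha, max_eq_left (h a (Multiset.mem_cons_self a m) ha)]
      rw [Multiset.card_add, Multiset.card_singleton, pow_add, pow_one]
    · have : e a = 1 := le_antisymm (h1 a (Multiset.mem_cons_self a m)) (not_lt.mp ha)
      rw [if_neg ha, this, max_eq_right hs]
      simp

/-- the values are dense -/
def DN (C : Type*) [Field C] (Ω : Type*) [NormedField Ω] [Algebra C Ω] : Prop :=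
  ∀ a b : ℝ, 0 ≤ a → a < b → ∃ c : C, c ≠ 0 ∧ a < ‖algebraMap C Ω c‖ ∧ ‖algebraMap C Ω c‖ < b

section

variable {C : Type*} [Field C] {Ω : Type*} [NormedField Ω] [IsUltrametricDist Ω] [Algebra C Ω]

open Classical in
/-- the number of roots of `F` at distance less than `s` from `α` -/
noncomputable def cnt (y : Ω) (r : ℝ) (F : C[X]) (α : C) (s : ℝ) : ℕ :=
  (F.roots.filter (fun p => E y r α p < s)).card

omit [IsUltrametricDist Ω] in
/-- the product of the truncated distances -/
noncomputable def pm (y : Ω) (r : ℝ) (F : C[X]) (α : C) (s : ℝ) : ℝ :=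
  (F.roots.map (fun p => max s (E y r α p))).prod

omit [IsUltrametricDist Ω] in
lemma pm_pos (y : Ω) (r : ℝ) (F : C[X]) (α : C) {s : ℝ} (hs : 0 < s) : 0 < pm y r F α s := by
  unfold pm
  generalize F.roots = m
  induction m using Multiset.induction_on with
  | empty => simp
  | cons a m ih =>
    rw [Multiset.map_cons, Multiset.prod_cons]
    exact mul_pos (lt_max_of_lt_left hs) ih

open Classical in
lemma count_cls {y : Ω} {r : ℝ} (h : HR C y r) (F : C[X]) (α : C) :
    (F.roots.map (cls y r)).count (cls y r α) = cnt y r F α 1 := by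
  rw [Multiset.count_map]
  unfold cnt
  congr 1
  apply Multiset.filter_congr
  intro p _
  exact cls_eq_iff h

variable [IsAlgClosed C]

omit [IsUltrametricDist Ω] in
lemma norm_eval_generic {y ξ : Ω} {r k s : ℝ} {α : C}
    (hξ : ∀ p : C, ‖ξ - algebraMap C Ω p‖ = k * ‖y - algebraMap C Ω p‖ * max s (E y r α p))
    (F : C[X]) : ‖(F.map (algebraMap C Ω)).eval ξ‖ =
      k ^ F.natDegree * ‖(F.map (algebraMap C Ω)).eval y‖ * pm y r F α s := by
  rw [eval_prod, eval_prod, norm_mul, norm_mul]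
  have h1 : ∀ m : Multiset C, ‖(m.map (fun c => ξ - algebraMap C Ω c)).prod‖ =
      k ^ m.card * ‖(m.map (fun c => y - algebraMap C Ω c)).prod‖ *
        (m.map (fun p => max s (E y r α p))).prod := by
    intro m
    induction m using Multiset.induction_on with
    | empty => simp
    | cons a m ih =>
      rw [Multiset.map_cons, Multiset.prod_cons, norm_mul, ih, hξ a, Multiset.map_cons,
        Multiset.prod_cons, norm_mul, Multiset.map_cons, Multiset.prod_cons, Multiset.card_cons,
        pow_succ]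
      ring
  rw [h1, IsAlgClosed.card_roots_eq_natDegree]
  unfold pm
  ring

/-- comparison of the numbers of zeros of three polynomials with `A = D + B` -/
lemma three_counts (hdn : DN C Ω) {y : Ω} {r : ℝ} (h : HR C y r) {α q : C}
    (hq : E y r α q = 1) {A B D : C[X]} {a b d : C} (hA : A.natDegree = D.natDegree)
    (hB : B.natDegree = D.natDegree)
    (hrel : Polynomial.C a * A = Polynomial.C d * D + Polynomial.C b * B)
    (hne : (D.map (algebraMap C Ω)).eval y ≠ 0) (hd : d ≠ 0)
    (hnA : ‖algebraMap C Ω a * (A.map (algebraMap C Ω)).eval y‖ =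
      ‖algebraMap C Ω d * (D.map (algebraMap C Ω)).eval y‖)
    (hnB : ‖algebraMap C Ω b * (B.map (algebraMap C Ω)).eval y‖ =
      ‖algebraMap C Ω d * (D.map (algebraMap C Ω)).eval y‖)
    (hlt : cnt y r D α 1 < cnt y r B α 1) : cnt y r A α 1 = cnt y r D α 1 := by
  classical
  obtain ⟨s0, hs00, hs01, hs0⟩ := exists_bound_lt_one (A.roots + B.roots + D.roots)
    (fun p => E y r α p)
  obtain ⟨ϖ, hϖ, hϖ1, hϖ2⟩ := hdn s0 1 hs00.le hs01
  obtain ⟨ξ, k, hk, hξ⟩ := exists_generic h hq hϖ hϖ2.le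
  set s := ‖algebraMap C Ω ϖ‖ with hs
  have hs_pos : 0 < s := lt_trans hs00 hϖ1
  have hpm : ∀ F : C[X], (∀ p ∈ F.roots, p ∈ A.roots + B.roots + D.roots) →
      pm y r F α s = s ^ cnt y r F α 1 := by
    intro F hF
    unfold pm cnt
    apply prod_max_eq _ _ _ hϖ2.le
    · intro p hp hp1
      exact le_trans (hs0 p (hF p hp) hp1) hϖ1.le
    · intro p _; exact E_le_one h α p
  have hpA := hpm A (fun p hp => by simp [Multiset.mem_add, hp])
  have hpB := hpm B (fun p hp => by simp [Multiset.mem_add, hp])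
  have hpD := hpm D (fun p hp => by simp [Multiset.mem_add, hp])
  have hev : ∀ z : Ω, algebraMap C Ω a * (A.map (algebraMap C Ω)).eval z =
      algebraMap C Ω d * (D.map (algebraMap C Ω)).eval z +
      algebraMap C Ω b * (B.map (algebraMap C Ω)).eval z := by
    intro z
    have h1 := congrArg (fun F : C[X] => (F.map (algebraMap C Ω)).eval z) hrel
    simpa using h1
  have hgA := norm_eval_generic hξ A
  have hgB := norm_eval_generic hξ B
  have hgD := norm_eval_generic hξ D
  set R := ‖algebraMap C Ω d * (D.map (algebraMap C Ω)).eval y‖ with hR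
  have hR0 : 0 < R := by
    rw [hR, norm_pos_iff]
    exact mul_ne_zero (by rw [Ne, map_eq_zero]; exact hd) hne
  have eA : ‖algebraMap C Ω a * (A.map (algebraMap C Ω)).eval ξ‖ =
      k ^ D.natDegree * R * s ^ cnt y r A α 1 := by
    rw [norm_mul, hgA, hpA, ← hnA, norm_mul, hA]; ring
  have eB : ‖algebraMap C Ω b * (B.map (algebraMap C Ω)).eval ξ‖ =
      k ^ D.natDegree * R * s ^ cnt y r B α 1 := by
    rw [norm_mul, hgB, hpB, ← hnB, norm_mul, hB]; ring
  have eD : ‖algebraMap C Ω d * (D.map (algebraMap C Ω)).eval ξ‖ =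
      k ^ D.natDegree * R * s ^ cnt y r D α 1 := by
    rw [norm_mul, hgD, hpD, hR, norm_mul]; ring
  have hkR : 0 < k ^ D.natDegree * R := by positivity
  have h1 : ‖algebraMap C Ω b * (B.map (algebraMap C Ω)).eval ξ‖ <
      ‖algebraMap C Ω d * (D.map (algebraMap C Ω)).eval ξ‖ := by
    rw [eB, eD]
    exact mul_lt_mul_of_pos_left (pow_lt_pow_right_of_lt_one₀ hs_pos hϖ2 hlt) hkR
  have h2 : ‖algebraMap C Ω a * (A.map (algebraMap C Ω)).eval ξ‖ =
      ‖algebraMap C Ω d * (D.map (algebraMap C Ω)).eval ξ‖ := by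
    rw [hev ξ, IsUltrametricDist.norm_add_eq_max_of_norm_ne_norm (ne_of_gt h1),
      max_eq_left h1.le]
  rw [eA, eD] at h2
  have h3 := mul_left_cancel₀ hkR.ne' h2
  exact pow_right_injective₀ hs_pos hϖ2.ne h3

variable [CharZero C]

/-- **The step.** -/
theorem step (f : RM C) (hdn : DN C Ω) {y : Ω} {r : ℝ} (h : HR C y r) {β σ ω : C}
    (h1 : E y r β σ = 1) (h2 : E y r β ω = 1) (h3 : E y r σ ω = 1) {y' : Ω}
    (hy' : y' ∈ f.pre y) :
    ∃ r', HR C y' r' ∧ ∃ β' σ' ω' : C, β' ∈ (f.fib β).roots ∧ σ' ∈ (f.fib σ).roots ∧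
      ω' ∈ (f.fib ω).roots ∧ E y' r' β' σ' = 1 ∧ E y' r' β' ω' = 1 ∧ E y' r' σ' ω' = 1 ∧
      ∀ s : ℝ, 0 < s → s ≤ 1 → cnt y' r' (f.fib ω) β' s < cnt y' r' (f.fib β) β' s := by
  classical
  have hr := h.pos
  have hβ := h.norm_pos β
  have hσ := h.norm_pos σ
  have hω := h.norm_pos ω
  have hβ' := h.sub_ne β
  have hσ' := h.sub_ne σ
  have hω' := h.sub_ne ω
  have e1 := (E_one_iff h β σ).mp h1
  have e2 := (E_one_iff h β ω).mp h2
  have e3 := (E_one_iff h σ ω).mp h3
  have hne_of : ∀ p q : C, E y r p q = 1 → p - q ≠ 0 := by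
    intro p q hpq h0
    rw [sub_eq_zero.mp h0, E_self] at hpq
    exact zero_ne_one hpq
  have hβσ := hne_of _ _ h1
  have hβω := hne_of _ _ h2
  have hσω := hne_of _ _ h3
  have hσβ : σ - β ≠ 0 := by rw [← neg_sub]; exact neg_ne_zero.mpr hβσ
  have hσβ' : algebraMap C Ω σ - algebraMap C Ω β ≠ 0 := by
    rw [← map_sub, Ne, map_eq_zero]; exact hσβ
  have hnorm : ∀ u v : C, ‖algebraMap C Ω (u - v)‖ = ‖algebraMap C Ω (v - u)‖ := by
    intro u v; rw [map_sub, map_sub, norm_sub_rev]
  set μ : C := (σ - ω) / (σ - β) with hμ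
  have hμn : ‖algebraMap C Ω μ‖ * ‖y - algebraMap C Ω β‖ = ‖y - algebraMap C Ω ω‖ := by
    have hpos : 0 < ‖algebraMap C Ω (σ - β)‖ := by
      rw [norm_pos_iff, Ne, map_eq_zero]; exact hσβ
    rw [hμ, map_div₀, norm_div]
    rw [hnorm] at e1
    field_simp
    have h5 : r * (‖algebraMap C Ω (σ - ω)‖ * ‖y - algebraMap C Ω β‖) =
        r * (‖algebraMap C Ω (σ - β)‖ * ‖y - algebraMap C Ω ω‖) := by
      calc _ = (r * ‖algebraMap C Ω (σ - ω)‖) * ‖y - algebraMap C Ω β‖ := by ring
        _ = ‖y - algebraMap C Ω ω‖ * (‖y - algebraMap C Ω β‖ * ‖y - algebraMap C Ω σ‖) := by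
          rw [e3]; ring
        _ = _ := by rw [← e1]; ring
    exact mul_left_cancel₀ hr.ne' h5
  have hRT := RT_mobius h h2 hμn
  -- the values of the three polynomials
  have hQ := f.Q_ne_of_mem_pre hy'
  have hP := f.mem_pre.mp hy'
  set Qy := (f.Q.map (algebraMap C Ω)).eval y' with hQy
  have hfib : ∀ z : C, ((f.fib z).map (algebraMap C Ω)).eval y' =
      Qy * (y - algebraMap C Ω z) := by
    intro z
    have : ((f.fib z).map (algebraMap C Ω)).eval y' =
        (f.P.map (algebraMap C Ω)).eval y' - algebraMap C Ω z * Qy := by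
      unfold RM.fib; simp [hQy]
    rw [this, hP]; ring
  have hfne : ∀ z : C, ((f.fib z).map (algebraMap C Ω)).eval y' ≠ 0 := by
    intro z; rw [hfib z]; exact mul_ne_zero hQ (h.sub_ne z)
  have ht : algebraMap C Ω μ * ((f.fib β).map (algebraMap C Ω)).eval y' /
      ((f.fib ω).map (algebraMap C Ω)).eval y' =
      algebraMap C Ω μ * (y - algebraMap C Ω β) / (y - algebraMap C Ω ω) := by
    rw [hfib, hfib]; field_simp
  obtain ⟨r', hr'⟩ := exists_HR (hfne β) (hfne ω) (by rw [ht]; exact hRT)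
  refine ⟨r', hr', ?_⟩
  have hlead : ∀ z : C, algebraMap C Ω (f.fib z).leadingCoeff ≠ 0 := by
    intro z; rw [Ne, map_eq_zero]; exact leadingCoeff_ne_zero.mpr (f.fib_ne z)
  have hcard : ∀ z w : C, ((f.fib z).roots.map (cls y' r')).card =
      ((f.fib w).roots.map (cls y' r')).card := by
    intro z w
    rw [Multiset.card_map, Multiset.card_map, f.card_fib_roots, f.card_fib_roots]
  have hratio : ∀ z : C, ((f.fib z).roots.map (cls y' r')) = ((f.fib ω).roots.map (cls y' r')) →
      ∃ l : C, l ≠ 0 ∧ near ((y - algebraMap C Ω z) / (y - algebraMap C Ω ω))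
        (algebraMap C Ω l) := by
    intro z hz
    obtain ⟨l, hl, hn⟩ := balanced_near hr' hz
    refine ⟨l, hl, ?_⟩
    have e : (y - algebraMap C Ω z) / (y - algebraMap C Ω ω) =
        (((f.fib z).roots.map (fun p => y' - algebraMap C Ω p)).prod /
        ((f.fib ω).roots.map (fun p => y' - algebraMap C Ω p)).prod) := by
      have e4 := hfib z
      have e5 := hfib ω
      rw [eval_prod, f.fib_leadingCoeff] at e4 e5
      have hl0 := hlead z
      rw [f.fib_leadingCoeff] at hl0
      have e6 : (y - algebraMap C Ω z) = algebraMap C Ω f.P.leadingCoeff *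
          ((f.fib z).roots.map (fun p => y' - algebraMap C Ω p)).prod / Qy := by
        rw [e4]; field_simp
      have e7 : (y - algebraMap C Ω ω) = algebraMap C Ω f.P.leadingCoeff *
          ((f.fib ω).roots.map (fun p => y' - algebraMap C Ω p)).prod / Qy := by
        rw [e5]; field_simp
      have e8 : ((f.fib ω).roots.map (fun p => y' - algebraMap C Ω p)).prod ≠ 0 := by
        intro h0; rw [h0] at e7; apply hω'; rw [e7]; simp
      rw [e6, e7]; field_simp
    rw [e]; exact hn
  -- A is not balanced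
  have hAD : ((f.fib β).roots.map (cls y' r')) ≠ ((f.fib ω).roots.map (cls y' r')) := by
    intro h0
    obtain ⟨l, hl, hn⟩ := hratio β h0
    apply hRT.not_near 0 (μ * l) (by simp)
    rw [map_zero, sub_zero, map_mul, mul_div_assoc]
    apply near.mul _ hn
    apply near_refl
    rw [Ne, map_eq_zero]; exact div_ne_zero hσω hσβ
  -- B is not balanced
  have hBD : ((f.fib σ).roots.map (cls y' r')) ≠ ((f.fib ω).roots.map (cls y' r')) := by
    intro h0
    obtain ⟨l, hl, hn⟩ := hratio σ h0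
    apply hRT.not_near 1 ((β - ω) / (σ - β) * l) (by simp)
    have e4 : algebraMap C Ω μ * (y - algebraMap C Ω β) / (y - algebraMap C Ω ω) -
        algebraMap C Ω 1 = algebraMap C Ω ((β - ω) / (σ - β)) *
          ((y - algebraMap C Ω σ) / (y - algebraMap C Ω ω)) := by
      rw [hμ, map_one, map_div₀, map_div₀, map_sub, map_sub, map_sub]
      field_simp
      ring
    rw [e4, map_mul]
    apply near.mul _ hn
    apply near_refl
    rw [Ne, map_eq_zero]; exact div_ne_zero hβω hσβ
  obtain ⟨κ0, hκ0⟩ := exists_count_lt (hcard β ω) hAD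
  obtain ⟨κi, hκi⟩ := exists_count_lt (hcard ω β) (Ne.symm hAD)
  obtain ⟨κ1, hκ1⟩ := exists_count_lt (hcard σ ω) hBD
  obtain ⟨a0, ha0, ha0'⟩ := Multiset.mem_map.mp (Multiset.count_pos.mp (lt_of_le_of_lt (Nat.zero_le _) hκ0))
  obtain ⟨ω', hω0, hω0'⟩ := Multiset.mem_map.mp (Multiset.count_pos.mp (lt_of_le_of_lt (Nat.zero_le _) hκi))
  obtain ⟨σ', hσ0, hσ0'⟩ := Multiset.mem_map.mp (Multiset.count_pos.mp (lt_of_le_of_lt (Nat.zero_le _) hκ1))
  rw [← ha0', count_cls hr', count_cls hr'] at hκ0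
  rw [← hω0', count_cls hr', count_cls hr'] at hκi
  rw [← hσ0', count_cls hr', count_cls hr'] at hκ1
  -- equality of the counts near σ'
  have hcnt_congr : ∀ (F : C[X]) (p q : C), E y' r' p q < 1 → cnt y' r' F p 1 = cnt y' r' F q 1 := by
    intro F p q hpq
    rw [← count_cls hr', ← count_cls hr', (cls_eq_iff hr').mpr hpq]
  have h01 : E y' r' a0 ω' = 1 := by
    apply le_antisymm (E_le_one hr' _ _)
    by_contra h0
    push Not at h0
    rw [hcnt_congr _ _ _ h0, hcnt_congr _ _ _ h0] at hκ0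
    omega
  have hσcnt : cnt y' r' (f.fib β) σ' 1 = cnt y' r' (f.fib ω) σ' 1 := by
    obtain ⟨q, hq⟩ : ∃ q, E y' r' σ' q = 1 := by
      by_cases h0 : E y' r' σ' a0 < 1
      · refine ⟨ω', ?_⟩
        exact E_eq_one_of_lt hr' (p := a0) (by rw [E_comm]; exact h0) h01
      · exact ⟨a0, le_antisymm (E_le_one hr' _ _) (not_lt.mp h0)⟩
    refine three_counts hdn hr' hq (A := f.fib β) (B := f.fib σ) (D := f.fib ω)
      (a := σ - ω) (b := β - ω) (d := σ - β) ?_ ?_ ?_ (hfne ω) hσβ ?_ ?_ hκ1
    · rw [f.fib_natDegree, f.fib_natDegree]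
    · rw [f.fib_natDegree, f.fib_natDegree]
    · unfold RM.fib
      simp only [map_sub]
      ring
    · rw [hfib, hfib, norm_mul, norm_mul, norm_mul, norm_mul]
      have h5 : ‖algebraMap C Ω (σ - ω)‖ * ‖y - algebraMap C Ω β‖ =
          ‖algebraMap C Ω (σ - β)‖ * ‖y - algebraMap C Ω ω‖ := by
        have hpos : 0 < ‖algebraMap C Ω (σ - β)‖ := by
          rw [norm_pos_iff, Ne, map_eq_zero]; exact hσβ
        rw [← hμn, hμ, map_div₀, norm_div]; field_simp
      calc _ = ‖Qy‖ * (‖algebraMap C Ω (σ - ω)‖ * ‖y - algebraMap C Ω β‖) := by ring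
        _ = _ := by rw [h5]; ring
    · rw [hfib, hfib, norm_mul, norm_mul, norm_mul, norm_mul]
      have h5 : ‖algebraMap C Ω (β - ω)‖ * ‖y - algebraMap C Ω σ‖ =
          ‖algebraMap C Ω (σ - β)‖ * ‖y - algebraMap C Ω ω‖ := by
        apply mul_left_cancel₀ hr.ne'
        rw [← mul_assoc, e2, ← mul_assoc, hnorm σ β, e1]; ring
      calc _ = ‖Qy‖ * (‖algebraMap C Ω (β - ω)‖ * ‖y - algebraMap C Ω σ‖) := by ring
        _ = _ := by rw [h5]; ring
  have h0σ : E y' r' a0 σ' = 1 := by
    apply le_antisymm (E_le_one hr' _ _)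
    by_contra h0
    push Not at h0
    rw [hcnt_congr _ _ _ h0, hcnt_congr _ _ _ h0] at hκ0
    omega
  have hωσ : E y' r' ω' σ' = 1 := by
    apply le_antisymm (E_le_one hr' _ _)
    by_contra h0
    push Not at h0
    rw [hcnt_congr _ _ _ h0, hcnt_congr _ _ _ h0] at hκi
    omega
  -- the choice of the zero
  obtain ⟨β', hβ0, hpos⟩ := exists_positive (E y' r') (E_self y' r') (E_comm y' r')
    (E_ultra hr') _ ((f.fib β).roots.filter (fun p => E y' r' a0 p < 1))
    ((f.fib ω).roots.filter (fun p => E y' r' a0 p < 1)) rfl hκ0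
  rw [Multiset.mem_filter] at hβ0
  refine ⟨β', σ', ω', hβ0.1, hσ0, hω0, ?_, ?_, ?_, ?_⟩
  · exact E_eq_one_of_lt hr' (p := a0) hβ0.2 h0σ
  · exact E_eq_one_of_lt hr' (p := a0) hβ0.2 h01
  · rw [E_comm]; exact hωσ
  · intro s hs0 hs1
    have h5 := hpos s hs0
    rw [Multiset.filter_filter, Multiset.filter_filter] at h5
    have h6 : ∀ m : Multiset C, m.filter (fun a => E y' r' β' a < s ∧ E y' r' a0 a < 1) =
        m.filter (fun a => E y' r' β' a < s) := by
      intro m
      apply Multiset.filter_congr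
      intro p _
      constructor
      · exact fun h => h.1
      · intro h
        exact ⟨h, E_lt_trans hr' hβ0.2 (lt_of_lt_of_le h hs1)⟩
    rw [h6, h6] at h5
    exact h5

end

end Pool.Agent.H53.Tame
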