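import Mathlib

/-!
The transfer operator of a locally injective holomorphic map does not increase integrals.
-/

open MeasureTheory

namespace Pool.Agent.H53.Tame

/-- the real derivative of a holomorphic map -/
noncomputable def rd (c : ℂ) : ℂ →L[ℝ] ℂ :=
  (ContinuousLinearMap.smulRight (1 : ℂ →L[ℂ] ℂ) c).restrictScalars ℝ

lemma rd_apply (c x : ℂ) : rd c x = x * c := by
  simp [rd]

lemma rd_det (c : ℂ) : |(rd c).det| = ‖c‖ ^ 2 := by
  have h : (rd c).det = ‖c‖ ^ 2 := by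
    unfold rd
    simp [ContinuousLinearMap.det, LinearMap.det_restrictScalars,
      Algebra.norm_complex_eq, Complex.normSq_eq_norm_sq]
  rw [h, abs_of_nonneg (by positivity)]

lemma rd_hasFDerivWithinAt {φ : ℂ → ℂ} {c x : ℂ} (h : HasDerivAt φ c x) (s : Set ℂ) :
    HasFDerivWithinAt φ (rd c) s x := by
  have h1 : HasFDerivAt φ (rd c) x := h.hasFDerivAt.restrictScalars ℝ
  exact h1.hasFDerivWithinAt

/-- partition into sets of injectivity -/
lemma exists_partition {φ φ' : ℂ → ℂ} {U : Set ℂ} (hUm : MeasurableSet U)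
    (hφ : ∀ x ∈ U, HasDerivAt φ (φ' x) x) (h0 : ∀ x ∈ U, φ' x ≠ 0) :
    ∃ t : ℕ → Set ℂ, Pairwise (Function.onFun Disjoint t) ∧ (∀ n, MeasurableSet (t n)) ∧
      (∀ n, t n ⊆ U) ∧ (∀ x ∈ U, ∃ n, x ∈ t n) ∧ ∀ n, Set.InjOn φ (t n) := by
  classical
  obtain ⟨t, A, h1, h2, h3, h4, h5⟩ := exists_partition_approximatesLinearOn_of_hasFDerivWithinAt
    φ U (fun x => rd (φ' x)) (fun x hx => rd_hasFDerivWithinAt (hφ x hx) U)
    (fun A => if ‖A 1‖₊ = 0 then 1 else ‖A 1‖₊ / 2) (by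
      intro A
      by_cases h : ‖A 1‖₊ = 0
      · rw [if_pos h]; exact one_ne_zero
      · rw [if_neg h]
        exact div_ne_zero h two_ne_zero)
  refine ⟨fun n => U ∩ t n, ?_, fun n => hUm.inter (h2 n), fun n => Set.inter_subset_left, ?_, ?_⟩
  · intro i j hij
    exact (h1 hij).mono Set.inter_subset_right Set.inter_subset_right
  · intro x hx
    obtain ⟨n, hn⟩ := Set.mem_iUnion.mp (h3 hx)
    exact ⟨n, hx, hn⟩
  · intro n x hx y hy hxy
    obtain ⟨z, hz, hAz⟩ := h5 ⟨x, hx.1⟩ n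
    have hA1 : A n 1 = φ' z := by rw [hAz, rd_apply, one_mul]
    have hne : ‖A n 1‖₊ ≠ 0 := by rw [hA1, Ne, nnnorm_eq_zero]; exact h0 z hz
    have h6 := h4 n x hx y hy
    rw [if_neg hne, hxy, sub_self, zero_sub, norm_neg] at h6
    have h7 : A n (x - y) = (x - y) * A n 1 := by
      rw [hA1, hAz, rd_apply]
    rw [h7, norm_mul] at h6
    have h8 : 0 < ‖A n 1‖ := by
      rw [hA1, norm_pos_iff]; exact h0 z hz
    push_cast at h6
    by_contra hne2
    have h9 : 0 < ‖x - y‖ := norm_pos_iff.mpr (sub_ne_zero.mpr hne2)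
    nlinarith

open Classical in
/-- **The transfer operator.** -/
theorem exists_transfer {φ φ' : ℂ → ℂ} {U : Set ℂ} (hUm : MeasurableSet U)
    (hφ : ∀ x ∈ U, HasDerivAt φ (φ' x) x) (h0 : ∀ x ∈ U, φ' x ≠ 0) (hφ' : Measurable φ')
    {ρ : ℂ → ENNReal} (hρ : Measurable ρ) :
    ∃ σ : ℂ → ENNReal, Measurable σ ∧ ∫⁻ y, σ y ≤ ∫⁻ x, ρ x ∧
      ∀ (y : ℂ) (T : Finset ℂ), (∀ w ∈ T, w ∈ U ∧ φ w = y) →
        ∑ w ∈ T, ρ w / ENNReal.ofReal (‖φ' w‖ ^ 2) ≤ σ y := by
  obtain ⟨t, ht1, ht2, ht3, ht4, ht5⟩ := exists_partition hUm hφ h0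
  set g : ℂ → ENNReal := fun w => ρ w / ENNReal.ofReal (‖φ' w‖ ^ 2) with hg
  have hgm : Measurable g := hρ.div (hφ'.norm.pow_const 2).ennreal_ofReal
  have hcont : ∀ n, ContinuousOn φ (t n) := fun n x hx =>
    (hφ x (ht3 n hx)).continuousAt.continuousWithinAt
  have hemb : ∀ n, MeasurableEmbedding ((t n).domRestrict φ) := fun n =>
    (hcont n).measurableEmbedding (ht2 n) (ht5 n)
  let G : ℕ → ℂ → ENNReal := fun n => Function.extend ((t n).domRestrict φ)
    (fun x => g x.1) 0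
  have hGm : ∀ n, Measurable (G n) := fun n =>
    (hemb n).measurable_extend (hgm.comp measurable_subtype_coe) measurable_zero
  have hGv : ∀ n, ∀ x ∈ t n, G n (φ x) = g x := by
    intro n x hx
    exact (hemb n).injective.extend_apply (fun x : t n => g x.1) 0 ⟨x, hx⟩
  have hGz : ∀ n y, y ∉ φ '' (t n) → G n y = 0 := by
    intro n y hy
    have : ¬ ∃ a, (t n).domRestrict φ a = y := by
      rintro ⟨a, ha⟩
      exact hy ⟨a.1, a.2, ha⟩
    show Function.extend ((t n).domRestrict φ) (fun x => g x.1) 0 y = 0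
    rw [Function.extend_apply' _ _ _ this]
    rfl
  have hGi : ∀ n, ∫⁻ y, G n y = ∫⁻ x in t n, ρ x := by
    intro n
    have himg : MeasurableSet (φ '' (t n)) := by
      have := (hemb n).measurableSet_range
      rwa [Set.range_domRestrict] at this
    have e1 : ∫⁻ y, G n y = ∫⁻ y in φ '' (t n), G n y := by
      rw [← lintegral_indicator himg]
      congr 1
      ext y
      by_cases hy : y ∈ φ '' (t n)
      · rw [Set.indicator_of_mem hy]
      · rw [Set.indicator_of_notMem hy, hGz n y hy]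
    rw [e1, lintegral_image_eq_lintegral_abs_det_fderiv_mul volume (ht2 n)
      (fun x hx => rd_hasFDerivWithinAt (hφ x (ht3 n hx)) (t n)) (ht5 n)]
    apply setLIntegral_congr_fun (ht2 n)
    intro x hx
    show ENNReal.ofReal |(rd (φ' x)).det| * G n (φ x) = ρ x
    rw [hGv n x hx, rd_det]
    have hne : 0 < ‖φ' x‖ ^ 2 := by
      have := norm_pos_iff.mpr (h0 x (ht3 n hx))
      positivity
    show ENNReal.ofReal (‖φ' x‖ ^ 2) * (ρ x / ENNReal.ofReal (‖φ' x‖ ^ 2)) = ρ x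
    exact ENNReal.mul_div_cancel (ENNReal.ofReal_pos.mpr hne).ne' ENNReal.ofReal_ne_top
  refine ⟨fun y => ∑' n, G n y, Measurable.ennreal_tsum hGm, ?_, ?_⟩
  · rw [lintegral_tsum (fun n => (hGm n).aemeasurable)]
    have e2 : ∑' n, ∫⁻ y, G n y = ∫⁻ x in ⋃ n, t n, ρ x := by
      rw [lintegral_iUnion ht2 ht1]
      congr 1
      ext n
      exact hGi n
    rw [e2]
    exact setLIntegral_le_lintegral _ _
  · intro y T hT
    have hidx : ∀ w ∈ T, ∃ n, w ∈ t n := fun w hw => ht4 w (hT w hw).1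
    choose! ι hι using hidx
    have hinj : Set.InjOn ι T := by
      intro w hw w' hw' hww
      apply ht5 (ι w) (hι w hw) (by rw [hww]; exact hι w' hw')
      rw [(hT w hw).2, (hT w' hw').2]
    have e3 : ∑ w ∈ T, g w = ∑ n ∈ T.image ι, G n y := by
      rw [Finset.sum_image hinj]
      apply Finset.sum_congr rfl
      intro w hw
      rw [← (hT w hw).2, hGv _ _ (hι w hw)]
    show ∑ w ∈ T, g w ≤ ∑' n, G n y
    rw [e3]
    exact ENNReal.sum_le_tsum _

end Pool.Agent.H53.Tame
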