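import Pool.Agent.H53.Tame.Basic

/-!
Points of the second type in an ultrametric field, seen from a generic point.
-/

open Polynomial

namespace Pool.Agent.H53.Tame

section Near

variable {Ω : Type*} [NormedField Ω] [IsUltrametricDist Ω]

/-- `x` is near `z`: `x / z` is a principal unit -/
def near (x z : Ω) : Prop := ‖x - z‖ < ‖z‖

lemma near.ne {x z : Ω} (h : near x z) : z ≠ 0 := by
  intro h0
  unfold near at h
  rw [h0, norm_zero] at h
  exact absurd h (not_lt.mpr (norm_nonneg _))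

lemma near.norm_eq {x z : Ω} (h : near x z) : ‖x‖ = ‖z‖ := by
  have h1 : ‖(x - z) + z‖ = max ‖x - z‖ ‖z‖ :=
    IsUltrametricDist.norm_add_eq_max_of_norm_ne_norm (ne_of_lt h)
  rw [sub_add_cancel] at h1
  rw [h1, max_eq_right (le_of_lt h)]

lemma near_refl {z : Ω} (h : z ≠ 0) : near z z := by
  unfold near; rw [sub_self, norm_zero]; exact norm_pos_iff.mpr h

lemma near.mul {x z x' z' : Ω} (h : near x z) (h' : near x' z') : near (x * x') (z * z') := by
  have hz := norm_pos_iff.mpr h.ne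
  have hz' := norm_pos_iff.mpr h'.ne
  unfold near
  have e : x * x' - z * z' = (x - z) * x' + z * (x' - z') := by ring
  rw [e, norm_mul]
  refine lt_of_le_of_lt (IsUltrametricDist.norm_add_le_max _ _) ?_
  rw [norm_mul, norm_mul, h'.norm_eq]
  apply max_lt
  · exact mul_lt_mul_of_pos_right h hz'
  · exact mul_lt_mul_of_pos_left h' hz

lemma near.inv {x z : Ω} (h : near x z) : near x⁻¹ z⁻¹ := by
  have hz := norm_pos_iff.mpr h.ne
  have hx : 0 < ‖x‖ := by rw [h.norm_eq]; exact hz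
  have hx0 : x ≠ 0 := norm_pos_iff.mp hx
  have hz0 := h.ne
  unfold near
  have e : x⁻¹ - z⁻¹ = (z - x) * (x⁻¹ * z⁻¹) := by field_simp
  rw [e, norm_mul, norm_mul, norm_inv, norm_inv, norm_sub_rev, h.norm_eq]
  have h1 : ‖x - z‖ * (‖z‖⁻¹ * ‖z‖⁻¹) < ‖z‖ * (‖z‖⁻¹ * ‖z‖⁻¹) :=
    mul_lt_mul_of_pos_right h (by positivity)
  refine lt_of_lt_of_eq h1 ?_
  field_simp

lemma near.div {x z x' z' : Ω} (h : near x z) (h' : near x' z') : near (x / x') (z / z') := by
  rw [div_eq_mul_inv, div_eq_mul_inv]; exact h.mul h'.inv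

lemma near_prod {α : Type*} (m : Multiset α) (g h : α → Ω) (H : ∀ p ∈ m, near (g p) (h p)) :
    near (m.map g).prod (m.map h).prod := by
  induction m using Multiset.induction_on with
  | empty => simp only [Multiset.map_zero, Multiset.prod_zero]; exact near_refl one_ne_zero
  | cons a m ih =>
    rw [Multiset.map_cons, Multiset.prod_cons, Multiset.map_cons, Multiset.prod_cons]
    exact (H a (Multiset.mem_cons_self a m)).mul
      (ih (fun p hp => H p (Multiset.mem_cons_of_mem hp)))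

end Near

section RT

variable (C : Type*) [Field C] {Ω : Type*} [NormedField Ω] [IsUltrametricDist Ω] [Algebra C Ω]

/-- `x` is residually transcendental over `C` -/
def RT (x : Ω) : Prop := ∀ c : C, ‖x - algebraMap C Ω c‖ = max 1 ‖algebraMap C Ω c‖

variable {C}

omit [IsUltrametricDist Ω] in
lemma RT.norm {x : Ω} (h : RT C x) : ‖x‖ = 1 := by
  have := h 0
  simpa using this

omit [IsUltrametricDist Ω] in
lemma RT.ne {x : Ω} (h : RT C x) (c : C) : x ≠ algebraMap C Ω c := by
  intro h0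
  have := h c
  rw [h0, sub_self, norm_zero] at this
  have h1 := le_max_left 1 ‖algebraMap C Ω c‖
  rw [← h0] at this h1
  linarith

lemma RT.not_near {x : Ω} (h : RT C x) (c c' : C) (hc : ‖algebraMap C Ω c‖ ≤ 1) :
    ¬ near (x - algebraMap C Ω c) (algebraMap C Ω c') := by
  intro h1
  have h2 := h1.norm_eq
  rw [h c, max_eq_left hc] at h2
  have h3 := h (c + c')
  unfold near at h1
  rw [map_add] at h3
  have e : x - algebraMap C Ω c - algebraMap C Ω c' =
    x - (algebraMap C Ω c + algebraMap C Ω c') := by ring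
  rw [e, h3, ← h2] at h1
  exact absurd h1 (not_lt.mpr (le_max_left _ _))

lemma RT_of {x : Ω} (h1 : ‖x‖ = 1) (h2 : ∀ c : C, max 1 ‖algebraMap C Ω c‖ ≤ ‖x - algebraMap C Ω c‖) :
    RT C x := by
  intro c
  apply le_antisymm _ (h2 c)
  rw [sub_eq_add_neg]
  refine le_trans (IsUltrametricDist.norm_add_le_max _ _) ?_
  rw [norm_neg, h1]

/-- `y` is generic with radius `r` -/
def HR (C : Type*) [Field C] {Ω : Type*} [NormedField Ω] [Algebra C Ω] (y : Ω) (r : ℝ) : Prop :=
  ∃ a b : C, b ≠ 0 ∧ ‖algebraMap C Ω b‖ = r ∧ RT C ((y - algebraMap C Ω a) / algebraMap C Ω b)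

omit [IsUltrametricDist Ω] in
lemma HR.center {y : Ω} {r : ℝ} (h : HR C y r) :
    0 < r ∧ ∃ a b : C, b ≠ 0 ∧ ‖algebraMap C Ω b‖ = r ∧
      ∀ c : C, ‖y - algebraMap C Ω c‖ = max r ‖algebraMap C Ω (c - a)‖ := by
  obtain ⟨a, b, hb, hr, hx⟩ := h
  have hb' : algebraMap C Ω b ≠ 0 := by rw [Ne, map_eq_zero]; exact hb
  have hr0 : 0 < r := by rw [← hr]; exact norm_pos_iff.mpr hb'
  refine ⟨hr0, a, b, hb, hr, fun c => ?_⟩
  have h1 := hx ((c - a) / b)
  have e : (y - algebraMap C Ω a) / algebraMap C Ω b - algebraMap C Ω ((c - a) / b) =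
      (y - algebraMap C Ω c) / algebraMap C Ω b := by
    rw [map_div₀, map_sub]; field_simp; ring
  rw [e, norm_div, map_div₀, norm_div, hr] at h1
  rw [div_eq_iff hr0.ne'] at h1
  rw [h1, max_mul_of_nonneg _ _ hr0.le, one_mul, div_mul_cancel₀ _ hr0.ne']

omit [IsUltrametricDist Ω] in
lemma HR.pos {y : Ω} {r : ℝ} (h : HR C y r) : 0 < r := h.center.1

omit [IsUltrametricDist Ω] in
lemma HR.le {y : Ω} {r : ℝ} (h : HR C y r) (c : C) : r ≤ ‖y - algebraMap C Ω c‖ := by
  obtain ⟨_, a, b, _, _, h1⟩ := h.center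
  rw [h1 c]; exact le_max_left _ _

omit [IsUltrametricDist Ω] in
lemma HR.norm_pos {y : Ω} {r : ℝ} (h : HR C y r) (c : C) : 0 < ‖y - algebraMap C Ω c‖ :=
  lt_of_lt_of_le h.pos (h.le c)

omit [IsUltrametricDist Ω] in
lemma HR.sub_ne {y : Ω} {r : ℝ} (h : HR C y r) (c : C) : y - algebraMap C Ω c ≠ 0 :=
  norm_pos_iff.mp (h.norm_pos c)

omit [IsUltrametricDist Ω] in
lemma HR.value {y : Ω} {r : ℝ} (h : HR C y r) (c : C) :
    ∃ e : C, e ≠ 0 ∧ ‖algebraMap C Ω e‖ = ‖y - algebraMap C Ω c‖ := by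
  obtain ⟨h0, a, b, hb, hr, h1⟩ := h.center
  rw [h1 c]
  rcases le_total r ‖algebraMap C Ω (c - a)‖ with h2 | h2
  · refine ⟨c - a, ?_, (max_eq_right h2).symm⟩
    intro h3
    rw [h3] at h2
    simp at h2
    linarith
  · exact ⟨b, hb, by rw [hr, max_eq_left h2]⟩

/-- the distance of two points seen from `y`, normalised -/
noncomputable def E (y : Ω) (r : ℝ) (p q : C) : ℝ :=
  r * ‖algebraMap C Ω (p - q)‖ / (‖y - algebraMap C Ω p‖ * ‖y - algebraMap C Ω q‖)

omit [IsUltrametricDist Ω] in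
lemma E_comm (y : Ω) (r : ℝ) (p q : C) : E y r p q = E y r q p := by
  unfold E
  rw [map_sub, map_sub, norm_sub_rev, mul_comm ‖y - algebraMap C Ω p‖]

omit [IsUltrametricDist Ω] in
@[simp] lemma E_self (y : Ω) (r : ℝ) (p : C) : E y r p p = 0 := by simp [E]

omit [IsUltrametricDist Ω] in
lemma E_nonneg {y : Ω} {r : ℝ} (h : HR C y r) (p q : C) : 0 ≤ E y r p q := by
  have := h.pos
  unfold E; positivity

omit [IsUltrametricDist Ω] in
lemma E_pos {y : Ω} {r : ℝ} (h : HR C y r) {p q : C} (hpq : p ≠ q) : 0 < E y r p q := by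
  have h1 := h.pos
  have h2 := h.norm_pos p
  have h3 := h.norm_pos q
  have h4 : 0 < ‖algebraMap C Ω (p - q)‖ := by
    rw [norm_pos_iff, Ne, map_eq_zero, sub_eq_zero]; exact hpq
  unfold E; positivity

omit [IsUltrametricDist Ω] in
lemma E_eq {y : Ω} {r : ℝ} (h : HR C y r) (p q : C) :
    E y r p q = r * ‖(y - algebraMap C Ω p)⁻¹ - (y - algebraMap C Ω q)⁻¹‖ := by
  have h2 := h.sub_ne p
  have h3 := h.sub_ne q
  have e : (y - algebraMap C Ω p)⁻¹ - (y - algebraMap C Ω q)⁻¹ =
      algebraMap C Ω (p - q) / ((y - algebraMap C Ω p) * (y - algebraMap C Ω q)) := by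
    rw [map_sub]; field_simp; ring
  rw [e, norm_div, norm_mul]
  unfold E
  rw [mul_div_assoc]

lemma E_ultra {y : Ω} {r : ℝ} (h : HR C y r) (p q s : C) :
    E y r p s ≤ max (E y r p q) (E y r q s) := by
  rw [E_eq h, E_eq h, E_eq h, ← mul_max_of_nonneg _ _ h.pos.le]
  apply mul_le_mul_of_nonneg_left _ h.pos.le
  have e : (y - algebraMap C Ω p)⁻¹ - (y - algebraMap C Ω s)⁻¹ =
    ((y - algebraMap C Ω p)⁻¹ - (y - algebraMap C Ω q)⁻¹) +
    ((y - algebraMap C Ω q)⁻¹ - (y - algebraMap C Ω s)⁻¹) := by ring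
  rw [e]
  exact IsUltrametricDist.norm_add_le_max _ _

lemma E_le_one {y : Ω} {r : ℝ} (h : HR C y r) (p q : C) : E y r p q ≤ 1 := by
  have h2 := h.norm_pos p
  have h3 := h.norm_pos q
  unfold E
  rw [div_le_one (by positivity)]
  have h4 : ‖algebraMap C Ω (p - q)‖ ≤ max ‖y - algebraMap C Ω q‖ ‖y - algebraMap C Ω p‖ := by
    have e : algebraMap C Ω (p - q) = (y - algebraMap C Ω q) - (y - algebraMap C Ω p) := by
      rw [map_sub]; ring
    rw [e, sub_eq_add_neg]
    refine le_trans (IsUltrametricDist.norm_add_le_max _ _) ?_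
    rw [norm_neg]
  rcases le_max_iff.mp h4 with h5 | h5
  · exact mul_le_mul (h.le p) h5 (norm_nonneg _) h2.le
  · rw [mul_comm ‖y - algebraMap C Ω p‖]
    exact mul_le_mul (h.le q) h5 (norm_nonneg _) h3.le

lemma E_lt_trans {y : Ω} {r : ℝ} (h : HR C y r) {p q s : C} (h1 : E y r p q < 1)
    (h2 : E y r q s < 1) : E y r p s < 1 :=
  lt_of_le_of_lt (E_ultra h p q s) (max_lt h1 h2)

lemma E_eq_one_of_lt {y : Ω} {r : ℝ} (h : HR C y r) {p q s : C} (h1 : E y r p q < 1)
    (h2 : E y r p s = 1) : E y r q s = 1 := by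
  apply le_antisymm (E_le_one h q s)
  by_contra h3
  push_neg at h3
  have := E_lt_trans h h1 h3
  linarith

omit [IsUltrametricDist Ω] in
/-- the equation of separated points -/
lemma E_one_iff {y : Ω} {r : ℝ} (h : HR C y r) (p q : C) : E y r p q = 1 ↔
    r * ‖algebraMap C Ω (p - q)‖ = ‖y - algebraMap C Ω p‖ * ‖y - algebraMap C Ω q‖ := by
  have h2 := h.norm_pos p
  have h3 := h.norm_pos q
  unfold E
  rw [div_eq_one_iff_eq (by positivity)]

lemma RT_mobius {y : Ω} {r : ℝ} (h : HR C y r) {α q l : C} (h1 : E y r α q = 1)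
    (hl : ‖algebraMap C Ω l‖ * ‖y - algebraMap C Ω α‖ = ‖y - algebraMap C Ω q‖) :
    RT C (algebraMap C Ω l * (y - algebraMap C Ω α) / (y - algebraMap C Ω q)) := by
  have hα := h.norm_pos α
  have hq := h.norm_pos q
  have hα' := h.sub_ne α
  have hq' := h.sub_ne q
  have hr := h.pos
  have hαq := (E_one_iff h α q).mp h1
  have hαq0 : 0 < ‖algebraMap C Ω (α - q)‖ := by
    rcases (norm_nonneg (algebraMap C Ω (α - q))).eq_or_lt with h0 | h0
    · rw [← h0, mul_zero] at hαq
      have : 0 < ‖y - algebraMap C Ω α‖ * ‖y - algebraMap C Ω q‖ := by positivity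
      linarith
    · exact h0
  have hl0 : 0 < ‖algebraMap C Ω l‖ := by
    rcases (norm_nonneg (algebraMap C Ω l)).eq_or_lt with h0 | h0
    · rw [← h0, zero_mul] at hl; linarith
    · exact h0
  apply RT_of
  · rw [norm_div, norm_mul, hl, div_self hq.ne']
  · intro c
    by_cases hc : l = c
    · -- the value at infinity
      subst hc
      have e : algebraMap C Ω l * (y - algebraMap C Ω α) / (y - algebraMap C Ω q) -
          algebraMap C Ω l = - (algebraMap C Ω l * algebraMap C Ω (α - q)) /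
            (y - algebraMap C Ω q) := by
        rw [map_sub]; field_simp; ring
      rw [e, norm_div, norm_neg, norm_mul, le_div_iff₀ hq]
      have h3 : ‖algebraMap C Ω l‖ * ‖algebraMap C Ω (α - q)‖ * r =
          ‖y - algebraMap C Ω q‖ * ‖y - algebraMap C Ω q‖ := by
        calc _ = ‖algebraMap C Ω l‖ * (r * ‖algebraMap C Ω (α - q)‖) := by ring
          _ = (‖algebraMap C Ω l‖ * ‖y - algebraMap C Ω α‖) * ‖y - algebraMap C Ω q‖ := by
            rw [hαq]; ring
          _ = _ := by rw [hl]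
      have h4 := h.le q
      have h5 := h.le α
      rw [max_mul_of_nonneg _ _ hq.le]
      apply max_le
      · rw [one_mul]
        by_contra h6
        push_neg at h6
        have : ‖algebraMap C Ω l‖ * ‖algebraMap C Ω (α - q)‖ * r <
            ‖y - algebraMap C Ω q‖ * ‖y - algebraMap C Ω q‖ :=
          mul_lt_mul h6 h4 hr (by positivity)
        linarith
      · apply mul_le_mul_of_nonneg_left _ hl0.le
        by_contra h6
        push_neg at h6
        have : ‖algebraMap C Ω (α - q)‖ * r < ‖y - algebraMap C Ω q‖ * ‖y - algebraMap C Ω α‖ :=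
          mul_lt_mul h6 h5 hr (by positivity)
        linarith
    · have hlc : l - c ≠ 0 := sub_ne_zero.mpr hc
      have hlc' : 0 < ‖algebraMap C Ω (l - c)‖ := by
        rw [norm_pos_iff, Ne, map_eq_zero]; exact hlc
      set w : C := (l * α - c * q) / (l - c) with hw
      have hlcΩ : algebraMap C Ω l - algebraMap C Ω c ≠ 0 := by
        rw [← map_sub, Ne, map_eq_zero]; exact hlc
      have e : algebraMap C Ω l * (y - algebraMap C Ω α) / (y - algebraMap C Ω q) -
          algebraMap C Ω c = algebraMap C Ω (l - c) * (y - algebraMap C Ω w) /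
            (y - algebraMap C Ω q) := by
        rw [hw, map_div₀, map_sub, map_sub, map_mul, map_mul]; field_simp; ring
      rw [e, norm_div, norm_mul, le_div_iff₀ hq]
      have hyw := h.norm_pos w
      -- two bounds
      have hwα : w - α = c * (α - q) / (l - c) := by rw [hw]; field_simp; ring
      have hwq : w - q = l * (α - q) / (l - c) := by rw [hw]; field_simp; ring
      have h5 := E_le_one h w α
      have h6 := E_le_one h w q
      unfold E at h5 h6
      rw [div_le_one (by positivity), hwα, map_div₀, map_mul, norm_div, norm_mul] at h5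
      rw [div_le_one (by positivity), hwq, map_div₀, map_mul, norm_div, norm_mul] at h6
      rw [max_mul_of_nonneg _ _ hq.le]
      apply max_le
      · rw [one_mul]
        have h7 : ‖algebraMap C Ω l‖ * (r * ‖algebraMap C Ω (α - q)‖) ≤
            ‖algebraMap C Ω (l - c)‖ * ‖y - algebraMap C Ω w‖ * ‖y - algebraMap C Ω q‖ := by
          calc _ = (r * (‖algebraMap C Ω l‖ * ‖algebraMap C Ω (α - q)‖ /
                ‖algebraMap C Ω (l - c)‖)) * ‖algebraMap C Ω (l - c)‖ := by field_simp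
            _ ≤ (‖y - algebraMap C Ω w‖ * ‖y - algebraMap C Ω q‖) *
                ‖algebraMap C Ω (l - c)‖ := mul_le_mul_of_nonneg_right h6 hlc'.le
            _ = _ := by ring
        rw [hαq] at h7
        have h8 : ‖y - algebraMap C Ω q‖ * ‖y - algebraMap C Ω q‖ ≤
            ‖algebraMap C Ω (l - c)‖ * ‖y - algebraMap C Ω w‖ * ‖y - algebraMap C Ω q‖ := by
          refine le_trans (le_of_eq ?_) h7
          rw [← mul_assoc, hl]
        exact le_of_mul_le_mul_right h8 hq
      · have h7 : ‖algebraMap C Ω c‖ * (r * ‖algebraMap C Ω (α - q)‖) ≤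
            ‖algebraMap C Ω (l - c)‖ * ‖y - algebraMap C Ω w‖ * ‖y - algebraMap C Ω α‖ := by
          calc _ = (r * (‖algebraMap C Ω c‖ * ‖algebraMap C Ω (α - q)‖ /
                ‖algebraMap C Ω (l - c)‖)) * ‖algebraMap C Ω (l - c)‖ := by field_simp
            _ ≤ (‖y - algebraMap C Ω w‖ * ‖y - algebraMap C Ω α‖) *
                ‖algebraMap C Ω (l - c)‖ := mul_le_mul_of_nonneg_right h5 hlc'.le
            _ = _ := by ring
        rw [hαq] at h7
        have h8 : ‖algebraMap C Ω c‖ * ‖y - algebraMap C Ω q‖ * ‖y - algebraMap C Ω α‖ ≤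
            ‖algebraMap C Ω (l - c)‖ * ‖y - algebraMap C Ω w‖ * ‖y - algebraMap C Ω α‖ := by
          refine le_trans (le_of_eq ?_) h7
          ring
        exact le_of_mul_le_mul_right h8 hα

/-- **Generic points of smaller radius.** -/
theorem exists_generic {y : Ω} {r : ℝ} (h : HR C y r) {α q ϖ : C} (h1 : E y r α q = 1)
    (hϖ : ϖ ≠ 0) (hϖ1 : ‖algebraMap C Ω ϖ‖ ≤ 1) :
    ∃ (ξ : Ω) (k : ℝ), 0 < k ∧ ∀ p : C, ‖ξ - algebraMap C Ω p‖ =
      k * ‖y - algebraMap C Ω p‖ * max ‖algebraMap C Ω ϖ‖ (E y r α p) := by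
  have hα := h.norm_pos α
  have hq := h.norm_pos q
  have hα' := h.sub_ne α
  have hq' := h.sub_ne q
  have hr := h.pos
  have hαq := (E_one_iff h α q).mp h1
  obtain ⟨e1, he1, he1'⟩ := h.value α
  obtain ⟨e2, he2, he2'⟩ := h.value q
  obtain ⟨l, hl⟩ : ∃ l : C, l = e2 / e1 := ⟨_, rfl⟩
  have hl0 : l ≠ 0 := by rw [hl]; exact div_ne_zero he2 he1
  have hl0' : algebraMap C Ω l ≠ 0 := by rw [Ne, map_eq_zero]; exact hl0
  have hlN : 0 < ‖algebraMap C Ω l‖ := norm_pos_iff.mpr hl0'
  have hll : ‖algebraMap C Ω l‖ * ‖y - algebraMap C Ω α‖ = ‖y - algebraMap C Ω q‖ := by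
    rw [hl, map_div₀, norm_div, he1', he2', div_mul_cancel₀ _ hα.ne']
  have hRT := RT_mobius h h1 hll
  obtain ⟨x, hx⟩ : ∃ x : Ω, x = algebraMap C Ω l * (y - algebraMap C Ω α) /
    (y - algebraMap C Ω q) := ⟨_, rfl⟩
  rw [← hx] at hRT
  have hϖ' : algebraMap C Ω ϖ ≠ 0 := by rw [Ne, map_eq_zero]; exact hϖ
  have hsN : 0 < ‖algebraMap C Ω ϖ‖ := norm_pos_iff.mpr hϖ'
  obtain ⟨w, hw⟩ : ∃ w : Ω, w = algebraMap C Ω ϖ := ⟨_, rfl⟩
  rw [← hw] at hsN hϖ' hϖ1 ⊢
  have hlx : algebraMap C Ω l - x ≠ 0 := sub_ne_zero.mpr (hRT.ne l).symm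
  have hlwx : algebraMap C Ω l - w * x ≠ 0 := by
    intro h0
    apply hRT.ne (l / ϖ)
    rw [map_div₀, ← hw, eq_div_iff hϖ']
    rw [sub_eq_zero] at h0; rw [h0]; ring
  have hlxN : 0 < ‖algebraMap C Ω l - x‖ := norm_pos_iff.mpr hlx
  have hlwxN : 0 < ‖algebraMap C Ω l - w * x‖ := norm_pos_iff.mpr hlwx
  refine ⟨(algebraMap C Ω l * algebraMap C Ω α - w * x * algebraMap C Ω q) /
    (algebraMap C Ω l - w * x), ‖algebraMap C Ω l - x‖ / ‖algebraMap C Ω l - w * x‖,
    by positivity, fun p => ?_⟩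
  have hkey : r * ‖algebraMap C Ω l - x‖ = ‖algebraMap C Ω l‖ * ‖y - algebraMap C Ω α‖ := by
    have e : algebraMap C Ω l - x = algebraMap C Ω l * algebraMap C Ω (α - q) /
        (y - algebraMap C Ω q) := by
      rw [hx, map_sub]; field_simp; ring
    rw [e, norm_div, norm_mul]
    calc _ = ‖algebraMap C Ω l‖ * (r * ‖algebraMap C Ω (α - q)‖) / ‖y - algebraMap C Ω q‖ := by
          ring
      _ = _ := by rw [hαq]; field_simp
  by_cases hpq : p = q
  · subst hpq
    rw [h1, max_eq_right hϖ1, mul_one]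
    have e1 : (algebraMap C Ω l * algebraMap C Ω α - w * x * algebraMap C Ω p) /
        (algebraMap C Ω l - w * x) - algebraMap C Ω p =
        algebraMap C Ω l * algebraMap C Ω (α - p) / (algebraMap C Ω l - w * x) := by
      rw [map_sub]; field_simp; ring
    have e2 : y - algebraMap C Ω p = algebraMap C Ω l * algebraMap C Ω (α - p) /
        (algebraMap C Ω l - x) := by
      rw [eq_div_iff hlx, hx, map_sub]; field_simp; ring
    rw [e1, norm_div]
    rw [show ‖y - algebraMap C Ω p‖ = ‖algebraMap C Ω l * algebraMap C Ω (α - p)‖ /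
        ‖algebraMap C Ω l - x‖ by rw [← norm_div, ← e2]]
    field_simp
  · have hpq' : p - q ≠ 0 := sub_ne_zero.mpr hpq
    have hpqN : 0 < ‖algebraMap C Ω (p - q)‖ := by
      rw [norm_pos_iff, Ne, map_eq_zero]; exact hpq'
    have hpqΩ : algebraMap C Ω p - algebraMap C Ω q ≠ 0 := by
      rw [← map_sub, Ne, map_eq_zero]; exact hpq'
    obtain ⟨n, hn⟩ : ∃ n : C, n = l * (p - α) / (p - q) := ⟨_, rfl⟩
    have e1 : (algebraMap C Ω l * algebraMap C Ω α - w * x * algebraMap C Ω q) /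
        (algebraMap C Ω l - w * x) - algebraMap C Ω p =
        algebraMap C Ω (p - q) * (w * x - algebraMap C Ω n) / (algebraMap C Ω l - w * x) := by
      rw [hn, map_div₀, map_mul, map_sub, map_sub]; field_simp; ring
    have e2 : y - algebraMap C Ω p =
        algebraMap C Ω (p - q) * (x - algebraMap C Ω n) / (algebraMap C Ω l - x) := by
      rw [eq_div_iff hlx, hn, map_div₀, map_mul, map_sub, map_sub, hx]; field_simp; ring
    have h3 : ‖w * x - algebraMap C Ω n‖ = max ‖w‖ ‖algebraMap C Ω n‖ := by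
      have h4 := hRT (n / ϖ)
      have e : w * x - algebraMap C Ω n = w * (x - algebraMap C Ω (n / ϖ)) := by
        rw [map_div₀, ← hw]; field_simp
      rw [e, norm_mul, h4, map_div₀, norm_div, ← hw, mul_max_of_nonneg _ _ hsN.le, mul_one,
        mul_div_cancel₀ _ hsN.ne']
    have h4 : ‖y - algebraMap C Ω p‖ = ‖algebraMap C Ω (p - q)‖ *
        max 1 ‖algebraMap C Ω n‖ / ‖algebraMap C Ω l - x‖ := by
      rw [e2, norm_div, norm_mul, hRT n]
    have hmaxpos : 0 < max 1 ‖algebraMap C Ω n‖ := lt_of_lt_of_le one_pos (le_max_left _ _)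
    have h5 : E y r α p = ‖algebraMap C Ω n‖ / max 1 ‖algebraMap C Ω n‖ := by
      unfold E
      rw [h4]
      have h6 : ‖algebraMap C Ω (α - p)‖ = ‖algebraMap C Ω n‖ * ‖algebraMap C Ω (p - q)‖ /
          ‖algebraMap C Ω l‖ := by
        rw [hn, map_div₀, norm_div, map_mul, norm_mul, map_sub, norm_sub_rev, ← map_sub]
        field_simp
      rw [h6]
      rw [div_eq_div_iff (by positivity) hmaxpos.ne']
      field_simp
      linear_combination (‖algebraMap C Ω n‖) * hkey
    rw [e1, norm_div, norm_mul, h3, h4, h5]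
    have h7 : max ‖w‖ ‖algebraMap C Ω n‖ = max 1 ‖algebraMap C Ω n‖ *
        max ‖w‖ (‖algebraMap C Ω n‖ / max 1 ‖algebraMap C Ω n‖) := by
      rcases le_total ‖algebraMap C Ω n‖ 1 with h8 | h8
      · rw [max_eq_left h8, div_one, one_mul]
      · rw [max_eq_right h8, div_self (by positivity), max_eq_right hϖ1, mul_one,
          max_eq_right (le_trans hϖ1 h8)]
    rw [h7]
    field_simp

end RT

end Pool.Agent.H53.Tame
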