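import Pool.Agent.H53.Tame.Basic

/-!
The weights of the potential: a solution of a linear system over a finite invariant set which
contains the critical values.
-/

open Polynomial

namespace Pool.Agent.H53.Tame

namespace RM

variable {C : Type*} [Field C] [IsAlgClosed C] [CharZero C] (f : RM C)

open Classical in
/-- the critical multiplicity over a point -/
noncomputable def crit (w : OnePoint C) : ℕ :=
  (f.W.roots.map (fun c : C => f.app (c : OnePoint C))).count w +
    if w = OnePoint.infty then f.d - f.Q.natDegree - 1 else 0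

open Classical in
lemma count_W_over (w : OnePoint C) (A : C[X])
    (hA : ∀ c : C, f.app (c : OnePoint C) = w ↔ c ∈ A.roots)
    (hm : ∀ c ∈ A.roots, f.W.rootMultiplicity c + 1 = A.rootMultiplicity c) :
    (f.W.roots.map (fun c : C => f.app (c : OnePoint C))).count w + A.roots.toFinset.card =
      A.roots.card := by
  rw [Multiset.count_map]
  have h1 : (f.W.roots.filter (fun a : C => w = f.app (a : OnePoint C))).card =
      ∑ c ∈ A.roots.toFinset, f.W.rootMultiplicity c := by
    rw [← Multiset.sum_count_eq_card (s := A.roots.toFinset)]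
    · apply Finset.sum_congr rfl
      intro c hc
      rw [Multiset.mem_toFinset] at hc
      rw [Multiset.count_filter, if_pos ((hA c).mpr hc).symm, count_roots]
    · intro a ha
      rw [Multiset.mem_filter] at ha
      rw [Multiset.mem_toFinset]
      exact (hA a).mp ha.2.symm
  rw [h1, Finset.card_eq_sum_ones, ← Finset.sum_add_distrib, ← Multiset.toFinset_sum_count_eq]
  apply Finset.sum_congr rfl
  intro c hc
  rw [Multiset.mem_toFinset] at hc
  rw [hm c hc, count_roots]

open Classical in
lemma crit_add_card_le (Z : Finset (OnePoint C)) (w : OnePoint C) :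
    f.crit w + (Z.filter (fun z => f.app z = w)).card ≤ f.d := by
  induction w using OnePoint.rec with
  | infty =>
    have h1 := f.count_W_over OnePoint.infty f.Q (fun c => f.app_eq_infty_iff)
      (fun c hc => f.W_mult_pole hc)
    have h2 : (Z.filter (fun z => f.app z = OnePoint.infty)).card ≤ f.Q.roots.toFinset.card + 1 := by
      have : Z.filter (fun z => f.app z = OnePoint.infty) ⊆
          insert OnePoint.infty (f.Q.roots.toFinset.image (fun c : C => (c : OnePoint C))) := by
        intro z hz
        rw [Finset.mem_filter] at hz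
        rw [Finset.mem_insert]
        induction z using OnePoint.rec with
        | infty => left; rfl
        | coe c =>
          right
          rw [Finset.mem_image]
          exact ⟨c, Multiset.mem_toFinset.mpr (f.app_eq_infty_iff.mp hz.2), rfl⟩
      refine le_trans (Finset.card_le_card this) ?_
      refine le_trans (Finset.card_insert_le _ _) ?_
      exact Nat.add_le_add_right Finset.card_image_le 1
    have h3 : f.Q.roots.card = f.Q.natDegree := IsAlgClosed.card_roots_eq_natDegree
    have h4 := f.lt
    unfold crit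
    rw [if_pos rfl]
    unfold d at *
    omega
  | coe w =>
    have h1 := f.count_W_over (w : OnePoint C) (f.fib w) (fun c => f.app_eq_coe_iff)
      (fun c hc => f.W_mult_fib hc)
    have h2 : (Z.filter (fun z => f.app z = (w : OnePoint C))).card ≤
        (f.fib w).roots.toFinset.card := by
      have : Z.filter (fun z => f.app z = (w : OnePoint C)) ⊆
          (f.fib w).roots.toFinset.image (fun c : C => (c : OnePoint C)) := by
        intro z hz
        rw [Finset.mem_filter] at hz
        induction z using OnePoint.rec with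
        | infty => exact absurd hz.2.symm (OnePoint.coe_ne_infty w)
        | coe c =>
          rw [Finset.mem_image]
          exact ⟨c, Multiset.mem_toFinset.mpr (f.app_eq_coe_iff.mp hz.2), rfl⟩
      exact le_trans (Finset.card_le_card this) Finset.card_image_le
    have h3 := f.card_fib_roots w
    unfold crit
    rw [if_neg (OnePoint.coe_ne_infty w)]
    omega

open Classical in
lemma sum_crit (Z : Finset (OnePoint C)) (hinf : OnePoint.infty ∈ Z)
    (hc : ∀ c ∈ f.W.roots, f.app (c : OnePoint C) ∈ Z) :
    ∑ w ∈ Z, f.crit w = 2 * f.d - 2 := by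
  unfold crit
  rw [Finset.sum_add_distrib, Finset.sum_ite_eq' Z OnePoint.infty, if_pos hinf]
  rw [Multiset.sum_count_eq_card]
  · rw [Multiset.card_map, IsAlgClosed.card_roots_eq_natDegree, W_natDegree]
    have := f.lt
    have := f.two
    unfold d
    omega
  · intro a ha
    rw [Multiset.mem_map] at ha
    obtain ⟨c, hc1, hc2⟩ := ha
    rw [← hc2]; exact hc c hc1

open Classical in
/-- Existence of the weights. -/
theorem exists_weights (Z : Finset (OnePoint C)) (hinf : OnePoint.infty ∈ Z)
    (hZ : ∀ z ∈ Z, f.app z ∈ Z)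
    (hc : ∀ c ∈ f.W.roots, f.app (c : OnePoint C) ∈ Z) :
    ∃ v : OnePoint C → ℝ, (∀ w, 0 ≤ v w) ∧ (∀ w, v w ≤ 1) ∧
      (∀ w, (f.d : ℝ) * v w = f.crit w + ∑ z ∈ Z.filter (fun z => f.app z = w), v z) ∧
      ∑ z ∈ Z, v z = 2 := by
  haveI : Fact ((0 : ℝ) ≤ 1) := ⟨zero_le_one⟩
  have hd : (0 : ℝ) < f.d := by
    have := f.two_le_d
    exact_mod_cast (by omega : 0 < f.d)
  let Φ : (OnePoint C → Set.Icc (0 : ℝ) 1) →o (OnePoint C → Set.Icc (0 : ℝ) 1) :=
    { toFun := fun v w => ⟨(f.crit w + ∑ z ∈ Z.filter (fun z => f.app z = w), (v z : ℝ)) / f.d, by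
        constructor
        · apply div_nonneg _ hd.le
          apply add_nonneg (Nat.cast_nonneg _)
          exact Finset.sum_nonneg (fun z _ => (v z).2.1)
        · rw [div_le_one hd]
          have h1 : ∑ z ∈ Z.filter (fun z => f.app z = w), (v z : ℝ) ≤
              (Z.filter (fun z => f.app z = w)).card := by
            rw [Finset.card_eq_sum_ones, Nat.cast_sum]
            apply Finset.sum_le_sum
            intro z _
            simpa using (v z).2.2
          have h2 := f.crit_add_card_le Z w
          have h3 : (f.crit w : ℝ) + (Z.filter (fun z => f.app z = w)).card ≤ f.d := by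
            exact_mod_cast h2
          linarith⟩
      monotone' := by
        intro a b hab w
        show (_ : ℝ) ≤ _
        apply div_le_div_of_nonneg_right _ hd.le
        apply add_le_add le_rfl
        apply Finset.sum_le_sum
        intro z _
        exact hab z }
  obtain ⟨v, hv⟩ : ∃ v, Φ v = v := ⟨Φ.lfp, Φ.isFixedPt_lfp⟩
  have hv' : ∀ w, (f.d : ℝ) * (v w : ℝ) =
      f.crit w + ∑ z ∈ Z.filter (fun z => f.app z = w), (v z : ℝ) := by
    intro w
    have h1 : ((Φ v w : Set.Icc (0 : ℝ) 1) : ℝ) = v w := by rw [hv]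
    have h2 : ((Φ v w : Set.Icc (0 : ℝ) 1) : ℝ) =
      (f.crit w + ∑ z ∈ Z.filter (fun z => f.app z = w), (v z : ℝ)) / f.d := rfl
    rw [← h1, h2]
    field_simp
  refine ⟨fun w => (v w : ℝ), fun w => (v w).2.1, fun w => (v w).2.2, hv', ?_⟩
  have h1 : ∑ w ∈ Z, (f.d : ℝ) * (v w : ℝ) = ∑ w ∈ Z, (f.crit w : ℝ) + ∑ z ∈ Z, (v z : ℝ) := by
    rw [Finset.sum_congr rfl (fun w _ => hv' w), Finset.sum_add_distrib]
    congr 1
    exact Finset.sum_fiberwise_of_maps_to hZ _
  rw [← Finset.mul_sum, ← Nat.cast_sum, f.sum_crit Z hinf hc] at h1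
  have h2 := f.two_le_d
  have h3 : ((2 * f.d - 2 : ℕ) : ℝ) = 2 * f.d - 2 := by
    rw [Nat.cast_sub (by omega)]; push_cast; ring
  rw [h3] at h1
  have h4 : ((f.d : ℝ) - 1) * (∑ z ∈ Z, (v z : ℝ) - 2) = 0 := by linarith
  rcases mul_eq_zero.mp h4 with h5 | h5
  · have : (2 : ℝ) ≤ f.d := by exact_mod_cast h2
    linarith
  · linarith

end RM

end Pool.Agent.H53.Tame
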